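import Mathlib
import Pool.Agent.TH461.SST.Stms

/-!
Project GT: a subspace theorem with algebraic linear forms for the points of the lattices
`B_t ℤ^n`, where `M B_t = diag(∏_v lam v l ^ (k t v)) M` (orbits of commuting integer matrices).
`O` is a commutative domain, free of finite rank over `ℤ`, with a ring homomorphism `φ : O → ℂ`.
The case of rational forms is project SST (`Pool.Agent.TH461.SST`).
-/

set_option autoImplicit false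

open Finset Filter Topology

namespace Pool.Agent.TH286.GT

open Pool.Agent.H393R2 (Dset bterm Sk)
open Pool.Agent.TH461.SST (Big Ix wedge cpd Bal HeightPairStmt CBStmt SFStmt GapStmt CompStmt)

/-! ### The ring `O` -/

/-- a multiplicative size `h` on `O`, with an upper bound of the norm and Liouville's inequality -/
def HtData (O : Type) [CommRing O] (φ : O →+* ℂ) (h : O → ℝ) (C : ℝ) (d : ℕ) : Prop :=
  1 ≤ C ∧ 1 ≤ d ∧ (∀ x, 0 ≤ h x) ∧ (∀ x y, h (x + y) ≤ h x + h y) ∧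
    (∀ x y, h (x * y) ≤ h x * h y) ∧ (∀ z : ℤ, h ((z : ℤ) : O) ≤ C * |(z : ℝ)|) ∧
    (∀ x, ‖φ x‖ ≤ C * h x) ∧
    (∀ x, |((Algebra.norm ℤ x : ℤ) : ℝ)| ≤ C * h x ^ d) ∧
    ∀ x, x ≠ 0 → Algebra.norm ℤ x ≠ 0 ∧ 1 ≤ C * h x ^ d * ‖φ x‖

/-- A0: such a size exists -/
def HtStmt (O : Type) [CommRing O] (φ : O →+* ℂ) : Prop :=
  ∃ (h : O → ℝ) (C : ℝ) (d : ℕ), HtData O φ h C d

/-! ### The auxiliary polynomial -/

/-- `d` are the coefficients of the multihomogeneous form with coefficients `c` after the linear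
substitution `X = N Y`; the identity holds in every commutative ring `R` with a homomorphism
`O → R`. -/
def SubIdO {O : Type} [CommRing O] {m n : ℕ} (r : Fin m → ℕ) (c : (Fin m → Fin n → ℕ) → ℤ)
    (N : Matrix (Fin n) (Fin n) O) (d : (Fin m → Fin n → ℕ) → O) : Prop :=
  ∀ (R : Type) [CommRing R] (ψ : O →+* R) (W : Fin m → Fin n → R),
    ∑ a ∈ Dset m n r, (c a : R) * ∏ h, ∏ l, (∑ i, ψ (N l i) * W h i) ^ (a h l) =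
      ∑ J ∈ Dset m n r, ψ (d J) * ∏ h, ∏ l, W h l ^ (J h l)

/-- the nonzero coefficients are balanced -/
def BalO {O : Type} [CommRing O] {m n : ℕ} (r : Fin m → ℕ) (τ : ℝ)
    (d : (Fin m → Fin n → ℕ) → O) : Prop :=
  ∀ J ∈ Dset m n r, d J ≠ 0 → ∀ l : Fin n,
    |∑ h, (J h l : ℝ) / (r h : ℝ) - (m : ℝ) / (n : ℝ)| ≤ τ * m

/-- A1: the auxiliary polynomial -/
def AuxOStmt (O : Type) [CommRing O] (φ : O →+* ℂ) : Prop :=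
  ∀ (n : ℕ) (_ : 1 ≤ n) (s : ℕ) (M : Fin s → Matrix (Fin n) (Fin n) O) (τ : ℝ) (_ : 0 < τ),
    ∃ C : ℝ, 1 ≤ C ∧ ∃ m0 : ℕ, ∀ m : ℕ, m0 ≤ m → ∀ r : Fin m → ℕ, (∀ h, 0 < r h) →
      ∃ c : (Fin m → Fin n → ℕ) → ℤ, (∃ a ∈ Dset m n r, c a ≠ 0) ∧
        (∀ a ∈ Dset m n r, |(c a : ℝ)| ≤ C ^ (∑ h, r h)) ∧
        ∀ v, ∃ d : (Fin m → Fin n → ℕ) → O,
          (∀ J ∈ Dset m n r, ‖φ (d J)‖ ≤ C ^ (∑ h, r h)) ∧ BalO r τ d ∧ SubIdO r c (M v) d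

/-- A2: the divided derivative in terms of the forms `M` -/
def ExpandOStmt (O : Type) [CommRing O] : Prop :=
  ∀ (R : Type) [CommRing R] (ψ : O →+* R) (m n : ℕ) (r : Fin m → ℕ) (j1 : Fin n)
    (k : Fin m → ℕ) (c : (Fin m → Fin n → ℕ) → ℤ) (d : (Fin m → Fin n → ℕ) → O)
    (M : Matrix (Fin n) (Fin n) O), SubIdO r c M.adjugate d → ∀ W : Fin m → Fin n → R,
    ψ M.det ^ (∑ h, r h) * Sk r j1 k c W =
      ∑ J ∈ Dset m n r, ψ (d J) * ∏ h,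
        ∑ κ ∈ Finset.piAntidiag (Finset.univ : Finset (Fin n)) (k h),
          ∏ l, ((((J h l).choose (κ l) : ℕ) : R) * ψ (M l j1) ^ (κ l) *
            (∑ i, ψ (M l i) * W h i) ^ (J h l - κ l))

/-! ### Lattices, sizes, solutions -/

/-- the columns of the integer matrix `B` are a basis of a lattice; `M B = diag(β) M` -/
def Lat {O : Type} [CommRing O] {ι : Type} [Fintype ι] [DecidableEq ι] (M : Matrix ι ι O)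
    (β : ι → O) (B : Matrix ι ι ℤ) : Prop :=
  B.det ≠ 0 ∧ M * B.map (Int.castRingHom O) = Matrix.diagonal β * M

/-- the numbers `β l = ∏_v (lam v l)^(k v)` -/
def bet {O : Type} [CommRing O] {ι : Type} {s : ℕ} (lam : Fin s → ι → O) (k : Fin s → ℕ) :
    ι → O := fun l => ∏ v, lam v l ^ k v

/-- the forms: `M0` at the real place, `M` for the lattices, and the numbers `lam v l` -/
def DataO {O : Type} [CommRing O] (φ : O →+* ℂ) {ι : Type} [Fintype ι] [DecidableEq ι] {s : ℕ}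
    (M0 M : Matrix ι ι O) (lam : Fin s → ι → O) : Prop :=
  M0.det ≠ 0 ∧ (∀ i j, (φ (M0 i j)).im = 0) ∧ M.det ≠ 0 ∧ ∀ v l, lam v l ≠ 0

/-- the size conditions; `N` is the logarithmic height -/
def SizeO {ι : Type} [Fintype ι] [DecidableEq ι] (c γ N : ℝ) (B : Matrix ι ι ℤ) (A : ι → ℝ) :
    Prop :=
  Real.log |(B.det : ℝ)| ≤ c * N ∧ (∀ l, 0 < A l) ∧ (∀ l, |Real.log (A l)| ≤ c * N) ∧
    ∑ l, Real.log (A l) + γ * N ≤ Real.log |(B.det : ℝ)|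

/-- `x` lies in the lattice of `B` and satisfies the conditions `A` -/
def SolO {O : Type} [CommRing O] (φ : O →+* ℂ) {ι : Type} [Fintype ι] (M0 : Matrix ι ι O)
    (B : Matrix ι ι ℤ) (A : ι → ℝ) (x : ι → ℤ) : Prop :=
  (∀ l, ‖φ (∑ j, M0 l j * ((x j : ℤ) : O))‖ ≤ A l) ∧ ∃ z : ι → ℤ, x = B.mulVec z

/-- lower bound `E` for the exponents of the terms of an expansion -/
def LowExpO {O : Type} [CommRing O] {m n s : ℕ} (r k : Fin m → ℕ)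
    (d : (Fin m → Fin n → ℕ) → O) (kk : Fin m → Fin s → ℕ) (E : Fin s → ℕ) : Prop :=
  ∀ J ∈ Dset m n r, d J ≠ 0 → ∀ κ : Fin m → Fin n → ℕ, (∀ h, ∑ l, κ h l = k h) →
    (∀ h l, κ h l ≤ J h l) → ∀ v l, E v ≤ ∑ h, kk h v * (J h l - κ h l)

/-- A3: vanishing on products of hyperplanes -/
def VanishOStmt (O : Type) [CommRing O] (φ : O →+* ℂ) : Prop :=
  ∀ (m n s n' : ℕ) (r : Fin m → ℕ) (j1 : Fin n) (k : Fin m → ℕ) (c : (Fin m → Fin n → ℕ) → ℤ)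
    (M0 : Matrix (Fin n) (Fin n) O) (_ : M0.det ≠ 0) (M : Matrix (Fin n) (Fin n) O)
    (_ : M.det ≠ 0) (lam : Fin s → Fin n → O)
    (d0 : (Fin m → Fin n → ℕ) → O) (_ : SubIdO r c M0.adjugate d0)
    (d : (Fin m → Fin n → ℕ) → O) (_ : SubIdO r c M.adjugate d)
    (kk : Fin m → Fin s → ℕ) (B : Fin m → Matrix (Fin n) (Fin n) ℤ)
    (_ : ∀ h, Lat M (bet lam (kk h)) (B h)) (z : Fin m → Fin n' → Fin n → ℤ)
    (E : Fin s → ℕ) (_ : LowExpO r k d kk E)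
    (b : Fin s → ℝ) (_ : ∀ v, 0 ≤ b v)
    (_ : ∀ v, b v ^ Module.finrank ℤ O = |((Algebra.norm ℤ (∏ l, lam v l) : ℤ) : ℝ)|)
    (X : ℝ) (_ : 1 ≤ X) (_ : |((Algebra.norm ℤ M.det : ℤ) : ℝ)| ≤ X * ‖φ M0.det‖)
    (_ : ∀ l, ‖φ (M0 l j1)‖ ≤ X)
    (D0 : (Fin m → Fin n → ℕ) → ℤ) (_ : ∀ J ∈ Dset m n r, ‖φ (d0 J)‖ ≤ |(D0 J : ℝ)|)
    (A : Fin m → Fin n → ℝ)
    (_ : ∀ h l, ∑ i, ‖φ (∑ j, M0 l j * (((B h).mulVec (z h i) j : ℤ) : O))‖ ≤ X * A h l)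
    (_ : Big r k X D0 A < ∏ v, b v ^ (E v)),
    ∀ u : Fin m → Fin n' → ℝ,
      Sk r j1 k c (fun h l => ∑ i, u h i * (((B h).mulVec (z h i) l : ℤ) : ℝ)) = 0

/-- A4: the numerical estimate -/
def EstOStmt (O : Type) [CommRing O] : Prop :=
  ∀ (n s : ℕ) (_ : 1 ≤ n) (c γ : ℝ) (_ : 1 ≤ c) (_ : 0 < γ) (b : Fin s → ℝ) (_ : ∀ v, 1 ≤ b v),
    ∃ τ0 : ℝ, 0 < τ0 ∧ ∀ τ : ℝ, 0 < τ → τ ≤ τ0 → ∀ C X : ℝ, 1 ≤ C → 1 ≤ X →
      ∃ Ns : ℝ, 1 ≤ Ns ∧ ∀ (m : ℕ) (_ : 0 < m) (r : Fin m → ℕ) (_ : ∀ h, 0 < r h)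
        (k : Fin m → ℕ) (_ : ∑ h, (k h : ℝ) / (r h : ℝ) < τ)
        (N : Fin m → ℝ) (_ : ∀ h, Ns ≤ N h) (R0 : ℝ) (_ : ∀ h, (1 - τ) * R0 ≤ r h * N h)
        (_ : ∀ h, r h * N h ≤ R0)
        (α : Fin n → ℝ) (ε : Fin s → ℝ) (_ : ∀ l, |α l| ≤ c)
        (_ : ∀ v, 0 ≤ ε v ∧ ε v ≤ c) (_ : ∑ l, α l + γ ≤ ∑ v, ε v)
        (A : Fin m → Fin n → ℝ) (_ : ∀ h l, 0 < A h l)
        (_ : ∀ h l, |Real.log (A h l) - α l * N h| ≤ τ * N h)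
        (kk : Fin m → Fin s → ℕ)
        (_ : ∀ h v, |(kk h v : ℝ) * Real.log (b v) - ε v * N h| ≤ τ * N h)
        (D0 : (Fin m → Fin n → ℕ) → ℤ) (_ : ∀ J ∈ Dset m n r, |(D0 J : ℝ)| ≤ C ^ (∑ h, r h))
        (_ : Bal r τ D0)
        (d : (Fin m → Fin n → ℕ) → O) (_ : BalO r τ d),
        ∃ E : Fin s → ℕ, LowExpO r k d kk E ∧ Big r k X D0 A < ∏ v, b v ^ (E v)

/-- A5: no sequence of hyperplanes of large height containing `n'` independent solutions -/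
def CoreOStmt (O : Type) [CommRing O] (φ : O →+* ℂ) : Prop :=
  ∀ (n' : ℕ) (_ : 1 ≤ n') (s : ℕ) (M0 M : Matrix (Fin (n' + 1)) (Fin (n' + 1)) O)
    (lam : Fin s → Fin (n' + 1) → O) (_ : DataO φ M0 M lam)
    (j1 j2 : Fin (n' + 1)) (_ : j1 ≠ j2) (c γ : ℝ) (_ : 1 ≤ c) (_ : 0 < γ)
    (N : ℕ → ℝ) (_ : Tendsto N atTop atTop) (_ : ∀ t, 0 < N t)
    (kk : ℕ → Fin s → ℕ) (B : ℕ → Matrix (Fin (n' + 1)) (Fin (n' + 1)) ℤ)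
    (_ : ∀ t, Lat M (bet lam (kk t)) (B t)) (A : ℕ → Fin (n' + 1) → ℝ)
    (_ : ∀ t, SizeO c γ (N t) (B t) (A t))
    (w : ℕ → Fin n' → Fin (n' + 1) → ℤ) (_ : ∀ t, LinearIndependent ℤ (w t))
    (_ : ∀ t i, SolO φ M0 (B t) (A t) (w t i))
    (x : ℕ → Fin (n' + 1) → ℤ) (_ : ∀ t i, ∑ l, x t l * w t i l = 0) (_ : ∀ t, x t j1 ≠ 0)
    (P Q : ℕ → ℤ) (_ : ∀ t, IsCoprime (P t) (Q t)) (_ : ∀ t, Q t ≠ 0)
    (_ : ∀ t, x t j1 * P t = -(x t j2 * Q t))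
    (_ : ∀ t, N t / c ≤ Real.log (max |(P t : ℝ)| |(Q t : ℝ)|)), False

/-- A7: hyperplanes of small height containing `n'` independent solutions are finite in number -/
def DichOStmt (O : Type) [CommRing O] (φ : O →+* ℂ) : Prop :=
  ∀ (n' : ℕ) (M0 M : Matrix (Fin (n' + 1)) (Fin (n' + 1)) O) (_ : M0.det ≠ 0) (_ : M.det ≠ 0)
    (γ : ℝ) (_ : 0 < γ),
    ∃ c0 : ℝ, 0 < c0 ∧ ∃ Y : Finset (Fin (n' + 1) → ℤ), (∀ y ∈ Y, y ≠ 0) ∧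
      ∃ N1 : ℝ, ∀ (c N : ℝ) (_ : N1 ≤ N) (β : Fin (n' + 1) → O)
        (B : Matrix (Fin (n' + 1)) (Fin (n' + 1)) ℤ) (_ : Lat M β B)
        (A : Fin (n' + 1) → ℝ) (_ : SizeO c γ N B A)
        (w : Fin n' → Fin (n' + 1) → ℤ) (_ : LinearIndependent ℤ w)
        (_ : ∀ i, SolO φ M0 B A (w i))
        (y : Fin (n' + 1) → ℤ) (_ : y ≠ 0) (_ : ∀ i, ∑ l, y l * w i l = 0)
        (_ : ∀ l, |(y l : ℝ)| ≤ Real.exp (c0 * N)),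
        ∃ y' ∈ Y, ∀ i, ∑ l, y' l * w i l = 0

/-- A8: the penultimate theorem, for the index set `Fin (n' + 1)` -/
def PenOStmt (O : Type) [CommRing O] (φ : O →+* ℂ) : Prop :=
  ∀ (n' : ℕ) (_ : 1 ≤ n') (s : ℕ) (M0 M : Matrix (Fin (n' + 1)) (Fin (n' + 1)) O)
    (lam : Fin s → Fin (n' + 1) → O) (_ : DataO φ M0 M lam)
    (c γ : ℝ) (_ : 1 ≤ c) (_ : 0 < γ) (N : ℕ → ℝ) (_ : Tendsto N atTop atTop)
    (kk : ℕ → Fin s → ℕ) (B : ℕ → Matrix (Fin (n' + 1)) (Fin (n' + 1)) ℤ)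
    (_ : ∀ t, Lat M (bet lam (kk t)) (B t)) (A : ℕ → Fin (n' + 1) → ℝ)
    (_ : ∀ t, SizeO c γ (N t) (B t) (A t))
    (w : ℕ → Fin n' → Fin (n' + 1) → ℤ) (_ : ∀ t, LinearIndependent ℤ (w t))
    (_ : ∀ t i, SolO φ M0 (B t) (A t) (w t i)),
    ∃ y : Fin (n' + 1) → ℤ, y ≠ 0 ∧ ∃ᶠ t in atTop, ∀ i, ∑ l, y l * w t i l = 0

/-- B6: from a solution to a hyperplane in a compound space -/
def RedOStmt (O : Type) [CommRing O] (φ : O →+* ℂ) : Prop :=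
  ∀ (n : ℕ) (_ : 2 ≤ n) (M0 : Matrix (Fin n) (Fin n) O) (_ : M0.det ≠ 0)
    (_ : ∀ i j, (φ (M0 i j)).im = 0) (c γ : ℝ) (_ : 1 ≤ c) (_ : 0 < γ),
    ∃ c' γ' N1 : ℝ, 1 ≤ c' ∧ 0 < γ' ∧ ∀ N : ℝ, N1 ≤ N → ∀ (B : Matrix (Fin n) (Fin n) ℤ)
      (_ : B.det ≠ 0) (A : Fin n → ℝ) (_ : SizeO c γ N B A) (x : Fin n → ℤ) (_ : x ≠ 0)
      (_ : SolO φ M0 B A x),
      ∃ (k : ℕ) (_ : 1 ≤ k) (_ : k < n) (A' : Ix n k → ℝ)
        (w : Fin (n.choose k - 1) → Ix n k → ℤ) (y : Ix n k → ℤ),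
        SizeO c' γ' N (cpd k B) A' ∧ LinearIndependent ℤ w ∧
        (∀ i, SolO φ (cpd k M0) (cpd k B) A' (w i)) ∧ y ≠ 0 ∧
        (∀ i, ∑ I, y I * w i I = 0) ∧
        ∀ V : Matrix (Fin n) (Fin k) ℤ, (∃ c0, ∀ l, V l c0 = x l) → ∑ I, y I * wedge V I = 0

/-- A9: the subspace theorem for the lattices `B_t ℤ^n` -/
def SubOStmt (O : Type) [CommRing O] (φ : O →+* ℂ) : Prop :=
  ∀ (n s : ℕ) (_ : 1 ≤ n) (M0 M : Matrix (Fin n) (Fin n) O) (lam : Fin s → Fin n → O)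
    (_ : DataO φ M0 M lam) (c γ : ℝ) (_ : 1 ≤ c) (_ : 0 < γ)
    (N : ℕ → ℝ) (_ : Tendsto N atTop atTop)
    (kk : ℕ → Fin s → ℕ) (B : ℕ → Matrix (Fin n) (Fin n) ℤ)
    (_ : ∀ t, Lat M (bet lam (kk t)) (B t)) (A : ℕ → Fin n → ℝ)
    (_ : ∀ t, SizeO c γ (N t) (B t) (A t))
    (x : ℕ → Fin n → ℤ) (_ : ∀ t, x t ≠ 0) (_ : ∀ t, SolO φ M0 (B t) (A t) (x t)),
    ∃ y : Fin n → ℤ, y ≠ 0 ∧ ∃ᶠ t in atTop, ∑ l, y l * x t l = 0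

end Pool.Agent.TH286.GT
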