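import Mathlib
import Pool.Agent.TH286.GT.Stms
import Pool.Agent.H393R2.Glue814

/-!
Project GT, A5 (job 2884): no sequence of hyperplanes of large height
(the proof of `Pool.Agent.TH461.SST.Core`, adapted).
-/

set_option autoImplicit false

open Finset Filter Topology

namespace Pool.Agent.TH286.GT.CoreO

open Pool.Agent.TH286.GT
open Pool.Agent.TH461.SST (Big Ix wedge cpd Bal HeightPairStmt CBStmt SFStmt GapStmt CompStmt)
open Pool.Agent.H393R2 (Dset Sk rothStmt reduce_pair span_perp exists_fast exists_degrees)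

section Prelim

variable {O : Type} [CommRing O] [IsDomain O] [Module.Free ℤ O] [Module.Finite ℤ O]

omit [Module.Free ℤ O] in
theorem phi_ne (φ : O →+* ℂ) {x : O} (hx : x ≠ 0) : φ x ≠ 0 := by
  have : Algebra.IsIntegral ℤ O := Algebra.IsIntegral.of_finite ℤ O
  intro h
  have h1 : RingHom.ker φ = ⊥ := by
    apply Ideal.eq_bot_of_comap_eq_bot (R := ℤ)
    rw [eq_bot_iff]
    intro z hz
    rw [Ideal.mem_comap, RingHom.mem_ker] at hz
    rw [Ideal.mem_bot]
    have h2 : φ (algebraMap ℤ O z) = (z : ℂ) := by simp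
    rw [h2] at hz
    exact_mod_cast hz
  have h2 : x ∈ RingHom.ker φ := h
  rw [h1, Ideal.mem_bot] at h2
  exact hx h2

omit [Module.Free ℤ O] [Module.Finite ℤ O] in
theorem prod_beta {ι : Type} [Fintype ι] [DecidableEq ι] {M : Matrix ι ι O} (hM : M.det ≠ 0)
    {β : ι → O} {B : Matrix ι ι ℤ} (hL : Lat M β B) : ∏ l, β l = ((B.det : ℤ) : O) := by
  have h1 := congrArg Matrix.det hL.2
  rw [Matrix.det_mul, Matrix.det_mul, Matrix.det_diagonal] at h1
  have h2 : (B.map (Int.castRingHom O)).det = ((B.det : ℤ) : O) := by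
    have h3 := RingHom.map_det (Int.castRingHom O) B
    rw [RingHom.mapMatrix_apply] at h3
    rw [← h3]
    rfl
  rw [h2, mul_comm] at h1
  exact (mul_right_cancel₀ hM h1).symm

omit [IsDomain O] in
theorem norm_cast_int (z : ℤ) :
    Algebra.norm ℤ ((z : ℤ) : O) = z ^ Module.finrank ℤ O := by
  have h := Algebra.norm_algebraMap_of_basis (Module.Free.chooseBasis ℤ O) z
  rw [← Module.finrank_eq_card_chooseBasisIndex] at h
  simpa using h

theorem finrank_ne : Module.finrank ℤ O ≠ 0 := by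
  have : 0 < Module.finrank ℤ O := Module.finrank_pos
  omega

theorem prod_b {ι : Type} [Fintype ι] [DecidableEq ι] {s : ℕ} {M : Matrix ι ι O} (hM : M.det ≠ 0)
    (lam : Fin s → ι → O) (kk : Fin s → ℕ) {B : Matrix ι ι ℤ} (hL : Lat M (bet lam kk) B)
    (b : Fin s → ℝ) (hb : ∀ v, 0 ≤ b v)
    (hbn : ∀ v, b v ^ Module.finrank ℤ O = |((Algebra.norm ℤ (∏ l, lam v l) : ℤ) : ℝ)|) :
    ∏ v, b v ^ kk v = |(B.det : ℝ)| := by
  have h1 := prod_beta hM hL
  have h2 := congrArg (fun x : O => |((Algebra.norm ℤ x : ℤ) : ℝ)|) h1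
  simp only [norm_cast_int] at h2
  have h3 : ∏ l, bet lam kk l = ∏ v, (∏ l, lam v l) ^ kk v := by
    simp only [bet]
    rw [Finset.prod_comm]
    exact Finset.prod_congr rfl fun v _ => by rw [Finset.prod_pow]
  rw [h3, map_prod] at h2
  simp only [map_pow] at h2
  rw [Int.cast_prod, Int.cast_pow] at h2
  simp only [Int.cast_pow] at h2
  rw [Finset.abs_prod] at h2
  simp only [abs_pow] at h2
  rw [← pow_left_inj₀ (n := Module.finrank ℤ O) (Finset.prod_nonneg fun v _ => pow_nonneg (hb v) _)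
    (abs_nonneg _) finrank_ne, ← h2, ← Finset.prod_pow]
  refine Finset.prod_congr rfl fun v _ => ?_
  rw [← hbn v, ← pow_mul, ← pow_mul, mul_comm]

/-- roots of the norms -/
theorem exists_b {ι : Type} [Fintype ι] {s : ℕ} (lam : Fin s → ι → O) (hl : ∀ v l, lam v l ≠ 0) :
    ∃ b : Fin s → ℝ, (∀ v, 1 ≤ b v) ∧
      ∀ v, b v ^ Module.finrank ℤ O = |((Algebra.norm ℤ (∏ l, lam v l) : ℤ) : ℝ)| := by
  have h1 : ∀ v, (1 : ℝ) ≤ |((Algebra.norm ℤ (∏ l, lam v l) : ℤ) : ℝ)| := by
    intro v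
    have h2 : Algebra.norm ℤ (∏ l, lam v l) ≠ 0 :=
      Algebra.norm_ne_zero_iff.2 (Finset.prod_ne_zero_iff.2 fun l _ => hl v l)
    have h3 := Int.one_le_abs h2
    have h4 : ((1 : ℤ) : ℝ) ≤ ((|Algebra.norm ℤ (∏ l, lam v l)| : ℤ) : ℝ) := by exact_mod_cast h3
    rw [Int.cast_abs, Int.cast_one] at h4
    exact h4
  refine ⟨fun v => |((Algebra.norm ℤ (∏ l, lam v l) : ℤ) : ℝ)| ^
    ((Module.finrank ℤ O : ℝ)⁻¹), fun v => ?_, fun v => ?_⟩
  · exact Real.one_le_rpow (h1 v) (by positivity)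
  · exact Real.rpow_inv_natCast_pow (abs_nonneg _) finrank_ne

end Prelim

theorem coreO (O : Type) [CommRing O] [IsDomain O] [Module.Free ℤ O] [Module.Finite ℤ O] (φ : O →+* ℂ)
    (haux : AuxOStmt O φ) (hvan : VanishOStmt O φ) (hest : EstOStmt O) : CoreOStmt O φ := by
  intro n' hn s M0 M lam hD j1 j2 hj12 c γ hc hγ N hN hN0 kk B hLat A hS w hw hsol x horth hx1
    p q hpq hq0 hrat hht
  obtain ⟨hM0, -, hM, hlam⟩ := hD
  obtain ⟨b, hb, hbn⟩ := exists_b lam hlam
  have hb0 : ∀ v, 0 ≤ b v := fun v => zero_le_one.trans (hb v)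
  have hc0 : (0 : ℝ) < c := by linarith
  have hlogb : ∀ v, 0 ≤ Real.log (b v) := fun v => Real.log_nonneg (hb v)
  have hlogdet : ∀ t, ∑ v, (kk t v : ℝ) * Real.log (b v) = Real.log |((B t).det : ℝ)| := by
    intro t
    rw [← prod_b hM lam (kk t) (hLat t) b hb0 hbn, Real.log_prod
      (fun v _ => pow_ne_zero _ (by linarith [hb v] : (0 : ℝ) < b v).ne')]
    exact Finset.sum_congr rfl fun v _ => (Real.log_pow _ _).symm
  have he : ∀ t v, (kk t v : ℝ) * Real.log (b v) ≤ c * N t := by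
    intro t v
    refine le_trans ?_ (hS t).1
    rw [← hlogdet t]
    exact Finset.single_le_sum (f := fun v => (kk t v : ℝ) * Real.log (b v))
      (fun v _ => mul_nonneg (Nat.cast_nonneg _) (hlogb v)) (Finset.mem_univ v)
  have hApos : ∀ t l, 0 < A t l := fun t => (hS t).2.1
  have hA : ∀ t l, |Real.log (A t l)| ≤ c * N t := fun t => (hS t).2.2.1
  have hprod : ∀ t, ∑ l, Real.log (A t l) + γ * N t ≤
      ∑ v, (kk t v : ℝ) * Real.log (b v) := fun t => by
    rw [hlogdet t]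
    exact (hS t).2.2.2
  -- compactness
  obtain ⟨⟨α, ε⟩, hmem, σ, hσ, hlim⟩ : ∃ a ∈ (Set.pi Set.univ (fun _ : Fin (n' + 1) =>
      Set.Icc (-c) c)) ×ˢ (Set.pi Set.univ (fun _ : Fin s => Set.Icc (0 : ℝ) c)),
      ∃ σ : ℕ → ℕ, StrictMono σ ∧
        Filter.Tendsto ((fun t => ((fun l => Real.log (A t l) / N t), (fun v =>
          (kk t v : ℝ) * Real.log (b v) / N t)) :
          ℕ → (Fin (n' + 1) → ℝ) × (Fin s → ℝ)) ∘ σ) Filter.atTop (nhds a) := by
    apply IsCompact.tendsto_subseq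
    · apply IsCompact.prod
      · exact isCompact_univ_pi (fun _ => isCompact_Icc)
      · exact isCompact_univ_pi (fun _ => isCompact_Icc)
    · intro t
      refine ⟨?_, ?_⟩
      · intro l _
        have h1 := abs_le.mp (hA t l)
        simp only [Set.mem_Icc]
        constructor
        · rw [le_div_iff₀ (hN0 t)]; linarith [h1.1]
        · rw [div_le_iff₀ (hN0 t)]; linarith [h1.2]
      · intro v _
        simp only [Set.mem_Icc]
        constructor
        · have := hN0 t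
          have := hlogb v
          positivity
        · rw [div_le_iff₀ (hN0 t)]; exact he t v
  have hα : ∀ l, |α l| ≤ c := by
    intro l
    have := hmem.1 l (Set.mem_univ _)
    simp only [Set.mem_Icc] at this
    exact abs_le.mpr this
  have hε : ∀ v, 0 ≤ ε v ∧ ε v ≤ c := by
    intro v
    have := hmem.2 v (Set.mem_univ _)
    simpa only [Set.mem_Icc] using this
  have hlim1 : ∀ l, Filter.Tendsto (fun t => Real.log (A (σ t) l) / N (σ t)) Filter.atTop
      (nhds (α l)) := by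
    intro l
    have h1 := (continuous_fst.tendsto _).comp hlim
    exact (continuous_apply l).continuousAt.tendsto.comp h1
  have hlim2 : ∀ v, Filter.Tendsto (fun t => (kk (σ t) v : ℝ) * Real.log (b v) / N (σ t))
      Filter.atTop (nhds (ε v)) := by
    intro v
    have h1 := (continuous_snd.tendsto _).comp hlim
    exact (continuous_apply v).continuousAt.tendsto.comp h1
  have hγα : ∑ l, α l + γ ≤ ∑ v, ε v := by
    have h1 : Filter.Tendsto (fun t => ∑ l, Real.log (A (σ t) l) / N (σ t) + γ) Filter.atTop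
      (nhds (∑ l, α l + γ)) := (tendsto_finsetSum _ (fun l _ => hlim1 l)).add_const γ
    have h2 : Filter.Tendsto (fun t => ∑ v, (kk (σ t) v : ℝ) * Real.log (b v) / N (σ t))
      Filter.atTop (nhds (∑ v, ε v)) := tendsto_finsetSum _ (fun v _ => hlim2 v)
    refine le_of_tendsto_of_tendsto' h1 h2 fun t => ?_
    have h3 := hprod (σ t)
    have h4 := hN0 (σ t)
    have e1 : ∑ l, Real.log (A (σ t) l) / N (σ t) + γ =
        (∑ l, Real.log (A (σ t) l) + γ * N (σ t)) / N (σ t) := by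
      rw [← Finset.sum_div, add_div, mul_div_assoc, div_self h4.ne', mul_one]
    have e2 : ∑ v, (kk (σ t) v : ℝ) * Real.log (b v) / N (σ t) =
        (∑ v, (kk (σ t) v : ℝ) * Real.log (b v)) / N (σ t) := by
      rw [Finset.sum_div]
    rw [e1, e2]
    exact div_le_div_of_nonneg_right h3 h4.le
  -- choice of τ
  obtain ⟨τ0, hτ00, hest1⟩ := hest (n' + 1) s (by omega) c γ hc hγ b hb
  obtain ⟨τ, hτdef⟩ : ∃ τ, τ = min τ0 (1 / 2) := ⟨_, rfl⟩
  have hτ0 : 0 < τ := by rw [hτdef]; exact lt_min hτ00 (by norm_num)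
  have hτ12 : τ ≤ 1 / 2 := by rw [hτdef]; exact min_le_right _ _
  have hττ : τ ≤ τ0 := by rw [hτdef]; exact min_le_left _ _
  obtain ⟨C1, hC1, m0, haux1⟩ := haux (n' + 1) (by omega) 2 ![M0.adjugate, M.adjugate] τ hτ0
  obtain ⟨C, hCdef⟩ : ∃ C, C = C1 + 1 := ⟨_, rfl⟩
  have hC : 1 ≤ C := by rw [hCdef]; linarith
  obtain ⟨m, hmdef⟩ : ∃ m, m = max m0 1 := ⟨_, rfl⟩
  have hm : 0 < m := by rw [hmdef]; exact lt_of_lt_of_le one_pos (le_max_right _ _)
  have hm0 : m0 ≤ m := by rw [hmdef]; exact le_max_left _ _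
  obtain ⟨ω, hω, hroth⟩ := rothStmt m τ hτ0
  -- eventually close
  have hev : ∀ᶠ t in Filter.atTop, (∀ l, |Real.log (A (σ t) l) / N (σ t) - α l| ≤ τ) ∧
      ∀ v, |(kk (σ t) v : ℝ) * Real.log (b v) / N (σ t) - ε v| ≤ τ := by
    refine Filter.Eventually.and ?_ ?_
    · rw [Filter.eventually_all]
      intro l
      filter_upwards [(Metric.tendsto_nhds.mp (hlim1 l)) τ hτ0] with t h3
      rw [Real.dist_eq] at h3
      exact h3.le
    · rw [Filter.eventually_all]
      intro v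
      filter_upwards [(Metric.tendsto_nhds.mp (hlim2 v)) τ hτ0] with t h3
      rw [Real.dist_eq] at h3
      exact h3.le
  obtain ⟨T0, hT0⟩ := Filter.eventually_atTop.mp hev
  have hφM0 : 0 < ‖φ M0.det‖ := norm_pos_iff.2 (phi_ne φ hM0)
  obtain ⟨X, hX⟩ : ∃ X : ℝ, X = 1 + |((Algebra.norm ℤ M.det : ℤ) : ℝ)| / ‖φ M0.det‖ +
      ∑ l, ‖φ (M0 l j1)‖ + n' := ⟨_, rfl⟩
  have hXp : (0 : ℝ) ≤ |((Algebra.norm ℤ M.det : ℤ) : ℝ)| / ‖φ M0.det‖ := by positivity
  have hXs : (0 : ℝ) ≤ ∑ l, ‖φ (M0 l j1)‖ := Finset.sum_nonneg fun l _ => norm_nonneg _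
  have hXn : (0 : ℝ) ≤ (n' : ℝ) := Nat.cast_nonneg _
  have hX1 : 1 ≤ X := by rw [hX]; linarith
  obtain ⟨Ns1, hNs11, hest2⟩ := hest1 τ hτ0 hττ C X hC hX1
  obtain ⟨Ns, hNs⟩ : ∃ Ns, Ns = max Ns1 (max (2 * c / ω) (Real.log C * m * (2 * c) / ω)) :=
    ⟨_, rfl⟩
  have hNs1 : Ns1 ≤ Ns := by rw [hNs]; exact le_max_left _ _
  have hNs0 : 0 < Ns := by linarith
  have hNs3 : 2 * c / ω ≤ Ns := by
    rw [hNs]; exact le_trans (le_max_left _ _) (le_max_right _ _)
  have hNs4 : Real.log C * m * (2 * c) / ω ≤ Ns := by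
    rw [hNs]; exact le_trans (le_max_right _ _) (le_max_right _ _)
  obtain ⟨f, hf1, hf2, hf3⟩ := exists_fast (fun t => N (σ t)) (fun t => hN0 _)
    (hN.comp hσ.tendsto_atTop) T0 Ns (max 1 (2 / ω)) (le_max_left _ _)
  set tt : Fin m → ℕ := fun h => σ (f h) with htt
  have hNh0 : ∀ h, 0 < N (tt h) := fun h => hN0 _
  obtain ⟨R0, r, hR0, hr, hrN1, hrN2⟩ := exists_degrees hm (fun h => N (tt h)) hNh0 τ hτ0 hτ12
  obtain ⟨cf, hcf0, hcfC1, hcfd⟩ := haux1 m hm0 r hr
  have hsr : ∑ h, r h ≠ 0 := by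
    have h1 : r ⟨0, hm⟩ ≤ ∑ h, r h :=
      Finset.single_le_sum (f := r) (fun _ _ => Nat.zero_le _) (Finset.mem_univ _)
    have h2 := hr ⟨0, hm⟩
    omega
  have hCC : C1 ^ (∑ h, r h) + 1 ≤ C ^ (∑ h, r h) := by
    have h1 := pow_add_pow_le (by linarith : 0 ≤ C1) zero_le_one hsr
    rw [one_pow] at h1
    rw [hCdef]
    exact h1
  have hcfC : ∀ a ∈ Dset m (n' + 1) r, |(cf a : ℝ)| ≤ C ^ (∑ h, r h) := fun a ha =>
    (hcfC1 a ha).trans (by linarith)
  obtain ⟨d0, hd0C, hd0b, hd0s⟩ := hcfd 0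
  obtain ⟨d, hdC, hdb, hds⟩ := hcfd 1
  have hd0s' : SubIdO r cf M0.adjugate d0 := hd0s
  have hds' : SubIdO r cf M.adjugate d := hds
  obtain ⟨D0, hD0⟩ : ∃ D0 : (Fin m → Fin (n' + 1) → ℕ) → ℤ, ∀ J, D0 J = ⌈‖φ (d0 J)‖⌉ :=
    ⟨_, fun _ => rfl⟩
  have hD0ge : ∀ J, ‖φ (d0 J)‖ ≤ |(D0 J : ℝ)| := fun J => by
    rw [hD0]
    exact (Int.le_ceil _).trans (le_abs_self _)
  have hD0C : ∀ J ∈ Dset m (n' + 1) r, |(D0 J : ℝ)| ≤ C ^ (∑ h, r h) := by
    intro J hJ
    have h1 : (0 : ℝ) ≤ (⌈‖φ (d0 J)‖⌉ : ℝ) := (norm_nonneg _).trans (Int.le_ceil _)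
    rw [hD0, abs_of_nonneg h1]
    have h2 := Int.ceil_lt_add_one ‖φ (d0 J)‖
    have h3 := hd0C J hJ
    linarith
  have hD0b : Pool.Agent.TH461.SST.Bal r τ D0 := by
    intro J hJ hne
    apply hd0b J hJ
    intro h0
    apply hne
    rw [hD0, h0, map_zero, norm_zero, Int.ceil_zero]
  have hNmin : ∀ h, Ns ≤ N (tt h) := fun h => hf2 _
  have hrle : ∀ h, (r h : ℝ) ≤ R0 / N (tt h) := by
    intro h; rw [le_div_iff₀ (hNh0 h)]; exact hrN2 h
  -- the solutions are columns of the lattice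
  have hz : ∀ h i, ∃ z : Fin (n' + 1) → ℤ, w (tt h) i = (B (tt h)).mulVec z := fun h i =>
    (hsol (tt h) i).2
  choose z hz using hz
  -- reduce_pair input
  have hvan' : ∀ k ∈ {k : Fin m → ℕ | ∑ h, (k h : ℝ) / (r h : ℝ) < τ},
      ∀ W : Fin m → Fin (n' + 1) → ℝ,
        (∀ h, ∑ l, (x (tt h) l : ℝ) * W h l = 0) → Sk r j1 k cf W = 0 := by
    intro k hk W hW
    obtain ⟨E, hE1, hE2⟩ := hest2 m hm r hr k hk (fun h => N (tt h))
      (fun h => hNs1.trans (hNmin h)) R0 hrN1 hrN2 α ε hα hε hγα (fun h l => A (tt h) l)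
      (fun h l => hApos _ _)
      (by
        intro h l
        have h1 := (hT0 (f h) (hf1 h)).1 l
        have h2 := hNh0 h
        have h3 : Real.log (A (tt h) l) - α l * N (tt h) =
            (Real.log (A (tt h) l) / N (tt h) - α l) * N (tt h) := by
          field_simp
        show |Real.log (A (tt h) l) - α l * N (tt h)| ≤ τ * N (tt h)
        rw [h3, abs_mul, abs_of_pos h2]
        exact mul_le_mul_of_nonneg_right h1 h2.le)
      (fun h v => kk (tt h) v)
      (by
        intro h v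
        have h1 := (hT0 (f h) (hf1 h)).2 v
        have h2 := hNh0 h
        have h3 : (kk (tt h) v : ℝ) * Real.log (b v) - ε v * N (tt h) =
            ((kk (tt h) v : ℝ) * Real.log (b v) / N (tt h) - ε v) * N (tt h) := by
          field_simp
        show |(kk (tt h) v : ℝ) * Real.log (b v) - ε v * N (tt h)| ≤ τ * N (tt h)
        rw [h3, abs_mul, abs_of_pos h2]
        exact mul_le_mul_of_nonneg_right h1 h2.le)
      D0 hD0C hD0b d hdb
    have hSV := hvan m (n' + 1) s n' r j1 k cf M0 hM0 M hM lam d0 hd0s' d hds'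
      (fun h v => kk (tt h) v) (fun h => B (tt h)) (fun h => hLat (tt h)) z E hE1 b hb0 hbn
      X hX1
      (by
        rw [← div_le_iff₀ hφM0, hX]
        linarith)
      (by
        intro l
        have h1 : ‖φ (M0 l j1)‖ ≤ ∑ l, ‖φ (M0 l j1)‖ :=
          Finset.single_le_sum (f := fun l => ‖φ (M0 l j1)‖) (fun i _ => norm_nonneg _)
            (Finset.mem_univ l)
        rw [hX]; linarith)
      D0 (fun J _ => hD0ge J)
      (fun h l => A (tt h) l)
      (by
        intro h l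
        calc ∑ i, ‖φ (∑ j, M0 l j * (((B (tt h)).mulVec (z h i) j : ℤ) : O))‖
            ≤ ∑ _i : Fin n', A (tt h) l :=
              Finset.sum_le_sum fun i _ => by
                rw [← hz h i]
                exact (hsol (tt h) i).1 l
          _ = (n' : ℝ) * A (tt h) l := by
              rw [Finset.sum_const, Finset.card_univ, Fintype.card_fin, nsmul_eq_mul]
          _ ≤ X * A (tt h) l := by
              apply mul_le_mul_of_nonneg_right _ (hApos _ _).le
              rw [hX]; linarith) hE2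
    -- span
    have hsp : ∀ h, ∃ u : Fin n' → ℝ, ∀ l, W h l = ∑ i, u i * (w (tt h) i l : ℝ) := by
      intro h
      apply span_perp n' (x (tt h)) _ (w (tt h)) (hw _) (horth _) _ (hW h)
      intro h0
      apply hx1 (tt h)
      rw [h0]; rfl
    choose u hu using hsp
    rw [← hSV u]
    congr 1
    funext h l
    rw [hu h l]
    exact Finset.sum_congr rfl fun i _ => by rw [hz h i]
  obtain ⟨c', hc'0, hc'H, hc'v⟩ := reduce_pair r j1 j2 hj12
    {k : Fin m → ℕ | ∑ h, (k h : ℝ) / (r h : ℝ) < τ} cf (C ^ (∑ h, r h)) (by positivity) hcf0 hcfC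
    (fun h l => (x (tt h) l : ℝ))
    (by
      intro h
      exact_mod_cast hx1 _) hvan'
  have hτ1 : (1 - τ) ≥ 1 / 2 := by linarith
  obtain ⟨k, hk1, hk2⟩ := hroth r (R0 / (2 * c)) hm hr
    (by
      intro i j hij
      have h1 := hrle j
      have h2 := hrN1 i
      have h3 := hf3 i j (by exact_mod_cast hij)
      have h4 : (2 / ω) * N (tt i) ≤ N (tt j) := by
        refine le_trans ?_ h3
        exact mul_le_mul_of_nonneg_right (le_max_right _ _) (hNh0 i).le
      have h5 : R0 / N (tt j) ≤ R0 / ((2 / ω) * N (tt i)) := by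
        apply div_le_div_of_nonneg_left hR0.le _ h4
        have := hNh0 i; positivity
      have h6 : R0 / ((2 / ω) * N (tt i)) = ω * ((1/2) * R0 / N (tt i)) := by
        have := (hNh0 i).ne'
        field_simp
      have h7 : (1/2) * R0 / N (tt i) ≤ r i := by
        rw [div_le_iff₀ (hNh0 i)]
        refine le_trans ?_ h2
        exact mul_le_mul_of_nonneg_right hτ1 hR0.le
      calc (r j : ℝ) ≤ R0 / N (tt j) := h1
        _ ≤ ω * ((1/2) * R0 / N (tt i)) := by rw [← h6]; exact h5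
        _ ≤ ω * r i := mul_le_mul_of_nonneg_left h7 hω.le)
    (by
      intro h
      refine le_trans (hrle h) ?_
      rw [div_le_iff₀ (hNh0 h)]
      have h1 : 2 * c / ω ≤ N (tt h) := le_trans hNs3 (hNmin h)
      rw [div_le_iff₀ hω] at h1
      have h2 : ω * (R0 / (2 * c)) * N (tt h) = R0 * (N (tt h) * ω) / (2 * c) := by
        field_simp
      rw [h2, le_div_iff₀ (by positivity)]
      exact mul_le_mul_of_nonneg_left h1 hR0.le)
    (fun h => p (tt h)) (fun h => q (tt h)) (fun h => hpq _) (fun h => hq0 _)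
    (by
      intro h
      have h1 := hht (tt h)
      have h2 : R0 / (2 * c) ≤ r h * (N (tt h) / c) := by
        rw [← mul_div_assoc, div_le_div_iff₀ (by positivity) hc0]
        have h3 : R0 / 2 ≤ r h * N (tt h) := by
          refine le_trans ?_ (hrN1 h)
          nlinarith
        nlinarith
      refine le_trans h2 ?_
      exact mul_le_mul_of_nonneg_left h1 (by positivity))
    c' hc'0
    (by
      intro a ha
      refine le_trans (hc'H a ha) ?_
      have hCpos : 0 < C := by linarith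
      have h1 : C ^ (∑ h, r h) = Real.exp (Real.log C * ((∑ h, r h : ℕ) : ℝ)) := by
        rw [← Real.rpow_natCast, Real.rpow_def_of_pos hCpos]
      rw [h1, Real.exp_le_exp]
      have h2 : ((∑ h, r h : ℕ) : ℝ) ≤ m * (R0 / Ns) := by
        push_cast
        calc ∑ h, (r h : ℝ) ≤ ∑ _h : Fin m, R0 / Ns := by
              apply Finset.sum_le_sum
              intro h _
              refine le_trans (hrle h) ?_
              exact div_le_div_of_nonneg_left hR0.le hNs0 (hNmin h)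
          _ = m * (R0 / Ns) := by
              rw [Finset.sum_const, Finset.card_univ, Fintype.card_fin, nsmul_eq_mul]
      have h3 : 0 ≤ Real.log C := Real.log_nonneg hC
      refine le_trans (mul_le_mul_of_nonneg_left h2 h3) ?_
      rw [div_le_iff₀ hω] at hNs4
      have h4 : Real.log C * (↑m * (R0 / Ns)) = (Real.log C * m * (2 * c)) * R0 / (Ns * (2 * c)) := by
        field_simp
      rw [h4, div_le_iff₀ (by positivity)]
      have h5 : ω * (R0 / (2 * c)) * (Ns * (2 * c)) = Ns * ω * R0 := by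
        field_simp
      rw [h5]
      exact mul_le_mul_of_nonneg_right hNs4 hR0.le)
  apply hk2
  have h1 := hc'v k hk1
  rw [← h1]
  apply Finset.sum_congr rfl
  intro a _
  congr 1
  apply Finset.prod_congr rfl
  intro h _
  congr 2
  have hq : (q (tt h) : ℝ) ≠ 0 := by exact_mod_cast hq0 _
  have hx : (x (tt h) j1 : ℝ) ≠ 0 := by exact_mod_cast hx1 _
  have h3 : (x (tt h) j1 : ℝ) * (p (tt h) : ℝ) = -((x (tt h) j2 : ℝ) * (q (tt h) : ℝ)) := by
    exact_mod_cast hrat (tt h)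
  show (p (tt h) : ℝ) / (q (tt h) : ℝ) = -((x (tt h) j2 : ℝ)) / (x (tt h) j1 : ℝ)
  rw [div_eq_div_iff hq hx]
  linarith


end Pool.Agent.TH286.GT.CoreO
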