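import Mathlib
import Pool.Agent.TH286.GT.Stms
import Pool.Agent.TH461.SST.Dich

/-!
Project GT, A7: the hyperplanes of small height which contain `n'` independent solutions are
finite in number.
-/

set_option autoImplicit false

open Finset Filter Topology

namespace Pool.Agent.TH286.GT.DichO

open Pool.Agent.TH286.GT
open Pool.Agent.TH461.SST (Big Ix wedge cpd Bal HeightPairStmt CBStmt SFStmt GapStmt CompStmt)
open Pool.Agent.TH461.SST.Dich (exists_prim Dl)

/-! ### Minors over a commutative ring -/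

section ring

variable {R : Type} [CommRing R]

/-- the signed maximal minors of `n'` vectors with `n' + 1` coordinates -/
def DR {n' : ℕ} (w : Fin n' → Fin (n' + 1) → R) (j : Fin (n' + 1)) : R :=
  (-1) ^ (j : ℕ) * (Matrix.of (fun i k => w i (j.succAbove k)) : Matrix (Fin n') (Fin n') R).det

/-- the matrix with the rows `u`, `w` -/
def MR {n' : ℕ} (u : Fin (n' + 1) → R) (w : Fin n' → Fin (n' + 1) → R) :
    Matrix (Fin (n' + 1)) (Fin (n' + 1)) R :=
  Matrix.of (Fin.cons u w : Fin (n' + 1) → Fin (n' + 1) → R)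

theorem det_MR {n' : ℕ} (u : Fin (n' + 1) → R) (w : Fin n' → Fin (n' + 1) → R) :
    (MR u w).det = ∑ j, u j * DR w j := by
  rw [Matrix.det_succ_row_zero]
  refine Finset.sum_congr rfl fun j _ => ?_
  have h1 : (MR u w) 0 j = u j := rfl
  have h2 : (MR u w).submatrix Fin.succ j.succAbove =
      Matrix.of (fun i k => w i (j.succAbove k)) := by
    ext i k
    rfl
  rw [h1, h2]
  unfold DR
  ring

theorem MR_mul {n' : ℕ} (M : Matrix (Fin (n' + 1)) (Fin (n' + 1)) R) (u : Fin (n' + 1) → R)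
    (w : Fin n' → Fin (n' + 1) → R) :
    MR (M.mulVec u) (fun i => M.mulVec (w i)) = MR u w * M.transpose := by
  ext a b
  rw [Matrix.mul_apply]
  refine Fin.cases ?_ (fun i => ?_) a
  · change (M.mulVec u) b = ∑ k, u k * M b k
    unfold Matrix.mulVec dotProduct
    exact Finset.sum_congr rfl fun k _ => mul_comm _ _
  · change (M.mulVec (w i)) b = ∑ k, w i k * M b k
    unfold Matrix.mulVec dotProduct
    exact Finset.sum_congr rfl fun k _ => mul_comm _ _

theorem DR_mul [IsDomain R] {n' : ℕ} (M : Matrix (Fin (n' + 1)) (Fin (n' + 1)) R)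
    (hM : M.det ≠ 0) (w : Fin n' → Fin (n' + 1) → R) (l : Fin (n' + 1)) :
    DR (fun i => M.mulVec (w i)) l = ∑ k, DR w k * M.adjugate k l := by
  have h := congrArg Matrix.det (MR_mul M (fun k => M.adjugate k l) w)
  rw [Matrix.det_mul, Matrix.det_transpose, det_MR, det_MR] at h
  have h1 : ∀ j, M.mulVec (fun k => M.adjugate k l) j = if j = l then M.det else 0 := by
    intro j
    have h2 : M.mulVec (fun k => M.adjugate k l) j = (M * M.adjugate) j l := rfl
    rw [h2, Matrix.mul_adjugate, Matrix.smul_apply, Matrix.one_apply]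
    split_ifs <;> simp
  simp only [h1, ite_mul, zero_mul, Finset.sum_ite_eq', Finset.mem_univ, if_true] at h
  apply mul_left_cancel₀ hM
  rw [h, mul_comm]
  congr 1
  exact Finset.sum_congr rfl fun k _ => mul_comm _ _

theorem dot_adj {n : ℕ} (M : Matrix (Fin n) (Fin n) R) (y x : Fin n → R) :
    M.det * ∑ l, y l * x l =
      ∑ l, (∑ k, y k * M.adjugate k l) * (∑ j, M l j * x j) := by
  have h1 : ∀ k, ∑ l, M.adjugate k l * (∑ j, M l j * x j) = M.det * x k := by
    intro k
    have h2 : ∑ l, M.adjugate k l * (∑ j, M l j * x j) =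
        (M.adjugate.mulVec (M.mulVec x)) k := rfl
    rw [h2, Matrix.mulVec_mulVec, Matrix.adjugate_mul, Matrix.smul_mulVec, Matrix.one_mulVec]
    rfl
  calc M.det * ∑ l, y l * x l = ∑ k, y k * (M.det * x k) := by
        rw [Finset.mul_sum]
        exact Finset.sum_congr rfl fun k _ => by ring
    _ = ∑ k, y k * ∑ l, M.adjugate k l * (∑ j, M l j * x j) :=
        Finset.sum_congr rfl fun k _ => by rw [h1]
    _ = ∑ k, ∑ l, y k * M.adjugate k l * (∑ j, M l j * x j) :=
        Finset.sum_congr rfl fun k _ => by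
          rw [Finset.mul_sum]
          exact Finset.sum_congr rfl fun l _ => by ring
    _ = _ := by
        rw [Finset.sum_comm]
        exact Finset.sum_congr rfl fun l _ => by rw [Finset.sum_mul]

/-- the integer vector `x` in the ring `R` -/
def cs (R : Type) [CommRing R] {ι : Type} (x : ι → ℤ) (j : ι) : R := ((x j : ℤ) : R)

theorem DR_cast {n' : ℕ} (w : Fin n' → Fin (n' + 1) → ℤ) (j : Fin (n' + 1)) :
    DR (fun i => cs R (w i)) j = ((Dl w j : ℤ) : R) := by
  unfold DR Dl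
  rw [Int.cast_mul, Int.cast_det]
  push_cast
  rfl

/-- divisibility of a determinant by divisors of its columns -/
theorem prod_dvd_det {n : ℕ} (T : Matrix (Fin n) (Fin n) R) (d : Fin n → R)
    (h : ∀ i k, d k ∣ T i k) : ∏ k, d k ∣ T.det := by
  choose T' hT' using h
  have h1 : T = Matrix.of fun i j => d j * T' i j := by
    ext i j
    exact hT' i j
  rw [h1]
  exact ⟨_, Matrix.det_mul_row d (Matrix.of T')⟩

/-- the vector `adj(M)ᵀ y` -/
def cvR {n : ℕ} (M : Matrix (Fin n) (Fin n) R) (y : Fin n → ℤ) (l : Fin n) : R :=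
  ∑ k, ((y k : ℤ) : R) * M.adjugate k l

end ring

/-- Leibniz bound with bounds for the columns -/
theorem norm_det_le {n : ℕ} (T : Matrix (Fin n) (Fin n) ℂ) (a : Fin n → ℝ)
    (h : ∀ i k, ‖T i k‖ ≤ a k) : ‖T.det‖ ≤ (n.factorial : ℝ) * ∏ k, a k := by
  rw [Matrix.det_apply]
  refine (norm_sum_le _ _).trans ?_
  have h1 : ∀ σ ∈ (Finset.univ : Finset (Equiv.Perm (Fin n))),
      ‖Equiv.Perm.sign σ • ∏ i, T (σ i) i‖ ≤ ∏ k, a k := by
    intro σ _
    have h2 : ‖Equiv.Perm.sign σ • ∏ i, T (σ i) i‖ = ∏ i, ‖T (σ i) i‖ := by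
      rcases Int.units_eq_one_or (Equiv.Perm.sign σ) with hs | hs <;> simp [hs, norm_prod]
    rw [h2]
    exact Finset.prod_le_prod (fun i _ => norm_nonneg _) fun i _ => h _ _
  refine (Finset.sum_le_sum h1).trans (le_of_eq ?_)
  rw [Finset.sum_const, Finset.card_univ, Fintype.card_perm, Fintype.card_fin, nsmul_eq_mul]

/-! ### Sizes -/

section size

variable {O : Type} [CommRing O] {φ : O →+* ℂ} {h : O → ℝ} {C : ℝ} {d : ℕ}

theorem h_zero (H : HtData O φ h C d) : h 0 ≤ 0 := by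
  obtain ⟨-, -, -, -, -, h5, -⟩ := H
  have := h5 0
  simpa using this

theorem h_sum (H : HtData O φ h C d) {ι : Type} (s : Finset ι) (f : ι → O) :
    h (∑ i ∈ s, f i) ≤ ∑ i ∈ s, h (f i) := by
  classical
  induction s using Finset.induction_on with
  | empty => simpa using h_zero H
  | insert a s ha ih =>
    rw [Finset.sum_insert ha, Finset.sum_insert ha]
    obtain ⟨-, -, -, h3, -⟩ := H
    exact (h3 _ _).trans (by linarith)

/-- the constant for `T` -/
noncomputable def cT {n : ℕ} (h : O → ℝ) (C : ℝ) (T : Matrix (Fin n) (Fin n) O) : ℝ :=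
  C * ∑ l, ∑ k, h (T.adjugate k l)

theorem cT_nonneg (H : HtData O φ h C d) {n : ℕ} (T : Matrix (Fin n) (Fin n) O) :
    0 ≤ cT h C T := by
  obtain ⟨h1, -, h2, -⟩ := H
  unfold cT
  exact mul_nonneg (by linarith) (Finset.sum_nonneg fun _ _ => Finset.sum_nonneg fun _ _ => h2 _)

theorem h_cv (H : HtData O φ h C d) {n : ℕ} (T : Matrix (Fin n) (Fin n) O) (y : Fin n → ℤ)
    (X : ℝ) (hy : ∀ k, |(y k : ℝ)| ≤ X) (l : Fin n) : h (cvR T y l) ≤ cT h C T * X := by
  have H' := H
  obtain ⟨hC, -, h2, -, h4, h5, -⟩ := H'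
  have hX : 0 ≤ X ∨ n = 0 := by
    rcases Nat.eq_zero_or_pos n with h0 | h0
    · exact Or.inr h0
    · exact Or.inl ((abs_nonneg _).trans (hy ⟨0, h0⟩))
  rcases hX with hX | hX
  swap
  · subst hX
    exact l.elim0
  unfold cvR cT
  refine (h_sum H _ _).trans ?_
  have h6 : ∀ k ∈ (Finset.univ : Finset (Fin n)), h (((y k : ℤ) : O) * T.adjugate k l) ≤
      h (T.adjugate k l) * (C * X) := by
    intro k _
    refine (h4 _ _).trans ?_
    rw [mul_comm]
    refine mul_le_mul_of_nonneg_left ?_ (h2 _)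
    exact (h5 _).trans (mul_le_mul_of_nonneg_left (hy k) (by linarith))
  refine (Finset.sum_le_sum h6).trans ?_
  rw [← Finset.sum_mul]
  have h7 : ∑ k, h (T.adjugate k l) ≤ ∑ l, ∑ k, h (T.adjugate k l) :=
    Finset.single_le_sum (f := fun l => ∑ k, h (T.adjugate k l))
      (fun l _ => Finset.sum_nonneg fun k _ => h2 _) (Finset.mem_univ l)
  calc (∑ k, h (T.adjugate k l)) * (C * X) ≤ (∑ l, ∑ k, h (T.adjugate k l)) * (C * X) :=
        mul_le_mul_of_nonneg_right h7 (mul_nonneg (by linarith) hX)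
    _ = _ := by ring

end size

/-- pattern of a vector -/
noncomputable def pat {O : Type} [CommRing O] {n : ℕ} (M0 M : Matrix (Fin n) (Fin n) O)
    (y : Fin n → ℤ) : Finset (Fin n) × Finset (Fin n) := by
  classical
  exact (Finset.univ.filter (fun l => cvR M0 y l ≠ 0), Finset.univ.filter (fun l => cvR M y l ≠ 0))

theorem pat_fst {O : Type} [CommRing O] {n : ℕ} {M0 M : Matrix (Fin n) (Fin n) O}
    {y y' : Fin n → ℤ} (h : pat M0 M y = pat M0 M y') (l : Fin n) :
    cvR M0 y l ≠ 0 ↔ cvR M0 y' l ≠ 0 := by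
  have h1 := congrArg Prod.fst h
  simp only [pat] at h1
  have h2 := Finset.ext_iff.1 h1 l
  simpa using h2

theorem pat_snd {O : Type} [CommRing O] {n : ℕ} {M0 M : Matrix (Fin n) (Fin n) O}
    {y y' : Fin n → ℤ} (h : pat M0 M y = pat M0 M y') (l : Fin n) :
    cvR M y l ≠ 0 ↔ cvR M y' l ≠ 0 := by
  have h1 := congrArg Prod.snd h
  simp only [pat] at h1
  have h2 := Finset.ext_iff.1 h1 l
  simpa using h2

theorem dichO (O : Type) [CommRing O] [IsDomain O] [Module.Free ℤ O] [Module.Finite ℤ O] (φ : O →+* ℂ)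
    (hht : HtStmt O φ) : DichOStmt O φ := by
  classical
  obtain ⟨h, C, d, H⟩ := hht
  have HH := H
  obtain ⟨hC1, hd1, hh0, hhadd, hhmul, hhint, hhφ, hhN, hhL⟩ := HH
  intro n' M0 M hM0 hM γ hγ
  -- the finite set
  let sel : Finset (Fin (n' + 1)) × Finset (Fin (n' + 1)) → (Fin (n' + 1) → ℤ) :=
    fun S => if h : ∃ y : Fin (n' + 1) → ℤ, y ≠ 0 ∧ pat M0 M y = S then h.choose else fun _ => 1
  have hsel0 : ∀ S, sel S ≠ 0 := by
    intro S
    by_cases h : ∃ y : Fin (n' + 1) → ℤ, y ≠ 0 ∧ pat M0 M y = S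
    · simp only [sel]
      rw [dif_pos h]
      exact h.choose_spec.1
    · simp only [sel]
      rw [dif_neg h]
      intro h1
      have := congrFun h1 0
      simp at this
  have hselp : ∀ y : Fin (n' + 1) → ℤ, y ≠ 0 → pat M0 M (sel (pat M0 M y)) = pat M0 M y := by
    intro y hy
    have h : ∃ y' : Fin (n' + 1) → ℤ, y' ≠ 0 ∧ pat M0 M y' = pat M0 M y := ⟨y, hy, rfl⟩
    simp only [sel]
    rw [dif_pos h]
    exact h.choose_spec.2
  -- the norm of an integer
  set e : ℕ := Fintype.card (Module.Free.ChooseBasisIndex ℤ O) with he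
  have hnormz : ∀ z : ℤ, Algebra.norm ℤ ((z : ℤ) : O) = z ^ e := by
    intro z
    have := Algebra.norm_algebraMap_of_basis (Module.Free.chooseBasis ℤ O) z
    rwa [eq_intCast] at this
  have he1 : 1 ≤ e := by
    have : Nonempty (Module.Free.ChooseBasisIndex ℤ O) :=
      (Module.Free.chooseBasis ℤ O).index_nonempty
    exact Fintype.card_pos
  have hφz : ∀ z : ℤ, ‖φ ((z : ℤ) : O)‖ = |(z : ℝ)| := by
    intro z
    rw [map_intCast, Complex.norm_intCast]
  have hcast0 : ∀ z : ℤ, z ≠ 0 → ((z : ℤ) : O) ≠ 0 := by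
    intro z hz h0
    have h1 := hφz z
    rw [h0, map_zero, norm_zero] at h1
    have h2 : (z : ℝ) = 0 := abs_eq_zero.1 h1.symm
    exact hz (by exact_mod_cast h2)
  -- constants
  set Ct : ℝ := 1 + cT h C M0 + cT h C M with hCt
  set C3 : ℝ := 1 + ∑ S : Finset (Fin (n' + 1)) × Finset (Fin (n' + 1)),
    ∑ l, ‖φ (cvR M0 (sel S) l)‖ with hC3
  set K : ℝ := Real.log (n'.factorial : ℝ) + Real.log C3 - Real.log ‖φ M0.det‖ +
    Real.log |((Algebra.norm ℤ M.det : ℤ) : ℝ)| +
    ((n' : ℝ) + 2) * (Real.log C + d * Real.log Ct) with hK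
  have hcT0 : 0 ≤ cT h C M0 := cT_nonneg H M0
  have hcT1 : 0 ≤ cT h C M := cT_nonneg H M
  have hCt1 : 1 ≤ Ct := by rw [hCt]; linarith
  have hC31 : 1 ≤ C3 := by
    rw [hC3]
    have : 0 ≤ ∑ S : Finset (Fin (n' + 1)) × Finset (Fin (n' + 1)),
        ∑ l, ‖φ (cvR M0 (sel S) l)‖ :=
      Finset.sum_nonneg fun v _ => Finset.sum_nonneg fun l _ => norm_nonneg _
    linarith
  have hφM0 : 0 < ‖φ M0.det‖ := by
    rcases (norm_nonneg (φ M0.det)).lt_or_eq with h1 | h1
    · exact h1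
    · have h2 := (hhL _ hM0).2
      rw [← h1, mul_zero] at h2
      linarith
  have hNM : (1 : ℝ) ≤ |((Algebra.norm ℤ M.det : ℤ) : ℝ)| := by
    exact_mod_cast Int.one_le_abs (hhL _ hM).1
  have hdpos : (0 : ℝ) < d := by exact_mod_cast hd1
  have hs0 : (0 : ℝ) < 2 * ((n' : ℝ) + 2) * d := by positivity
  refine ⟨γ / (2 * ((n' : ℝ) + 2) * d), by positivity, Finset.univ.image sel, ?_,
    2 * |K| / γ + 1, ?_⟩
  · intro y hy
    obtain ⟨S, -, rfl⟩ := Finset.mem_image.1 hy
    exact hsel0 S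
  set c0 : ℝ := γ / (2 * ((n' : ℝ) + 2) * d) with hc0
  have hc0pos : 0 < c0 := by positivity
  intro c N hN β B hLat A hSize w hw hSol y hy hyw hyN
  obtain ⟨hBdet, hMB⟩ := hLat
  obtain ⟨-, hApos, -, hsum⟩ := hSize
  have hNpos : 0 < N := by
    have : 0 ≤ 2 * |K| / γ := by positivity
    linarith
  obtain ⟨q, y0, hq1, hy00, hDl, hy0le⟩ := exists_prim w hw y hy hyw
  refine ⟨sel (pat M0 M y0), Finset.mem_image_of_mem _ (Finset.mem_univ _), ?_⟩
  set y' := sel (pat M0 M y0) with hy'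
  have hpat := hselp y0 hy00
  rw [← hy'] at hpat
  intro i0
  by_contra hz
  set a : ℤ := ∑ l, y' l * w i0 l with hadef
  have hqpos : (0 : ℝ) < q := by exact_mod_cast (by omega : (0 : ℤ) < q)
  -- minors
  have hmin : ∀ (T : Matrix (Fin (n' + 1)) (Fin (n' + 1)) O), T.det ≠ 0 → ∀ l,
      DR (fun i => T.mulVec (cs O (w i))) l = (q : O) * cvR T y0 l := by
    intro T hT l
    rw [DR_mul T hT (fun i => cs O (w i)) l]
    unfold cvR
    rw [Finset.mul_sum]
    refine Finset.sum_congr rfl fun k _ => ?_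
    rw [DR_cast, hDl]
    push_cast
    ring
  -- the size of the vectors `adj(T)ᵀ y0`
  set X : ℝ := C * (Ct * Real.exp (c0 * N)) ^ d with hX
  have hy0N : ∀ k, |(y0 k : ℝ)| ≤ Real.exp (c0 * N) := fun k => (hy0le k).trans (hyN k)
  have hexp1 : 1 ≤ Real.exp (c0 * N) := Real.one_le_exp (by positivity)
  have hCe1 : 1 ≤ Ct * Real.exp (c0 * N) := one_le_mul_of_one_le_of_one_le hCt1 hexp1
  have hX1 : 1 ≤ X := one_le_mul_of_one_le_of_one_le hC1 (one_le_pow₀ hCe1)
  have hXpos : 0 < X := by linarith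
  have hlogX : Real.log X = Real.log C + d * (Real.log Ct + c0 * N) := by
    rw [hX, Real.log_mul (by linarith) (by positivity), Real.log_pow,
      Real.log_mul (by linarith) (Real.exp_pos _).ne', Real.log_exp]
  have hlogX0 : 0 ≤ Real.log X := Real.log_nonneg hX1
  have hcvX : ∀ (T : Matrix (Fin (n' + 1)) (Fin (n' + 1)) O), cT h C T ≤ Ct → ∀ l,
      C * h (cvR T y0 l) ^ d ≤ X := by
    intro T hT l
    rw [hX]
    refine mul_le_mul_of_nonneg_left ?_ (by linarith)
    refine pow_le_pow_left₀ (hh0 _) ?_ d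
    exact (h_cv H T y0 _ hy0N l).trans (mul_le_mul_of_nonneg_right hT (Real.exp_pos _).le)
  -- real place
  have hfpos : (0 : ℝ) < (n'.factorial : ℝ) := by exact_mod_cast Nat.factorial_pos n'
  have hreal : ∀ l, cvR M0 y0 l ≠ 0 → Real.log q ≤ Real.log X + (Real.log (n'.factorial : ℝ) +
      ∑ k, Real.log (A (l.succAbove k))) := by
    intro l hl
    have h1 := hmin M0 hM0 l
    have h2 : ‖φ (DR (fun i => M0.mulVec (cs O (w i))) l)‖ ≤
        (n'.factorial : ℝ) * ∏ k, A (l.succAbove k) := by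
      unfold DR
      rw [map_mul, map_pow, map_neg, map_one, norm_mul, norm_pow, norm_neg, norm_one, one_pow,
        one_mul, RingHom.map_det]
      refine norm_det_le _ _ ?_
      intro i k
      exact (hSol i).1 (l.succAbove k)
    rw [h1, map_mul, norm_mul, hφz, abs_of_pos hqpos] at h2
    have h3 : 1 ≤ X * ‖φ (cvR M0 y0 l)‖ :=
      ((hhL _ hl).2).trans (mul_le_mul_of_nonneg_right (hcvX M0 (by rw [hCt]; linarith) l)
        (norm_nonneg _))
    have hprodpos : 0 < ∏ k, A (l.succAbove k) := Finset.prod_pos fun k _ => hApos _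
    have h4 : (q : ℝ) ≤ X * ((n'.factorial : ℝ) * ∏ k, A (l.succAbove k)) := by
      calc (q : ℝ) ≤ q * (X * ‖φ (cvR M0 y0 l)‖) := le_mul_of_one_le_right hqpos.le h3
        _ = X * (q * ‖φ (cvR M0 y0 l)‖) := by ring
        _ ≤ _ := mul_le_mul_of_nonneg_left h2 hXpos.le
    calc Real.log q ≤ Real.log (X * ((n'.factorial : ℝ) * ∏ k, A (l.succAbove k))) :=
          Real.log_le_log hqpos h4
      _ = _ := by
          rw [Real.log_mul hXpos.ne' (mul_pos hfpos hprodpos).ne',
            Real.log_mul hfpos.ne' hprodpos.ne', Real.log_prod fun k _ => (hApos _).ne']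
  -- the dot product with `y'`
  have hdot : ∀ T : Matrix (Fin (n' + 1)) (Fin (n' + 1)) O, T.det * (a : O) =
      ∑ l, cvR T y' l * (T.mulVec (cs O (w i0))) l := by
    intro T
    have h1 := dot_adj T (cs O y') (cs O (w i0))
    have h2 : ∑ l, cs O y' l * cs O (w i0) l = (a : O) := by
      rw [hadef]
      push_cast
      rfl
    rw [h2] at h1
    exact h1
  have hne0 : (Finset.univ.filter (fun l => cvR M0 y0 l ≠ 0)).Nonempty := by
    by_contra hempty
    rw [Finset.not_nonempty_iff_eq_empty] at hempty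
    have h0 : ∀ l, cvR M0 y' l = 0 := by
      intro l
      by_contra h1
      have h2 := (pat_fst hpat l).1 h1
      have h3 : l ∈ Finset.univ.filter (fun l => cvR M0 y0 l ≠ 0) := by simp [h2]
      rw [hempty] at h3
      simp at h3
    have h4 := hdot M0
    rw [Finset.sum_eq_zero fun l _ => by rw [h0, zero_mul]] at h4
    exact (mul_ne_zero hM0 (hcast0 a hz)) h4
  obtain ⟨ls, hls, hlsmax⟩ := Finset.exists_max_image _ (fun l => A l) hne0
  have hls0 : cvR M0 y0 ls ≠ 0 := by simpa using hls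
  have hapos : (0 : ℝ) < |(a : ℝ)| := abs_pos.2 (by exact_mod_cast hz)
  have hale : Real.log |(a : ℝ)| ≤ Real.log C3 - Real.log ‖φ M0.det‖ + Real.log (A ls) := by
    have h1 : ‖φ M0.det‖ * |(a : ℝ)| ≤ C3 * A ls := by
      have h2 : ‖φ M0.det‖ * |(a : ℝ)| = ‖φ (M0.det * (a : O))‖ := by
        rw [map_mul, norm_mul, hφz]
      rw [h2, hdot M0, map_sum]
      refine (norm_sum_le _ _).trans ?_
      have h8 : ∀ l ∈ (Finset.univ : Finset (Fin (n' + 1))),
          ‖φ (cvR M0 y' l * (M0.mulVec (cs O (w i0))) l)‖ ≤ ‖φ (cvR M0 y' l)‖ * A ls := by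
        intro l _
        rw [map_mul, norm_mul]
        by_cases hl : cvR M0 y' l = 0
        · rw [hl]
          simp
        · refine mul_le_mul_of_nonneg_left ?_ (norm_nonneg _)
          refine ((hSol i0).1 l).trans ?_
          exact hlsmax l (by simpa using (pat_fst hpat l).1 hl)
      refine (Finset.sum_le_sum h8).trans ?_
      rw [← Finset.sum_mul]
      refine mul_le_mul_of_nonneg_right ?_ (hApos _).le
      rw [hC3]
      have h11 : ∑ l, ‖φ (cvR M0 y' l)‖ ≤
          ∑ S : Finset (Fin (n' + 1)) × Finset (Fin (n' + 1)),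
            ∑ l, ‖φ (cvR M0 (sel S) l)‖ :=
        Finset.single_le_sum (f := fun S => ∑ l, ‖φ (cvR M0 (sel S) l)‖)
          (fun S _ => Finset.sum_nonneg fun l _ => norm_nonneg _)
          (Finset.mem_univ (pat M0 M y0))
      linarith
    have h3 := Real.log_le_log (mul_pos hφM0 hapos) h1
    rw [Real.log_mul hφM0.ne' hapos.ne', Real.log_mul (by linarith) (hApos _).ne'] at h3
    linarith
  -- the lattice
  have hB : ((B.det : ℤ) : O) = ∏ l, β l := by
    have h1 := congrArg Matrix.det hMB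
    rw [Matrix.det_mul, Matrix.det_mul, Matrix.det_diagonal] at h1
    have h2 : (B.map (Int.castRingHom O)).det = ((B.det : ℤ) : O) := by
      rw [Int.cast_det]
      rfl
    rw [h2, mul_comm] at h1
    exact mul_right_cancel₀ hM h1
  have hlat : ∀ i l, ∃ t : O, (M.mulVec (cs O (w i))) l = β l * t := by
    intro i l
    obtain ⟨z, hz⟩ := (hSol i).2
    refine ⟨(M.mulVec (cs O z)) l, ?_⟩
    have h1 : cs O (w i) = (B.map (Int.castRingHom O)).mulVec (cs O z) := by
      funext j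
      rw [hz]
      simp [cs, Matrix.mulVec, dotProduct]
    rw [h1, Matrix.mulVec_mulVec, hMB, ← Matrix.mulVec_mulVec, Matrix.mulVec_diagonal]
  have hdvd : ∀ l, ∏ k, β (l.succAbove k) ∣ (q : O) * cvR M y0 l := by
    intro l
    rw [← hmin M hM l]
    unfold DR
    refine Dvd.dvd.mul_left ?_ _
    refine prod_dvd_det _ _ ?_
    intro i k
    obtain ⟨t, ht⟩ := hlat i (l.succAbove k)
    exact ⟨t, ht⟩
  set S : Finset (Fin (n' + 1)) := Finset.univ.filter (fun l => cvR M y0 l ≠ 0) with hS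
  have hF : ∏ l, β l ∣ ((q : O) * ∏ l ∈ S, cvR M y0 l) * (M.det * (a : O)) := by
    rw [hdot M, Finset.mul_sum]
    refine Finset.dvd_sum fun l _ => ?_
    by_cases hl : cvR M y' l = 0
    · rw [hl, zero_mul, mul_zero]
      exact dvd_zero _
    · have hlS : l ∈ S := by
        rw [hS]
        simpa using (pat_snd hpat l).1 hl
      obtain ⟨t, ht⟩ := hlat i0 l
      rw [ht, Fin.prod_univ_succAbove _ l]
      have h1 : β l * ∏ k, β (l.succAbove k) ∣ β l * ((q : O) * ∏ l ∈ S, cvR M y0 l) := by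
        refine mul_dvd_mul_left _ ((hdvd l).trans ?_)
        exact mul_dvd_mul_left _ (Finset.dvd_prod_of_mem _ hlS)
      refine h1.trans ⟨cvR M y' l * t, ?_⟩
      ring
  rw [← hB] at hF
  have hnorm := map_dvd (Algebra.norm ℤ : O →* ℤ) hF
  rw [map_mul, map_mul, map_mul, map_prod, hnormz, hnormz, hnormz] at hnorm
  have hne : (q ^ e * ∏ l ∈ S, Algebra.norm ℤ (cvR M y0 l)) *
      (Algebra.norm ℤ M.det * a ^ e) ≠ 0 := by
    refine mul_ne_zero (mul_ne_zero (pow_ne_zero _ (by omega)) ?_)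
      (mul_ne_zero (hhL _ hM).1 (pow_ne_zero _ hz))
    refine Finset.prod_ne_zero_iff.2 fun l hl => (hhL _ ?_).1
    rw [hS] at hl
    simpa using hl
  have hle := Int.le_of_dvd (abs_pos.2 hne) ((abs_dvd_abs _ _).2 hnorm)
  have hle' : |(B.det : ℝ)| ^ e ≤ ((q : ℝ) ^ e * ∏ l ∈ S, |((Algebra.norm ℤ (cvR M y0 l) : ℤ) : ℝ)|) *
      (|((Algebra.norm ℤ M.det : ℤ) : ℝ)| * |(a : ℝ)| ^ e) := by
    have h1 : ((|B.det ^ e| : ℤ) : ℝ) ≤ ((|(q ^ e * ∏ l ∈ S, Algebra.norm ℤ (cvR M y0 l)) *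
      (Algebra.norm ℤ M.det * a ^ e)| : ℤ) : ℝ) := Int.cast_le.2 hle
    rw [Int.cast_abs, Int.cast_abs, Int.cast_mul, Int.cast_mul, Int.cast_mul, Int.cast_prod,
      Int.cast_pow, Int.cast_pow, Int.cast_pow, abs_mul, abs_mul, abs_mul, Finset.abs_prod,
      abs_pow, abs_pow, abs_pow, abs_of_pos hqpos] at h1
    exact h1
  have hBpos : 0 < |(B.det : ℝ)| := abs_pos.2 (by exact_mod_cast hBdet)
  have hSpos : ∀ l ∈ S, 0 < |((Algebra.norm ℤ (cvR M y0 l) : ℤ) : ℝ)| := by
    intro l hl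
    rw [hS] at hl
    have h1 : cvR M y0 l ≠ 0 := by simpa using hl
    exact abs_pos.2 (by exact_mod_cast (hhL _ h1).1)
  have hlog := Real.log_le_log (pow_pos hBpos e) hle'
  rw [Real.log_mul (mul_pos (pow_pos hqpos e) (Finset.prod_pos hSpos)).ne'
      (mul_pos (by linarith) (pow_pos hapos e)).ne',
    Real.log_mul (pow_pos hqpos e).ne' (Finset.prod_pos hSpos).ne',
    Real.log_mul (by linarith) (pow_pos hapos e).ne', Real.log_pow, Real.log_pow, Real.log_pow,
    Real.log_prod fun l hl => (hSpos l hl).ne'] at hlog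
  have hSsum : ∑ l ∈ S, Real.log |((Algebra.norm ℤ (cvR M y0 l) : ℤ) : ℝ)| ≤
      ((n' : ℝ) + 1) * Real.log X := by
    have h1 : ∀ l ∈ S, Real.log |((Algebra.norm ℤ (cvR M y0 l) : ℤ) : ℝ)| ≤ Real.log X := by
      intro l hl
      refine Real.log_le_log (hSpos l hl) ?_
      exact (hhN _).trans (hcvX M (by rw [hCt]; linarith) l)
    refine (Finset.sum_le_card_nsmul _ _ _ h1).trans ?_
    rw [nsmul_eq_mul]
    refine mul_le_mul_of_nonneg_right ?_ hlogX0
    have h2 : S.card ≤ n' + 1 := (Finset.card_le_univ S).trans (by simp)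
    exact_mod_cast h2
  have hlogNM : 0 ≤ Real.log |((Algebra.norm ℤ M.det : ℤ) : ℝ)| := Real.log_nonneg hNM
  have he1' : (1 : ℝ) ≤ e := by exact_mod_cast he1
  have hmain : Real.log |(B.det : ℝ)| - Real.log q - Real.log |(a : ℝ)| ≤
      ((n' : ℝ) + 1) * Real.log X + Real.log |((Algebra.norm ℤ M.det : ℤ) : ℝ)| := by
    have hG : 0 ≤ ((n' : ℝ) + 1) * Real.log X +
        Real.log |((Algebra.norm ℤ M.det : ℤ) : ℝ)| := by positivity
    by_contra hcon
    push Not at hcon
    nlinarith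
  -- conclusion
  have h1 := hreal ls hls0
  have h2 : ∑ l, Real.log (A l) = Real.log (A ls) + ∑ k, Real.log (A (ls.succAbove k)) :=
    Fin.sum_univ_succAbove _ ls
  have h4 : ((n' : ℝ) + 2) * (d * (c0 * N)) = γ / 2 * N := by
    rw [hc0]
    field_simp
  have h6 : γ / 2 * N ≤ K := by
    rw [hK]
    rw [hlogX] at h1 hmain
    nlinarith [h1, h2, h4, hmain, hale, hsum]
  have h7 : γ / 2 * (2 * |K| / γ + 1) ≤ γ / 2 * N :=
    mul_le_mul_of_nonneg_left hN (by positivity)
  have h8 : γ / 2 * (2 * |K| / γ + 1) = |K| + γ / 2 := by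
    field_simp
  have h9 := le_abs_self K
  linarith

end Pool.Agent.TH286.GT.DichO
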