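import Mathlib
import Pool.Agent.TH286.GT.Stms
import Pool.Agent.TH461.SST.Est

/-!
Project GT, A4: the numerical estimate (`EstOStmt`). The proof follows `Pool.Agent.TH461.SST.Est`.
-/

set_option autoImplicit false

open Finset Filter Topology

namespace Pool.Agent.TH286.GT.EstO

open Pool.Agent.TH286.GT
open Pool.Agent.TH461.SST (Big Ix wedge cpd Bal HeightPairStmt CBStmt SFStmt GapStmt CompStmt)
open Pool.Agent.TH461.SST.Est (le_r bal_sum sum_Nk sum_Nr block_A card_Dset)
open Pool.Agent.H393R2 (Dset mem_Dset)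

/-- one term of the divisibility sum -/
lemma term_e {c τ N L ε : ℝ} (hτ : 0 < τ) (hN : 0 ≤ N) (hε : ε ≤ c) (e : ℕ)
    (he : |(e : ℝ) * L - ε * N| ≤ τ * N) (J κ k r : ℕ) (hκ : κ ≤ J) (hκk : κ ≤ k) (hJr : J ≤ r)
    (hc : 0 ≤ c) :
    ε * (N * (J : ℝ)) - c * (N * (k : ℝ)) - τ * (N * (r : ℝ)) ≤
      ((e : ℝ) * ((J - κ : ℕ) : ℝ)) * L := by
  rw [Nat.cast_sub hκ]
  have h1 : (0 : ℝ) ≤ (J : ℝ) - κ := by
    have : (κ : ℝ) ≤ J := by exact_mod_cast hκ
    linarith
  have h2 := (abs_le.1 he).1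
  have h3 : (ε * N - τ * N) * ((J : ℝ) - κ) ≤ (e : ℝ) * L * ((J : ℝ) - κ) :=
    mul_le_mul_of_nonneg_right (by linarith) h1
  have h4 : ε * (N * (κ : ℝ)) ≤ c * (N * (κ : ℝ)) :=
    mul_le_mul_of_nonneg_right hε (by positivity)
  have h5 : 0 ≤ τ * (N * (κ : ℝ)) := by positivity
  have h6 : c * (N * (κ : ℝ)) ≤ c * (N * (k : ℝ)) := by
    have : (κ : ℝ) ≤ k := by exact_mod_cast hκk
    gcongr
  have h7 : τ * (N * (J : ℝ)) ≤ τ * (N * (r : ℝ)) := by
    have : (J : ℝ) ≤ r := by exact_mod_cast hJr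
    gcongr
  nlinarith

theorem estO (O : Type) [CommRing O] : EstOStmt O := by
  intro n s hn c γ hc hγ b hb
  set K1 : ℝ := 2 * n * c + c + 1 with hK1
  have hn0 : (0 : ℝ) < n := by exact_mod_cast hn
  have hn1 : (1 : ℝ) ≤ n := by exact_mod_cast hn
  have hK1pos : 0 < K1 := by positivity
  have hK11 : 1 ≤ K1 := by
    have : 0 ≤ 2 * n * c + c := by positivity
    rw [hK1]; linarith
  have hs0 : (0 : ℝ) ≤ s := Nat.cast_nonneg s
  refine ⟨γ / (4 * n * ((1 + s) * K1)), by positivity, ?_⟩
  intro τ hτ hτ0 C X hC hX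
  have hτ1 : (1 + s) * K1 * τ ≤ γ / (4 * n) := by
    have h0 : (0 : ℝ) < (1 + s) * K1 := by positivity
    calc (1 + s) * K1 * τ ≤ (1 + s) * K1 * (γ / (4 * n * ((1 + s) * K1))) := by gcongr
      _ = γ / (4 * n) := by field_simp
  have hX0 : 0 < X := by linarith
  have hC0 : 0 < C := by linarith
  -- the base of the exponential factor
  set B : ℝ := X * 2 ^ n * C * (2 * X) with hB
  have hB1 : 1 ≤ B := by
    have a1 : (1 : ℝ) ≤ 2 ^ n := one_le_pow₀ (by norm_num)
    have a2 : (1 : ℝ) ≤ X * 2 ^ n := by nlinarith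
    have a3 : (1 : ℝ) ≤ X * 2 ^ n * C := by nlinarith
    rw [hB]; nlinarith
  have hB0 : 0 < B := by linarith
  set Q : ℝ := Real.log B with hQ
  have hQ0 : 0 ≤ Q := Real.log_nonneg hB1
  set Lb : ℝ := ∑ v, Real.log (b v) with hLb
  have hlb : ∀ v, 0 ≤ Real.log (b v) := fun v => Real.log_nonneg (hb v)
  have hLb0 : 0 ≤ Lb := Finset.sum_nonneg fun v _ => hlb v
  refine ⟨1 + 4 * n * (Q + Lb) / γ, by
    have : 0 ≤ 4 * n * (Q + Lb) / γ := by positivity
    linarith, ?_⟩
  intro m hm r hr k hk N hN R0 h1 h2 α ε hα hε hsum A hA hlA kk hkk D0 hd0 hb0 d hbd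
  set Ns : ℝ := 1 + 4 * n * (Q + Lb) / γ with hNs
  have hNs1 : 1 ≤ Ns := by
    have : 0 ≤ 4 * n * (Q + Lb) / γ := by positivity
    rw [hNs]; linarith
  have hNs0 : 0 < Ns := by linarith
  have hNsQ : Q ≤ γ / (4 * n) * Ns := by
    have : γ / (4 * n) * Ns = γ / (4 * n) + (Q + Lb) := by
      rw [hNs]; field_simp
    rw [this]
    have : 0 < γ / (4 * n) := by positivity
    linarith
  have hNsL : Lb ≤ γ / (4 * n) * Ns := by
    have : γ / (4 * n) * Ns = γ / (4 * n) + (Q + Lb) := by
      rw [hNs]; field_simp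
    rw [this]
    have : 0 < γ / (4 * n) := by positivity
    linarith
  have hN0 : ∀ h, 0 < N h := fun h => lt_of_lt_of_le hNs0 (hN h)
  have hr' : ∀ h, (1 : ℝ) ≤ r h := fun h => by exact_mod_cast hr h
  have hR0 : Ns ≤ R0 := by
    have h0 : Fin m := ⟨0, hm⟩
    calc Ns ≤ N h0 := hN h0
      _ = 1 * N h0 := by ring
      _ ≤ r h0 * N h0 := by have := hN0 h0; have := hr' h0; gcongr
      _ ≤ R0 := h2 h0
  have hR00 : 0 < R0 := by linarith
  have hm1 : (1 : ℝ) ≤ m := by exact_mod_cast hm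
  set T : ℝ := m * R0 with hT
  have hTR : R0 ≤ T := by rw [hT]; nlinarith
  have hT0 : 0 < T := by linarith
  -- the sum of the degrees
  have hsr : Ns * ∑ h, (r h : ℝ) ≤ T := by
    rw [Finset.mul_sum, hT]
    calc ∑ h, Ns * (r h : ℝ) ≤ ∑ h, N h * (r h : ℝ) :=
          Finset.sum_le_sum fun h _ => by have := hN h; gcongr
      _ ≤ m * R0 := sum_Nr h2
  have hNk : ∑ h, N h * (k h : ℝ) ≤ τ * T := by
    calc _ ≤ τ * R0 := sum_Nk hr hR00.le hk h2
      _ ≤ τ * T := by gcongr
  have hNr : ∑ h, N h * (r h : ℝ) ≤ T := sum_Nr h2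
  -- the exponents
  set Tv : Fin s → ℝ := fun v => T * (ε v / n - K1 * τ) with hTv
  -- if `b v = 1`, then `Tv v ≤ 0`
  have hTv0 : ∀ v, Real.log (b v) = 0 → Tv v ≤ 0 := by
    intro v hv
    have h0 : Fin m := ⟨0, hm⟩
    have q1 := (abs_le.1 (hkk h0 v)).1
    rw [hv, mul_zero, zero_sub] at q1
    have q2 : ε v * N h0 ≤ τ * N h0 := by linarith
    have q3 : ε v ≤ τ := le_of_mul_le_mul_right q2 (hN0 h0)
    have q4 : ε v / n ≤ τ := by
      rw [div_le_iff₀ hn0]
      exact q3.trans (le_mul_of_one_le_right hτ.le hn1)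
    have q5 : τ ≤ K1 * τ := le_mul_of_one_le_left hτ.le hK11
    rw [hTv]
    exact mul_nonpos_of_nonneg_of_nonpos hT0.le (by linarith)
  refine ⟨fun v => ⌊Tv v / Real.log (b v)⌋₊, ?_, ?_⟩
  · intro J hJ hdJ κ hκ hκJ v l
    rcases (hlb v).eq_or_lt with hz | hpos
    · simp [← hz]
    apply Nat.floor_le_of_le
    rw [div_le_iff₀ hpos]
    push_cast
    have e4 : ∑ h, (ε v * (N h * (J h l : ℝ)) - c * (N h * (k h : ℝ)) -
        τ * (N h * (r h : ℝ))) ≤
        (∑ h, (kk h v : ℝ) * ((J h l - κ h l : ℕ) : ℝ)) * Real.log (b v) := by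
      rw [Finset.sum_mul]
      refine Finset.sum_le_sum fun h _ => ?_
      refine term_e (c := c) hτ (hN0 h).le (hε v).2 (kk h v) (hkk h v) (J h l) (κ h l) (k h) (r h)
        (hκJ h l) ?_ (le_r hJ h l) (by linarith)
      rw [← hκ h]
      exact Finset.single_le_sum (f := fun l => κ h l) (fun _ _ => Nat.zero_le _) (mem_univ l)
    refine le_trans ?_ e4
    rw [Finset.sum_sub_distrib, Finset.sum_sub_distrib, ← Finset.mul_sum, ← Finset.mul_sum,
      ← Finset.mul_sum]
    have e6 : T * (ε v / n) - c * (2 * τ * T) ≤ ε v * ∑ h, N h * (J h l : ℝ) := by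
      have hb1 := (abs_le.1 (bal_sum hr hR00.le hτ h1 h2 hJ l (hbd J hJ hdJ l))).1
      have hε0 := (hε v).1
      have hεc := (hε v).2
      have q1 : ε v * (R0 * ((m : ℝ) / n) - 2 * τ * (m * R0)) ≤
          ε v * ∑ h, N h * (J h l : ℝ) := mul_le_mul_of_nonneg_left (by linarith) hε0
      have q2 : ε v * (2 * τ * (m * R0)) ≤ c * (2 * τ * (m * R0)) :=
        mul_le_mul_of_nonneg_right hεc (by positivity)
      have q3 : T * (ε v / n) = ε v * (R0 * ((m : ℝ) / n)) := by rw [hT]; ring
      rw [q3, hT]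
      linarith
    have e8 : c * ∑ h, N h * (k h : ℝ) ≤ c * (τ * T) := by gcongr
    have e9 : τ * ∑ h, N h * (r h : ℝ) ≤ τ * T := by gcongr
    have e10 : Tv v = T * (ε v / n) - n * (c * (2 * τ * T)) - c * (τ * T) - τ * T := by
      rw [hTv, hK1]; ring
    have e11 : c * (2 * τ * T) ≤ n * (c * (2 * τ * T)) :=
      le_mul_of_one_le_left (by positivity) hn1
    rw [e10]
    linarith
  · -- the archimedean bound
    have f1 : ∀ J ∈ Dset m n r, |(D0 J : ℝ)| * ∏ h,
        ∑ κ ∈ Finset.piAntidiag (Finset.univ : Finset (Fin n)) (k h),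
          ∏ l, (((J h l).choose (κ l) : ℝ) * X ^ (κ l) * (X * A h l) ^ (J h l - κ l)) ≤
        C ^ (∑ h, r h) * ((2 * X) ^ (∑ h, r h) *
          Real.exp (T * ((∑ l, α l) / n + K1 * τ))) := by
      intro J hJ
      by_cases hz : D0 J = 0
      · rw [hz]; simp only [Int.cast_zero, abs_zero, zero_mul]; positivity
      refine mul_le_mul (hd0 J hJ) ?_ ?_ (by positivity)
      · calc ∏ h, ∑ κ ∈ Finset.piAntidiag (Finset.univ : Finset (Fin n)) (k h),
            ∏ l, (((J h l).choose (κ l) : ℝ) * X ^ (κ l) * (X * A h l) ^ (J h l - κ l)) ≤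
            ∏ h, ((2 * X) ^ (r h) * Real.exp (N h * ∑ l, α l * (J h l : ℝ) +
              c * (N h * k h) + τ * (N h * r h))) := by
              refine Finset.prod_le_prod (fun h _ => ?_) fun h _ => ?_
              · refine Finset.sum_nonneg fun κ _ => Finset.prod_nonneg fun l _ => ?_
                have := (hA h l).le
                positivity
              · have := block_A (c := c) hτ (hN0 h).le hX α hα (A h) (hA h) (hlA h) (J h) (k h)
                have e3 : (∑ l, (J h l : ℝ)) = r h := by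
                  rw [← mem_Dset.1 hJ h]; push_cast; rfl
                rw [e3, mem_Dset.1 hJ h] at this
                exact this
          _ = (2 * X) ^ (∑ h, r h) * Real.exp (∑ h, (N h * ∑ l, α l * (J h l : ℝ) +
              c * (N h * k h) + τ * (N h * r h))) := by
              rw [Finset.prod_mul_distrib, Finset.prod_pow_eq_pow_sum, Real.exp_sum]
          _ ≤ _ := by
              refine mul_le_mul_of_nonneg_left (Real.exp_le_exp.2 ?_) (by positivity)
              rw [Finset.sum_add_distrib, Finset.sum_add_distrib, ← Finset.mul_sum,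
                ← Finset.mul_sum]
              have e5 : ∑ h, N h * ∑ l, α l * (J h l : ℝ) =
                  ∑ l, α l * ∑ h, N h * (J h l : ℝ) := by
                simp only [Finset.mul_sum]
                rw [Finset.sum_comm]
                refine Finset.sum_congr rfl fun l _ => Finset.sum_congr rfl fun h _ => ?_
                ring
              rw [e5]
              have e6 : ∑ l, α l * ∑ h, N h * (J h l : ℝ) ≤
                  ∑ l, α l * (R0 * ((m : ℝ) / n)) + n * (c * (2 * τ * T)) := by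
                have : (n : ℝ) * (c * (2 * τ * T)) = ∑ l : Fin n, c * (2 * τ * T) := by
                  rw [Finset.sum_const, Finset.card_univ, Fintype.card_fin, nsmul_eq_mul]
                rw [this, ← Finset.sum_add_distrib]
                refine Finset.sum_le_sum fun l _ => ?_
                have hb1 := bal_sum hr hR00.le hτ h1 h2 hJ l (hb0 J hJ hz l)
                have q1 : α l * (∑ h, N h * (J h l : ℝ) - R0 * ((m : ℝ) / n)) ≤
                    c * (2 * τ * (m * R0)) := by
                  refine (le_abs_self _).trans ?_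
                  rw [abs_mul]
                  exact mul_le_mul (hα l) hb1 (abs_nonneg _) (by linarith)
                rw [hT]
                linarith
              have e7 : ∑ l, α l * (R0 * ((m : ℝ) / n)) = T * ((∑ l, α l) / n) := by
                rw [← Finset.sum_mul, hT]; field_simp
              have e8 : c * ∑ h, N h * (k h : ℝ) ≤ c * (τ * T) := by gcongr
              have e9 : τ * ∑ h, N h * (r h : ℝ) ≤ τ * T := by gcongr
              have e10 : T * ((∑ l, α l) / n + K1 * τ) = T * ((∑ l, α l) / n) +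
                  n * (c * (2 * τ * T)) + c * (τ * T) + τ * T := by
                rw [hK1]; ring
              rw [e10]
              rw [e7] at e6
              linarith
      · refine Finset.prod_nonneg fun h _ => Finset.sum_nonneg fun κ _ =>
          Finset.prod_nonneg fun l _ => ?_
        have := (hA h l).le
        positivity
    have f2 : Big r k X D0 A ≤ Real.exp (Q * (∑ h, (r h : ℝ)) +
        T * ((∑ l, α l) / n + K1 * τ)) := by
      have g1 : Real.exp (Q * (∑ h, (r h : ℝ))) = B ^ (∑ h, r h) := by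
        rw [hQ, mul_comm]
        have : (∑ h, (r h : ℝ)) = ((∑ h, r h : ℕ) : ℝ) := by push_cast; rfl
        rw [this, ← Real.log_pow, Real.exp_log (by positivity)]
      rw [Real.exp_add, g1]
      unfold Big
      calc X ^ (∑ h, r h) * ∑ J ∈ Dset m n r, |(D0 J : ℝ)| * ∏ h,
            ∑ κ ∈ Finset.piAntidiag (Finset.univ : Finset (Fin n)) (k h),
              ∏ l, (((J h l).choose (κ l) : ℝ) * X ^ (κ l) * (X * A h l) ^ (J h l - κ l)) ≤
          X ^ (∑ h, r h) * ∑ J ∈ Dset m n r, C ^ (∑ h, r h) * ((2 * X) ^ (∑ h, r h) *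
            Real.exp (T * ((∑ l, α l) / n + K1 * τ))) := by
            refine mul_le_mul_of_nonneg_left (Finset.sum_le_sum f1) (by positivity)
        _ = X ^ (∑ h, r h) * ((Dset m n r).card * (C ^ (∑ h, r h) * ((2 * X) ^ (∑ h, r h) *
            Real.exp (T * ((∑ l, α l) / n + K1 * τ))))) := by
            rw [Finset.sum_const, nsmul_eq_mul]
        _ ≤ X ^ (∑ h, r h) * (((2 : ℝ) ^ n) ^ (∑ h, r h) * (C ^ (∑ h, r h) *
            ((2 * X) ^ (∑ h, r h) * Real.exp (T * ((∑ l, α l) / n + K1 * τ))))) := by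
            refine mul_le_mul_of_nonneg_left (mul_le_mul_of_nonneg_right (card_Dset r) ?_) ?_ <;>
              positivity
        _ = _ := by rw [hB, mul_pow, mul_pow, mul_pow]; ring
    refine lt_of_le_of_lt f2 ?_
    -- the product of the moduli
    have f3 : ∏ v, (b v) ^ (⌊Tv v / Real.log (b v)⌋₊) =
        Real.exp (∑ v, (⌊Tv v / Real.log (b v)⌋₊ : ℝ) * Real.log (b v)) := by
      rw [Real.exp_sum]
      refine Finset.prod_congr rfl fun v _ => ?_
      have : (0 : ℝ) < b v := lt_of_lt_of_le one_pos (hb v)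
      rw [← Real.log_pow, Real.exp_log (by positivity)]
    show _ < ∏ v, (b v) ^ (⌊Tv v / Real.log (b v)⌋₊)
    rw [f3]
    apply Real.exp_lt_exp.2
    have f4 : ∑ v, Tv v - Lb ≤ ∑ v, (⌊Tv v / Real.log (b v)⌋₊ : ℝ) * Real.log (b v) := by
      rw [hLb, ← Finset.sum_sub_distrib]
      refine Finset.sum_le_sum fun v _ => ?_
      rcases (hlb v).eq_or_lt with hz | hpos
      · rw [← hz]
        have := hTv0 v hz.symm
        simp only [mul_zero, sub_zero]
        exact this
      · have := (Nat.lt_floor_add_one (Tv v / Real.log (b v))).le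
        rw [div_le_iff₀ hpos] at this
        linarith
    refine lt_of_lt_of_le ?_ f4
    have f5 : ∑ v, Tv v = T * ((∑ v, ε v) / n) - s * (T * (K1 * τ)) := by
      rw [hTv]
      simp only [mul_sub]
      rw [Finset.sum_sub_distrib, ← Finset.mul_sum, ← Finset.sum_div, Finset.sum_const,
        Finset.card_univ, Fintype.card_fin, nsmul_eq_mul]
    rw [f5]
    have f6 : T * ((∑ l, α l) / n) + T * (γ / n) ≤ T * ((∑ v, ε v) / n) := by
      rw [← mul_add, ← add_div]
      gcongr
    have f7 : Q * (∑ h, (r h : ℝ)) ≤ γ / (4 * n) * T := by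
      have q0 : 0 ≤ ∑ h, (r h : ℝ) := Finset.sum_nonneg fun h _ => Nat.cast_nonneg _
      calc Q * (∑ h, (r h : ℝ)) ≤ (γ / (4 * n) * Ns) * (∑ h, (r h : ℝ)) := by gcongr
        _ = γ / (4 * n) * (Ns * ∑ h, (r h : ℝ)) := by ring
        _ ≤ _ := by gcongr
    have f8 : Lb ≤ γ / (4 * n) * T := by
      refine hNsL.trans ?_
      have : Ns ≤ T := hR0.trans hTR
      gcongr
    have f9 : (1 + s) * K1 * τ * T ≤ γ / (4 * n) * T := by gcongr
    have f10 : T * (γ / n) = 4 * (γ / (4 * n) * T) := by field_simp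
    have f11 : 0 < γ / (4 * n) * T := by positivity
    nlinarith

end Pool.Agent.TH286.GT.EstO
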