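import Mathlib
import Pool.Agent.TH286.GT.Stms2
import Pool.Agent.H612.LR.Defs

/-!
Project GT, D3: from number rings to algebraic numbers: the growth theorem.
-/

set_option autoImplicit false

open Finset Filter Topology

namespace Pool.Agent.TH286.GT.GrowD

open Pool.Agent.TH286.GT Pool.Agent.H612.LR

/-! ### A field -/

lemma exists_field (S : Finset ℂ) (hS : ∀ x ∈ S, IsAlgebraic ℚ x) :
    ∃ K : IntermediateField ℚ ℂ, FiniteDimensional ℚ K ∧ Normal ℚ K ∧ ∀ x ∈ S, x ∈ K := by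
  have hfin : FiniteDimensional ℚ (IntermediateField.adjoin ℚ (S : Set ℂ)) :=
    IntermediateField.finiteDimensional_adjoin fun x hx => (hS x (by simpa using hx)).isIntegral
  have hN : IsNormalClosure ℚ (IntermediateField.adjoin ℚ (S : Set ℂ))
      (IntermediateField.normalClosure ℚ (IntermediateField.adjoin ℚ (S : Set ℂ)) ℂ) :=
    Algebra.IsAlgebraic.isNormalClosure_normalClosure fun x => IsAlgClosed.splits _
  refine ⟨IntermediateField.normalClosure ℚ (IntermediateField.adjoin ℚ (S : Set ℂ)) ℂ,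
    inferInstance, hN.normal, fun x hx => ?_⟩
  have h1 : x ∈ (IntermediateField.adjoin ℚ (S : Set ℂ)) :=
    IntermediateField.subset_adjoin ℚ _ (by simpa using hx)
  exact AlgHom.fieldRange_le_normalClosure (IntermediateField.adjoin ℚ (S : Set ℂ)).val
    ⟨⟨x, h1⟩, rfl⟩

/-! ### An exponent -/

lemma exists_exp {M : Type} [Monoid M] [DecidableEq M] (L : Finset M) : ∃ T : ℕ, 1 ≤ T ∧
    ∀ a ∈ L, ∀ b ∈ L, (∃ k : ℕ, 1 ≤ k ∧ a ^ k = b ^ k) → a ^ T = b ^ T := by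
  classical
  let e : M × M → ℕ := fun q => if h : ∃ k : ℕ, 1 ≤ k ∧ q.1 ^ k = q.2 ^ k then h.choose else 1
  have he : ∀ q, 1 ≤ e q := by
    intro q
    by_cases h : ∃ k : ℕ, 1 ≤ k ∧ q.1 ^ k = q.2 ^ k
    · simp only [e, dif_pos h]
      exact h.choose_spec.1
    · simp only [e, dif_neg h]
      exact le_rfl
  refine ⟨∏ q ∈ L ×ˢ L, e q, Nat.succ_le_of_lt (Finset.prod_pos fun q _ => he q), ?_⟩
  intro a ha b hb hk
  obtain ⟨d, hd⟩ := Finset.dvd_prod_of_mem e (Finset.mk_mem_product ha hb)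
  have h1 : a ^ e (a, b) = b ^ e (a, b) := by
    simp only [e, dif_pos hk]
    exact hk.choose_spec.2
  rw [hd, pow_mul, pow_mul, h1]

/-! ### A residue class -/

lemma exists_class (B : ℕ → Prop) (hB : ∀ N, ∃ n, N ≤ n ∧ B n) (T : ℕ) (hT : 1 ≤ T) :
    ∃ m0 : ℕ, ∀ N, ∃ k, N ≤ k ∧ B (m0 + T * k) := by
  by_contra hcon
  push Not at hcon
  choose N hN using hcon
  obtain ⟨n, hn, hBn⟩ := hB (T * (∑ m ∈ range T, N m + 1))
  have h1 : n % T < T := Nat.mod_lt _ hT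
  have h2 : N (n % T) ≤ ∑ m ∈ range T, N m :=
    Finset.single_le_sum (f := N) (fun _ _ => Nat.zero_le _) (mem_range.2 h1)
  have h3 : ∑ m ∈ range T, N m + 1 ≤ n / T := (Nat.le_div_iff_mul_le hT).2 (by
    rw [mul_comm]; exact hn)
  refine hN (n % T) (n / T) (by omega) ?_
  rw [Nat.mod_add_div]
  exact hBn

/-! ### The polynomial -/

section field

open NumberField Polynomial

variable {K : Type} [Field K] [NumberField K] [IsGalois ℚ K]

/-- automorphisms on the ring of integers -/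
noncomputable def sg (σ : K ≃ₐ[ℚ] K) : 𝓞 K →+* 𝓞 K := RingOfIntegers.mapRingHom (σ : K →+* K)

omit [IsGalois ℚ K] in
lemma sg_coe (σ : K ≃ₐ[ℚ] K) (x : 𝓞 K) : ((sg σ x : 𝓞 K) : K) = σ (x : K) := rfl

lemma sg_inj (σ : K ≃ₐ[ℚ] K) : Function.Injective (sg σ) := by
  intro x y h
  apply RingOfIntegers.ext
  apply σ.injective
  rw [← sg_coe, ← sg_coe, h]

lemma int_of_fixed (x : 𝓞 K) (h : ∀ σ : K ≃ₐ[ℚ] K, sg σ x = x) : ∃ z : ℤ, ((z : ℤ) : 𝓞 K) = x := by
  have h1 : (x : K) ∈ (⊥ : IntermediateField ℚ K) := by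
    rw [IsGalois.mem_bot_iff_fixed]
    intro σ
    rw [← sg_coe, h σ]
  rw [IntermediateField.mem_bot] at h1
  obtain ⟨r, hr⟩ := h1
  have h2 : IsIntegral ℤ (algebraMap ℚ K r) := by
    rw [hr]
    exact x.isIntegral_coe
  have h3 : IsIntegral ℤ r := (isIntegral_algebraMap_iff (algebraMap ℚ K).injective).1 h2
  obtain ⟨z, hz⟩ := IsIntegrallyClosed.isIntegral_iff.1 h3
  refine ⟨z, ?_⟩
  apply RingOfIntegers.ext
  rw [← hr, ← hz]
  simp

/-- a finite set of integers stable under the Galois group is the set of roots of an integer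
polynomial -/
lemma exists_poly [DecidableEq (𝓞 K)] (Λ : Finset (𝓞 K))
    (hΛ : ∀ σ : K ≃ₐ[ℚ] K, ∀ x ∈ Λ, sg σ x ∈ Λ) :
    ∃ p : ℕ → ℤ, ∀ x ∈ Λ, x ^ Λ.card = ∑ j ∈ range Λ.card, ((p j : ℤ) : 𝓞 K) * x ^ j := by
  set P : (𝓞 K)[X] := ∏ ν ∈ Λ, (X - C ν) with hP
  have hmonic : P.Monic := monic_prod_of_monic _ _ fun ν _ => monic_X_sub_C ν
  have hdeg : P.natDegree = Λ.card := by
    rw [hP, natDegree_prod_of_monic _ _ fun ν _ => monic_X_sub_C ν]
    simp
  have himg : ∀ σ : K ≃ₐ[ℚ] K, Λ.image (sg σ) = Λ := by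
    intro σ
    apply Finset.eq_of_subset_of_card_le
    · intro y hy
      obtain ⟨x, hx, rfl⟩ := Finset.mem_image.1 hy
      exact hΛ σ x hx
    · rw [Finset.card_image_of_injective _ (sg_inj σ)]
  have hmap : ∀ σ : K ≃ₐ[ℚ] K, P.map (sg σ) = P := by
    intro σ
    conv_rhs => rw [hP, ← himg σ, Finset.prod_image fun x _ y _ h => sg_inj σ h]
    rw [hP, Polynomial.map_prod]
    refine Finset.prod_congr rfl fun ν _ => ?_
    rw [Polynomial.map_sub, map_X, map_C]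
  have hco : ∀ j, ∃ z : ℤ, ((z : ℤ) : 𝓞 K) = P.coeff j := by
    intro j
    apply int_of_fixed
    intro σ
    rw [← coeff_map, hmap σ]
  choose z hz using hco
  refine ⟨fun j => -z j, fun x hx => ?_⟩
  have h0 : P.eval x = 0 := by
    rw [hP, eval_prod]
    exact Finset.prod_eq_zero hx (by simp)
  rw [eval_eq_sum_range, hdeg, Finset.sum_range_succ, ← hdeg, hmonic.coeff_natDegree, one_mul,
    hdeg] at h0
  rw [eq_neg_of_add_eq_zero_right h0, ← Finset.sum_neg_distrib]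
  refine Finset.sum_congr rfl fun j _ => ?_
  rw [← hz j]
  push_cast
  ring

omit [IsGalois ℚ K] in
lemma sg_comp (σ τ : K ≃ₐ[ℚ] K) (x : 𝓞 K) : sg σ (sg τ x) = sg (τ.trans σ) x := rfl

/-- the growth theorem for integers of a Galois number field -/
theorem growth (h : ∀ (O : Type) [CommRing O] [IsDomain O] [Module.Free ℤ O] [Module.Finite ℤ O]
    (φ : O →+* ℂ), GrowOStmt O φ) (ψ : K →+* ℂ)
    (cj : K ≃ₐ[ℚ] K) (hcj : ∀ x, ψ (cj x) = (starRingEnd ℂ) (ψ x)) (iK : K)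
    (hi : ψ iK = Complex.I) (D : Finset ℕ) (lam c : ℕ → 𝓞 K) (hlam : ∀ i ∈ D, lam i ≠ 0)
    (hnd : ∀ i ∈ D, ∀ i' ∈ D, i ≠ i' → ∀ t : ℕ, 1 ≤ t → lam i ^ t ≠ lam i' ^ t)
    (R : ℝ) (hR : 0 < R) (Q : ℝ) (hQ : 0 < Q) (i0 : ℕ) (hi0 : i0 ∈ D) (hc : c i0 ≠ 0)
    (hRi : R < ‖ψ (lam i0 : K)‖) :
    ∃ N : ℕ, ∀ n, N ≤ n → Q * R ^ n < ‖ψ ((∑ i ∈ D, c i * lam i ^ n : 𝓞 K) : K)‖ := by
  classical
  by_contra hcon
  push Not at hcon
  set L : Finset (𝓞 K) := ((Finset.univ : Finset (K ≃ₐ[ℚ] K)) ×ˢ D).image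
    (fun q => sg q.1 (lam q.2)) with hL
  have hLmem : ∀ x ∈ L, ∃ σ : K ≃ₐ[ℚ] K, ∃ i ∈ D, sg σ (lam i) = x := by
    intro x hx
    obtain ⟨q, hq, rfl⟩ := Finset.mem_image.1 hx
    exact ⟨q.1, q.2, (Finset.mem_product.1 hq).2, rfl⟩
  have hmemL : ∀ (σ : K ≃ₐ[ℚ] K), ∀ i ∈ D, sg σ (lam i) ∈ L := fun σ i hi =>
    Finset.mem_image.2 ⟨(σ, i), Finset.mem_product.2 ⟨Finset.mem_univ _, hi⟩, rfl⟩
  obtain ⟨T, hT, hTL⟩ := exists_exp L
  set Λ : Finset (𝓞 K) := L.image (fun x => x ^ T) with hΛ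
  have hlamΛ : ∀ i ∈ D, lam i ^ T ∈ Λ := fun i hi =>
    Finset.mem_image.2 ⟨lam i, by
      have := hmemL AlgEquiv.refl i hi
      exact this, rfl⟩
  have hstab : ∀ σ : K ≃ₐ[ℚ] K, ∀ x ∈ Λ, sg σ x ∈ Λ := by
    intro σ x hx
    obtain ⟨y, hy, rfl⟩ := Finset.mem_image.1 hx
    obtain ⟨τ, i, hiD, rfl⟩ := hLmem y hy
    refine Finset.mem_image.2 ⟨sg (τ.trans σ) (lam i), hmemL _ i hiD, ?_⟩
    rw [← sg_comp, map_pow]
  obtain ⟨p, hp⟩ := exists_poly Λ hstab
  obtain ⟨m0, hm0⟩ := exists_class (fun n => ‖ψ ((∑ i ∈ D, c i * lam i ^ n : 𝓞 K) : K)‖ ≤ Q * R ^ n)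
    hcon T hT
  set e := Λ.equivFin with he
  set μ : Fin Λ.card → 𝓞 K := fun i => (e.symm i : 𝓞 K) with hμ
  have hμmem : ∀ i, μ i ∈ Λ := fun i => (e.symm i).2
  set cc : Fin Λ.card → 𝓞 K := fun l => ∑ i ∈ D.filter (fun i => lam i ^ T = μ l),
    c i * lam i ^ m0 with hcc
  have key : ∀ k : ℕ, ∑ l, cc l * μ l ^ k = ∑ i ∈ D, c i * lam i ^ (m0 + T * k) := by
    intro k
    set G : 𝓞 K → 𝓞 K := fun ν => (∑ i ∈ D.filter (fun i => lam i ^ T = ν),
      c i * lam i ^ m0) * ν ^ k with hG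
    have h1 : ∑ l, cc l * μ l ^ k = ∑ ν ∈ Λ, G ν := by
      rw [← Finset.sum_coe_sort Λ G, ← Equiv.sum_comp e.symm (fun ν : Λ => G ν)]
    rw [h1, ← Finset.sum_fiberwise_of_maps_to (g := fun i => lam i ^ T) (t := Λ) hlamΛ]
    refine Finset.sum_congr rfl fun ν _ => ?_
    rw [hG]
    simp only
    rw [Finset.sum_mul]
    refine Finset.sum_congr rfl fun i hi' => ?_
    rw [← (Finset.mem_filter.1 hi').2, pow_add, pow_mul, mul_assoc]
  set l0 : Fin Λ.card := e ⟨lam i0 ^ T, hlamΛ i0 hi0⟩ with hl0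
  have hμl0 : μ l0 = lam i0 ^ T := by
    rw [hμ, hl0]
    simp only [Equiv.symm_apply_apply]
  have hccl0 : cc l0 ≠ 0 := by
    have h1 : D.filter (fun i => lam i ^ T = μ l0) = {i0} := by
      ext i
      rw [Finset.mem_filter, Finset.mem_singleton, hμl0]
      constructor
      · rintro ⟨h1, h2⟩
        by_contra hne
        exact hnd i h1 i0 hi0 hne T hT h2
      · rintro rfl
        exact ⟨hi0, rfl⟩
    rw [hcc]
    simp only
    rw [h1, Finset.sum_singleton]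
    exact mul_ne_zero hc (pow_ne_zero _ (hlam i0 hi0))
  have hψ : Function.Injective ψ := ψ.injective
  have hiint : IsIntegral ℤ iK := by
    have h1 : iK ^ 2 = -1 := by
      apply hψ
      rw [map_pow, hi, Complex.I_sq, map_neg, map_one]
    refine IsIntegral.of_pow (n := 2) (by norm_num) ?_
    rw [h1]
    exact isIntegral_one.neg
  obtain ⟨N0, hN0⟩ := h (𝓞 K) (ψ.comp (algebraMap (𝓞 K) K)) (sg cj) (fun x => hcj x)
    ⟨iK, hiint⟩ hi Λ.card μ (by
      intro i j hij k hk heq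
      apply hij
      obtain ⟨a, ha, ha'⟩ := Finset.mem_image.1 (hμmem i)
      obtain ⟨b, hb, hb'⟩ := Finset.mem_image.1 (hμmem j)
      have h1 : a ^ T = b ^ T := by
        apply hTL a ha b hb
        refine ⟨T * k, Nat.mul_pos hT hk, ?_⟩
        rw [pow_mul, pow_mul]
        rw [ha', hb', heq]
      have h2 : μ i = μ j := by
        rw [← ha', ← hb']
        exact h1
      exact e.symm.injective (Subtype.ext h2))
    (by
      intro i
      obtain ⟨a, ha, ha'⟩ := Finset.mem_image.1 (hμmem i)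
      obtain ⟨τ, i', hi', rfl⟩ := hLmem a ha
      rw [← ha']
      refine pow_ne_zero _ fun h0 => hlam i' hi' ?_
      apply sg_inj τ
      rw [h0, map_zero])
    (fun j => p j) (by
      intro i
      rw [hp (μ i) (hμmem i), Finset.sum_range])
    cc l0 hccl0 (R ^ T) (Q * R ^ m0) (by positivity) (by positivity) (by
      rw [hμl0, map_pow, norm_pow]
      exact pow_lt_pow_left₀ hRi hR.le (by omega))
  obtain ⟨k, hk, hB⟩ := hm0 N0
  have h3 := hN0 k hk
  rw [key k] at h3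
  have h4 : Q * R ^ m0 * (R ^ T) ^ k = Q * R ^ (m0 + T * k) := by
    rw [pow_add, pow_mul, mul_assoc]
  rw [h4] at h3
  exact absurd hB (not_le.2 h3)

end field

open NumberField in
theorem growD (h : ∀ (O : Type) [CommRing O] [IsDomain O] [Module.Free ℤ O] [Module.Finite ℤ O]
    (φ : O →+* ℂ), GrowOStmt O φ) : GrowthTheorem := by
  classical
  intro D lam c halg hnd R hR0 hex
  obtain ⟨i0, hi0, hRi⟩ := hex
  obtain ⟨K, hfd, hnorm, hK⟩ := exists_field (D.image lam ∪ D.image c ∪ {Complex.I}) (by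
    intro x hx
    rw [Finset.mem_union, Finset.mem_union, Finset.mem_image, Finset.mem_image,
      Finset.mem_singleton] at hx
    rcases hx with (⟨i, hi, rfl⟩ | ⟨i, hi, rfl⟩) | rfl
    · exact (halg i hi).1
    · exact (halg i hi).2.1
    · exact Complex.isIntegral_rat_I.isAlgebraic)
  have hlamK : ∀ i ∈ D, lam i ∈ K := fun i hi => hK _ (Finset.mem_union_left _
    (Finset.mem_union_left _ (Finset.mem_image_of_mem _ hi)))
  have hcK : ∀ i ∈ D, c i ∈ K := fun i hi => hK _ (Finset.mem_union_left _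
    (Finset.mem_union_right _ (Finset.mem_image_of_mem _ hi)))
  have hIK : Complex.I ∈ K := hK _ (Finset.mem_union_right _ (Finset.mem_singleton_self _))
  have : NumberField K := { to_charZero := inferInstance, to_finiteDimensional := hfd }
  have : IsGalois ℚ K := { to_isSeparable := inferInstance, to_normal := hnorm }
  set ψ : K →+* ℂ := algebraMap K ℂ with hψ
  set cj : K ≃ₐ[ℚ] K := AlgEquiv.restrictNormal (Complex.conjAe.restrictScalars ℚ) K with hcj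
  have hcj' : ∀ x, ψ (cj x) = (starRingEnd ℂ) (ψ x) := fun x =>
    AlgEquiv.restrictNormal_commutes (Complex.conjAe.restrictScalars ℚ) K x
  set S : Finset K := ((Finset.univ : Finset D).image fun i : D => (⟨lam i, hlamK i i.2⟩ : K)) ∪
    ((Finset.univ : Finset D).image fun i : D => (⟨c i, hcK i i.2⟩ : K)) with hS
  obtain ⟨y, hy0, hy⟩ := exists_integral_multiples ℤ ℚ S
  set q : ℕ := y.natAbs * y.natAbs with hq
  have hq0 : 0 < q := Nat.mul_pos (Int.natAbs_pos.2 hy0) (Int.natAbs_pos.2 hy0)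
  have hint : ∀ x ∈ S, IsIntegral ℤ ((q : K) * x) := by
    intro x hx
    have h1 : (q : K) * x = ((y : ℤ) : K) * (y • x) := by
      have h2 : ((q : ℕ) : ℤ) = y * y := Int.natAbs_mul_self
      have h3 : (q : K) = (y : K) * (y : K) := by
        rw [← Int.cast_mul, ← h2, Int.cast_natCast]
      rw [zsmul_eq_mul, ← mul_assoc, h3]
    rw [h1]
    exact (isIntegral_algebraMap (R := ℤ) (A := K) (x := y)).mul (hy x hx)
  set φ : 𝓞 K →+* ℂ := ψ.comp (algebraMap (𝓞 K) K) with hφ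
  have hL : ∀ i, ∃ l : 𝓞 K, i ∈ D → φ l = (q : ℂ) * lam i := by
    intro i
    by_cases hi : i ∈ D
    · refine ⟨⟨(q : K) * ⟨lam i, hlamK i hi⟩, hint _ ?_⟩, fun _ => ?_⟩
      · exact Finset.mem_union_left _ (Finset.mem_image.2 ⟨⟨i, hi⟩, Finset.mem_univ _, rfl⟩)
      · show ψ ((q : K) * ⟨lam i, hlamK i hi⟩) = _
        rw [map_mul, map_natCast]
        rfl
    · exact ⟨0, fun h => absurd h hi⟩
  have hC : ∀ i, ∃ l : 𝓞 K, i ∈ D → φ l = (q : ℂ) * c i := by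
    intro i
    by_cases hi : i ∈ D
    · refine ⟨⟨(q : K) * ⟨c i, hcK i hi⟩, hint _ ?_⟩, fun _ => ?_⟩
      · exact Finset.mem_union_right _ (Finset.mem_image.2 ⟨⟨i, hi⟩, Finset.mem_univ _, rfl⟩)
      · show ψ ((q : K) * ⟨c i, hcK i hi⟩) = _
        rw [map_mul, map_natCast]
        rfl
    · exact ⟨0, fun h => absurd h hi⟩
  choose lamO hlamO using hL
  choose cO hcO using hC
  have hqC : (q : ℂ) ≠ 0 := by exact_mod_cast hq0.ne'
  have hqR : (0 : ℝ) < q := by exact_mod_cast hq0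
  have hlam0 : ∀ i ∈ D, lamO i ≠ 0 := by
    intro i hi h0
    have h1 := hlamO i hi
    rw [h0, map_zero] at h1
    rcases mul_eq_zero.1 h1.symm with h2 | h2
    · exact hqC h2
    · exact (halg i hi).2.2.1 h2
  have hc0 : cO i0 ≠ 0 := by
    intro h0
    have h1 := hcO i0 hi0
    rw [h0, map_zero] at h1
    rcases mul_eq_zero.1 h1.symm with h2 | h2
    · exact hqC h2
    · exact (halg i0 hi0).2.2.2 h2
  have hndO : ∀ i ∈ D, ∀ i' ∈ D, i ≠ i' → ∀ t : ℕ, 1 ≤ t → lamO i ^ t ≠ lamO i' ^ t := by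
    intro i hi i' hi' hne t ht heq
    have h1 : φ (lamO i ^ t) = φ (lamO i' ^ t) := by rw [heq]
    rw [map_pow, map_pow, hlamO i hi, hlamO i' hi', mul_pow, mul_pow] at h1
    exact hnd i hi i' hi' hne t ht (mul_left_cancel₀ (pow_ne_zero _ hqC) h1)
  have hn0 : 0 < ‖lam i0‖ := norm_pos_iff.2 (halg i0 hi0).2.2.1
  set R1 : ℝ := max R (‖lam i0‖ / 2) with hR1
  have hR1pos : 0 < R1 := lt_of_lt_of_le (half_pos hn0) (le_max_right _ _)
  have hR1lt : R1 < ‖lam i0‖ := max_lt hRi (half_lt_self hn0)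
  obtain ⟨N, hN⟩ := growth h ψ cj hcj' ⟨Complex.I, hIK⟩ rfl D lamO cO hlam0 hndO (q * R1)
    (mul_pos hqR hR1pos) q hqR i0 hi0 hc0 (by
      show q * R1 < ‖φ (lamO i0)‖
      rw [hlamO i0 hi0, norm_mul, Complex.norm_natCast]
      exact mul_lt_mul_of_pos_left hR1lt hqR)
  refine ⟨N, fun n hn => ?_⟩
  have h1 : (q : ℝ) * (q * R1) ^ n < ‖φ (∑ i ∈ D, cO i * lamO i ^ n)‖ := hN n hn
  have h2 : φ (∑ i ∈ D, cO i * lamO i ^ n) =
      (q : ℂ) ^ (n + 1) * ∑ i ∈ D, c i * lam i ^ n := by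
    rw [map_sum, Finset.mul_sum]
    refine Finset.sum_congr rfl fun i hi => ?_
    rw [map_mul, map_pow, hlamO i hi, hcO i hi]
    ring
  rw [h2, norm_mul, norm_pow, Complex.norm_natCast] at h1
  have h3 : (q : ℝ) * (q * R1) ^ n = (q : ℝ) ^ (n + 1) * R1 ^ n := by ring
  rw [h3] at h1
  have h4 : R1 ^ n < ‖∑ i ∈ D, c i * lam i ^ n‖ :=
    lt_of_mul_lt_mul_left h1 (by positivity)
  exact lt_of_le_of_lt (pow_le_pow_left₀ hR0 (le_max_left _ _) n) h4

end Pool.Agent.TH286.GT.GrowD
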