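import Mathlib
import Pool.Agent.TH286.GT.PowO
import Pool.Agent.H612.LR.T_SML

/-!
Project GT, D2: growth of sums of powers of a nondegenerate family of numbers which is the set of
roots of an integer polynomial.
-/

set_option autoImplicit false

open Finset Filter Topology Matrix

namespace Pool.Agent.TH286.GT.GrowO

open Pool.Agent.TH286.GT Pool.Agent.TH286.GT.PowO Pool.Agent.H612.LR

theorem growO (O : Type) [CommRing O] [IsDomain O] [Module.Free ℤ O] [Module.Finite ℤ O]
    (φ : O →+* ℂ) (hpow : PowOStmt O φ) : GrowOStmt O φ := by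
  intro st hst iO hi n μ hnd hμ0 p hp c i0 hc0 R K0 hR hK0 hRμ
  have : CharZero O := RingHom.charZero φ
  by_contra hcon
  push Not at hcon
  choose nn hnn hle using hcon
  have htend : Tendsto nn atTop atTop := tendsto_atTop_mono hnn tendsto_id
  have hμ : Function.Injective μ := by
    intro i j h
    by_contra hij
    exact hnd i j hij 1 le_rfl (by rw [h])
  obtain ⟨y, hy, hfr⟩ := hpow st hst iO hi n μ hμ hμ0 p hp c i0 hc0 R K0 hR hK0 hRμ nn htend hle
  obtain ⟨f, hfd⟩ : ∃ f : ℕ → ℤ, ∀ m, f m = ∑ j, y j * XX p m j := ⟨_, fun _ => rfl⟩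
  have hf : ∀ m, ((f m : ℤ) : O) = ∑ j, ((y j : ℤ) : O) * ∑ i, μ i ^ (m + j) := by
    intro m
    rw [hfd, Int.cast_sum]
    refine Finset.sum_congr rfl fun j _ => ?_
    rw [Int.cast_mul, XX, trace_eq μ hμ p hp]
  have hf2 : ∀ m, ((f m : ℤ) : O) = ∑ i, (∑ j, ((y j : ℤ) : O) * μ i ^ (j : ℕ)) * μ i ^ m := by
    intro m
    rw [hf]
    simp only [Finset.mul_sum, Finset.sum_mul]
    rw [Finset.sum_comm]
    refine Finset.sum_congr rfl fun i _ => Finset.sum_congr rfl fun j _ => ?_
    rw [pow_add]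
    ring
  have hrecO : ∀ m, f (m + n) = ∑ j : Fin n, p j * f (m + j) := by
    intro m
    apply Int.cast_injective (α := O)
    rw [Int.cast_sum, hf2]
    have e1 : ∀ j : Fin n, (((p j * f (m + j) : ℤ)) : O) =
        ∑ i, (∑ j, ((y j : ℤ) : O) * μ i ^ (j : ℕ)) * μ i ^ m * (((p j : ℤ) : O) * μ i ^ (j : ℕ)) := by
      intro j
      rw [Int.cast_mul, hf2, Finset.mul_sum]
      refine Finset.sum_congr rfl fun i _ => ?_
      rw [pow_add]
      ring
    rw [Finset.sum_congr rfl fun j _ => e1 j, Finset.sum_comm]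
    refine Finset.sum_congr rfl fun i _ => ?_
    rw [← Finset.mul_sum, ← hp i, pow_add]
    ring
  have hrec : ∀ m, f (m + n) = ∑ i ∈ Finset.range n,
      (fun i => if h : n - 1 - i < n then p ⟨n - 1 - i, h⟩ else 0) i * f (m + n - 1 - i) := by
    intro m
    have e2 : ∑ j : Fin n, p j * f (m + j) =
        ∑ i ∈ Finset.range n, (if h : i < n then p ⟨i, h⟩ else 0) * f (m + i) := by
      rw [Finset.sum_range]
      refine Finset.sum_congr rfl fun j _ => ?_
      rw [dif_pos j.2]
    rw [hrecO, e2, ← Finset.sum_range_reflect]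
    refine Finset.sum_congr rfl fun i hi => ?_
    rw [Finset.mem_range] at hi
    have e3 : m + (n - 1 - i) = m + n - 1 - i := by omega
    rw [e3]
  obtain ⟨d, K, G, hbd⟩ := SML_bd f _ n hrec
  obtain ⟨n0, T, -, hT, hzero⟩ := SML_zeros f d K G n hbd (by
    intro N
    obtain ⟨t, ht1, ht2⟩ := (hfr.and_eventually (htend.eventually_ge_atTop N)).exists
    refine ⟨nn t, ht2, ?_⟩
    apply Int.cast_injective (α := O)
    rw [hf, ht1, Int.cast_zero])
  -- the coefficients vanish
  have hdetT : (vd (fun i => μ i ^ T)).det ≠ 0 := by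
    apply vd_det_ne
    intro i j h
    by_contra hij
    exact hnd i j hij T hT h
  have hw : (fun i => (∑ j, ((y j : ℤ) : O) * μ i ^ (j : ℕ)) * μ i ^ n0) = 0 := by
    apply Matrix.eq_zero_of_mulVec_eq_zero hdetT
    funext t
    have h1 := hf2 (n0 + T * t)
    rw [hzero t, Int.cast_zero] at h1
    rw [Pi.zero_apply, h1, Matrix.mulVec, dotProduct]
    refine Finset.sum_congr rfl fun i _ => ?_
    rw [vd, pow_add, pow_mul]
    ring
  have hg : ∀ i, ∑ j, ((y j : ℤ) : O) * μ i ^ (j : ℕ) = 0 := by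
    intro i
    have h1 := congrFun hw i
    exact (mul_eq_zero.1 h1).resolve_right (pow_ne_zero _ (hμ0 i))
  have hy0 : (fun j => ((y j : ℤ) : O)) = 0 := by
    apply Matrix.eq_zero_of_vecMul_eq_zero (vd_det_ne μ hμ)
    funext i
    rw [Pi.zero_apply, ← hg i, Matrix.vecMul, dotProduct]
    rfl
  apply hy
  funext j
  have h1 := congrFun hy0 j
  apply Int.cast_injective (α := O)
  rw [Pi.zero_apply, Int.cast_zero]
  exact h1

end Pool.Agent.TH286.GT.GrowO
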