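import Pool.Agent.TH286.GT.Alg
import Pool.Agent.TH286.GT.AuxO
import Pool.Agent.TH286.GT.ExpandO
import Pool.Agent.TH286.GT.VanD
import Pool.Agent.TH286.GT.EstO
import Pool.Agent.TH286.GT.CoreO
import Pool.Agent.TH286.GT.DichO
import Pool.Agent.TH286.GT.PenO
import Pool.Agent.TH286.GT.RedO
import Pool.Agent.TH286.GT.SubO
import Pool.Agent.TH286.GT.GrowO
import Pool.Agent.TH286.GT.GrowD
import Pool.Agent.TH461.SST.Hp
import Pool.Agent.TH461.SST.CB
import Pool.Agent.TH461.SST.SF
import Pool.Agent.TH461.SST.Gap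
import Pool.Agent.TH461.SST.Comp

/-!
# Project GT: the subspace theorem for orbits and the growth theorem
-/

set_option autoImplicit false

namespace Pool.Agent.TH286.GT

open Pool.Agent.TH461.SST (HeightPairStmt CBStmt SFStmt GapStmt CompStmt)

theorem cb : CBStmt := Pool.Agent.TH461.SST.CB.cb
theorem sf : SFStmt := Pool.Agent.TH461.SST.SF.sf cb
theorem gap : GapStmt := Pool.Agent.TH461.SST.Gap.gap
theorem comp : CompStmt := Pool.Agent.TH461.SST.Comp.comp cb sf
theorem hp : HeightPairStmt := Pool.Agent.TH461.SST.Hp.height_pair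

/-- the subspace theorem with algebraic forms for the points of the lattices `B_t ℤ^n` -/
theorem subspaceO (O : Type) [CommRing O] [IsDomain O] [Module.Free ℤ O] [Module.Finite ℤ O]
    (φ : O →+* ℂ) : SubOStmt O φ :=
  SubO.subO O φ (PenO.penO O φ (CoreO.coreO O φ (AuxO.auxO O φ)
    (VanD.vanishO O φ (ExpandO.expandO O)) (EstO.estO O)) hp (DichO.dichO O φ (Alg.ht O φ)))
    cb sf (RedO.redO O φ cb sf gap comp)

/-- the growth theorem of Evertse and of van der Poorten and Schlickewei -/
theorem growth : Pool.Agent.H612.LR.GrowthTheorem :=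
  GrowD.growD fun O _ _ _ _ φ => GrowO.growO O φ (PowO.powO O φ (subspaceO O φ))

end Pool.Agent.TH286.GT
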