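import Pool.Agent.H612.LR.T_CLC

/-!
# Level data for recurrences whose multiple roots are small, given the growth theorem

This generalises `Pool.Agent.H612.LR.t_CLC` from simple recurrences.
-/

set_option autoImplicit false

namespace Pool.Agent.TH286.GT.CLD

open Polynomial Filter Topology Pool.Agent.H612.LR Pool.Agent.H612.LR.CLCaux

/-- a polynomial times a power against a larger power -/
theorem poly_exp (k a b : ℕ) (A μ R : ℝ) (hμ : 0 ≤ μ) (hR : μ < R) :
    ∃ N : ℕ, ∀ t : ℕ, N ≤ t → A * ((a + b * t + 1 : ℕ) : ℝ) ^ k * μ ^ t < R ^ t := by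
  have hR0 : 0 < R := lt_of_le_of_lt hμ hR
  set q : ℝ := (1 + μ / R) / 2 with hq
  have h1 : μ / R < 1 := (div_lt_one hR0).2 hR
  have h0 : 0 ≤ μ / R := by positivity
  have hq0 : 0 < q := by rw [hq]; linarith
  have hq1 : q < 1 := by rw [hq]; linarith
  have hqq : μ / R ≤ q := by rw [hq]; linarith
  have hlim := (tendsto_pow_const_mul_const_pow_of_abs_lt_one k
    (by rw [abs_of_pos hq0]; exact hq1 : |q| < 1)).comp (tendsto_add_atTop_nat 1)
  have hlim2 := hlim.const_mul (|A| * ((a + b + 1 : ℕ) : ℝ) ^ k / q)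
  rw [mul_zero] at hlim2
  obtain ⟨N, hN⟩ := Filter.eventually_atTop.1 (hlim2.eventually (gt_mem_nhds zero_lt_one))
  refine ⟨N, fun t ht => ?_⟩
  have h2 := hN t ht
  simp only [Function.comp] at h2
  have h3 : ((a + b * t + 1 : ℕ) : ℝ) ≤ ((a + b + 1 : ℕ) : ℝ) * ((t + 1 : ℕ) : ℝ) := by
    have : a + b * t + 1 ≤ (a + b + 1) * (t + 1) := by nlinarith
    exact_mod_cast this
  have h4 : A * ((a + b * t + 1 : ℕ) : ℝ) ^ k * μ ^ t ≤
      (|A| * ((a + b + 1 : ℕ) : ℝ) ^ k / q * (((t + 1 : ℕ) : ℝ) ^ k * q ^ (t + 1))) * R ^ t := by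
    have e1 : μ ^ t = (μ / R) ^ t * R ^ t := by
      rw [← mul_pow, div_mul_cancel₀ _ hR0.ne']
    have e2 : (μ / R) ^ t ≤ q ^ t := pow_le_pow_left₀ h0 hqq t
    calc A * ((a + b * t + 1 : ℕ) : ℝ) ^ k * μ ^ t
        ≤ |A| * (((a + b + 1 : ℕ) : ℝ) * ((t + 1 : ℕ) : ℝ)) ^ k * (q ^ t * R ^ t) := by
          rw [e1]
          have e3 : A * ((a + b * t + 1 : ℕ) : ℝ) ^ k ≤
              |A| * (((a + b + 1 : ℕ) : ℝ) * ((t + 1 : ℕ) : ℝ)) ^ k := by
            refine mul_le_mul (le_abs_self A) (pow_le_pow_left₀ (by positivity) h3 k)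
              (by positivity) (abs_nonneg _)
          refine mul_le_mul e3 ?_ (by positivity) (by positivity)
          exact mul_le_mul_of_nonneg_right e2 (by positivity)
      _ = _ := by
          rw [mul_pow, pow_succ q t]
          field_simp
  refine lt_of_le_of_lt h4 ?_
  have h5 : (0 : ℝ) < R ^ t := by positivity
  calc _ < 1 * R ^ t := mul_lt_mul_of_pos_right h2 h5
    _ = R ^ t := one_mul _

/-- the hypothesis on the multiple roots -/
def SmallMult (l : Rec) (lam : ℕ → ℂ) (c : ℕ → ℕ → ℂ) : Prop :=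
  ∀ i < l.length, (∃ j < l.length, 0 < j ∧ c i j ≠ 0) → ∀ a b : ℕ, 1 ≤ b →
    ∃ r : ℝ, ‖lam i‖ < r ∧ ∀ C : ℝ, ∃ t : ℕ,
      C * r ^ (a + b * t) < |((seq l (a + b * t) : ℚ) : ℝ)|

theorem t_CLD (hG : GrowthTheorem) (l : Rec) (lam : ℕ → ℂ) (c : ℕ → ℕ → ℂ) (q0 : ℕ)
    (hk : 1 ≤ l.length) (hrep : Rep l lam c)
    (hroot : ∀ i < l.length, (∃ j < l.length, c i j ≠ 0) → IsRoot l (lam i))
    (hsm : SmallMult l lam c)
    (halg : ∀ i < l.length, IsAlgebraic ℚ (c i 0)) (hq0 : 1 ≤ q0)
    (htor : ∀ z w : ℂ, IsRoot l z → IsRoot l w → z ≠ 0 → w ≠ 0 → ∀ t : ℕ, 1 ≤ t →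
      z ^ t = w ^ t → z ^ q0 = w ^ q0)
    (hnp : ¬ UltPositive l) : ∃ d : CD, d.lam = lam ∧ d.c = c ∧ d.q = q0 ∧ d.Pre l := by
  classical
  unfold SmallMult at hsm
  set k := l.length with hkdef
  set Bad : Finset ℕ := (Finset.range k).filter (fun i => ∃ j < k, 0 < j ∧ c i j ≠ 0) with hBad
  set MS0 : Finset ℝ := insert 0 (Bad.image fun i => ‖lam i‖) with hMS0
  have hMS0ne : MS0.Nonempty := ⟨0, Finset.mem_insert_self _ _⟩
  obtain ⟨M, hMd⟩ : ∃ M : ℝ, M = MS0.max' hMS0ne := ⟨_, rfl⟩
  have hM0 : 0 ≤ M := by rw [hMd]; exact Finset.le_max' _ _ (Finset.mem_insert_self _ _)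
  have hMBad : ∀ i ∈ Bad, ‖lam i‖ ≤ M := by
    intro i hi
    rw [hMd]
    exact Finset.le_max' MS0 _ (Finset.mem_insert_of_mem (Finset.mem_image_of_mem _ hi))
  have hMmem : Bad.Nonempty → ∃ i ∈ Bad, ‖lam i‖ = M := by
    intro hne
    have h1 := Finset.max'_mem MS0 hMS0ne
    rw [← hMd] at h1
    rcases Finset.mem_insert.1 h1 with h | h
    · obtain ⟨i, hi⟩ := hne
      refine ⟨i, hi, le_antisymm (hMBad i hi) ?_⟩
      rw [h]
      exact norm_nonneg _
    · obtain ⟨i, hi, hie⟩ := Finset.mem_image.1 h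
      exact ⟨i, hi, hie⟩
  have hbig0 : ∀ i < k, M < ‖lam i‖ → ∀ j < k, 0 < j → c i j = 0 := by
    intro i hi hMi j hj hj0
    by_contra h
    have : i ∈ Bad := Finset.mem_filter.2 ⟨Finset.mem_range.2 hi, j, hj, hj0, h⟩
    exact absurd (hMBad i this) (not_le.2 hMi)
  set Act : Finset ℕ := (Finset.range k).filter (fun i => c i 0 ≠ 0 ∧ M < ‖lam i‖) with hAct
  have hActk : ∀ i ∈ Act, i < k := fun i hi => Finset.mem_range.1 (Finset.mem_filter.1 hi).1
  have hActc : ∀ i ∈ Act, c i 0 ≠ 0 := fun i hi => (Finset.mem_filter.1 hi).2.1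
  have hActM : ∀ i ∈ Act, M < ‖lam i‖ := fun i hi => (Finset.mem_filter.1 hi).2.2
  have hActn : ∀ i < k, M < ‖lam i‖ → i ∉ Act → c i 0 = 0 := by
    intro i hi hMi hn
    by_contra h
    exact hn (Finset.mem_filter.2 ⟨Finset.mem_range.2 hi, h, hMi⟩)
  have hActroot : ∀ i ∈ Act, IsRoot l (lam i) := fun i hi =>
    hroot i (hActk i hi) ⟨0, hk, hActc i hi⟩
  have hlam0 : ∀ i < k, lam i ≠ 0 := (hrep 0).1
  obtain ⟨κ, hκ1, hκ2, hκ3⟩ := exists_kappa Act (fun i => lam i ^ q0)
  have hκk : ∀ i < k, κ i < k ∧ lam i ^ q0 = lam (κ i) ^ q0 := by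
    intro i hi
    by_cases h : i ∈ Act
    · exact ⟨hActk _ (hκ1 i h).1, (hκ1 i h).2.symm⟩
    · rw [hκ3 i h]
      exact ⟨hi, rfl⟩
  obtain ⟨r, hr⟩ := pigeon l q0 hq0 hnp
  set SS : ℕ → ℕ → ℂ := fun s n => ∑ i ∈ Act.filter (fun i => κ i = s), c i 0 * lam i ^ n
    with hSS
  have hSSt : ∀ s t, SS s (r + q0 * t) = SS s r * (lam s ^ q0) ^ t := by
    intro s t
    simp only [hSS]
    rw [Finset.sum_mul]
    refine Finset.sum_congr rfl fun i hi => ?_
    obtain ⟨hi1, hi2⟩ := Finset.mem_filter.1 hi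
    have h1 : lam s ^ q0 = lam i ^ q0 := by
      have := (hκ1 i hi1).2
      rw [hi2] at this
      exact this
    rw [h1, pow_add, pow_mul]
    ring
  -- the sequence
  obtain ⟨LL, hLL⟩ : ∃ LL : ℕ → ℂ, ∀ n, LL n = ∑ i ∈ (Finset.range k).filter
      (fun i => ¬ M < ‖lam i‖), ∑ j ∈ Finset.range k, c i j * (n.choose j : ℂ) * lam i ^ n :=
    ⟨_, fun _ => rfl⟩
  obtain ⟨A0, hA0d⟩ : ∃ A0 : ℝ, A0 = ∑ i ∈ Finset.range k, ∑ j ∈ Finset.range k, ‖c i j‖ :=
    ⟨_, rfl⟩
  have hA00 : 0 ≤ A0 := by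
    rw [hA0d]
    exact Finset.sum_nonneg fun _ _ => Finset.sum_nonneg fun _ _ => norm_nonneg _
  have hLLb : ∀ n, ‖LL n‖ ≤ A0 * ((n + 1 : ℕ) : ℝ) ^ k * M ^ n := by
    intro n
    rw [hLL, hA0d, Finset.sum_mul, Finset.sum_mul]
    refine (norm_sum_le _ _).trans ?_
    refine (Finset.sum_le_sum (f := fun i => ‖∑ j ∈ Finset.range k,
      c i j * (n.choose j : ℂ) * lam i ^ n‖)
      (g := fun i => (∑ j ∈ Finset.range k, ‖c i j‖) * ((n + 1 : ℕ) : ℝ) ^ k * M ^ n)
      fun i hi => ?_).trans ?_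
    · have hiM : ‖lam i‖ ≤ M := not_lt.1 (Finset.mem_filter.1 hi).2
      rw [Finset.sum_mul, Finset.sum_mul]
      refine (norm_sum_le _ _).trans (Finset.sum_le_sum fun j hj => ?_)
      have hjk : j ≤ k := (Finset.mem_range.1 hj).le
      rw [norm_mul, norm_mul, norm_pow, Complex.norm_natCast]
      have h1 : ((n.choose j : ℕ) : ℝ) ≤ ((n + 1 : ℕ) : ℝ) ^ k := by
        have h2 : n.choose j ≤ (n + 1) ^ k :=
          (Nat.choose_le_pow n j).trans ((Nat.pow_le_pow_left (Nat.le_succ n) j).trans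
            (Nat.pow_le_pow_right (Nat.succ_pos n) hjk))
        exact_mod_cast h2
      have h3 : ‖lam i‖ ^ n ≤ M ^ n := pow_le_pow_left₀ (norm_nonneg _) hiM n
      gcongr
    · refine Finset.sum_le_sum_of_subset_of_nonneg (Finset.filter_subset _ _) fun i _ _ => ?_
      have : 0 ≤ ∑ j ∈ Finset.range k, ‖c i j‖ := Finset.sum_nonneg fun _ _ => norm_nonneg _
      positivity
  have hval : ∀ n, k ≤ n → ((seq l n : ℚ) : ℂ) = ∑ i ∈ Act, c i 0 * lam i ^ n + LL n := by
    intro n hn
    rw [(hrep (n + 1)).2.2 n hn (Nat.lt_succ_self n), hLL]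
    unfold expo
    rw [← Finset.sum_filter_add_sum_filter_not (Finset.range k) (fun i => M < ‖lam i‖)]
    congr 1
    rw [hAct]
    have e1 : (Finset.range k).filter (fun i => c i 0 ≠ 0 ∧ M < ‖lam i‖) =
        ((Finset.range k).filter (fun i => M < ‖lam i‖)).filter (fun i => c i 0 ≠ 0) := by
      rw [Finset.filter_filter]
      refine Finset.filter_congr fun i _ => ?_
      exact and_comm
    rw [e1]
    symm
    rw [Finset.sum_filter]
    refine Finset.sum_congr rfl fun i hi => ?_
    symm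
    have hi' : i < k := Finset.mem_range.1 (Finset.mem_filter.1 hi).1
    have hiM : M < ‖lam i‖ := (Finset.mem_filter.1 hi).2
    rw [Finset.sum_eq_single_of_mem 0 (Finset.mem_range.2 hk)]
    · rw [Nat.choose_zero_right, Nat.cast_one, mul_one]
      split_ifs with h
      · rfl
      · rw [not_not] at h
        rw [h, zero_mul]
    · intro j hj hj0
      rw [hbig0 i hi' hiM j (Finset.mem_range.1 hj) (Nat.pos_of_ne_zero hj0), zero_mul, zero_mul]
  clear_value Act
  have hval2 : ∀ t, k ≤ r + q0 * t → ((seq l (r + q0 * t) : ℚ) : ℂ) =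
      ∑ s ∈ Act, SS s r * (lam s ^ q0) ^ t + LL (r + q0 * t) := by
    intro t ht
    rw [hval _ ht, ← Finset.sum_fiberwise_of_maps_to (fun i hi => (hκ1 i hi).1)]
    congr 1
    refine Finset.sum_congr rfl fun s _ => ?_
    rw [← hSSt]
  have hSS0 : ∀ s, s ∉ Act → SS s r = 0 := by
    intro s hs
    simp only [hSS]
    refine Finset.sum_eq_zero fun i hi => ?_
    obtain ⟨hi1, hi2⟩ := Finset.mem_filter.1 hi
    exact absurd (hi2 ▸ (hκ1 i hi1).1) hs
  set T : Finset ℕ := Act.filter (fun s => SS s r ≠ 0) with hT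
  rcases Finset.eq_empty_or_nonempty T with hTe | hTne
  · -- everything cancels
    have hSSz : ∀ s, SS s r = 0 := by
      intro s
      by_cases hs : s ∈ Act
      · by_contra h
        have : s ∈ T := Finset.mem_filter.2 ⟨hs, h⟩
        rw [hTe] at this
        exact absurd this (Finset.notMem_empty s)
      · exact hSS0 s hs
    have hBe : Bad = ∅ := by
      by_contra hBn
      obtain ⟨i1, hi1, hi1M⟩ := hMmem (Finset.nonempty_iff_ne_empty.2 hBn)
      obtain ⟨hi1a, hi1b⟩ := Finset.mem_filter.1 hi1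
      obtain ⟨r', hr', hC⟩ := hsm i1 (Finset.mem_range.1 hi1a) hi1b r q0 hq0
      rw [hi1M] at hr'
      have hr0 : 0 < r' := lt_of_le_of_lt hM0 hr'
      obtain ⟨N, hN⟩ := poly_exp k 0 1 A0 M r' hM0 hr'
      obtain ⟨t, ht⟩ := hC (1 + ∑ n ∈ Finset.range (N + k), |((seq l n : ℚ) : ℝ)| / r' ^ n)
      have hsum0 : 0 ≤ ∑ n ∈ Finset.range (N + k), |((seq l n : ℚ) : ℝ)| / r' ^ n :=
        Finset.sum_nonneg fun _ _ => by positivity
      have hpos : 0 < r' ^ (r + q0 * t) := by positivity
      rcases lt_or_ge (r + q0 * t) (N + k) with hlt | hge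
      · have h1 : |((seq l (r + q0 * t) : ℚ) : ℝ)| / r' ^ (r + q0 * t) ≤
            ∑ n ∈ Finset.range (N + k), |((seq l n : ℚ) : ℝ)| / r' ^ n :=
          Finset.single_le_sum (f := fun n => |((seq l n : ℚ) : ℝ)| / r' ^ n)
            (fun _ _ => by positivity) (Finset.mem_range.2 hlt)
        rw [div_le_iff₀ hpos] at h1
        nlinarith
      · have h1 := hval2 t (by omega)
        rw [Finset.sum_eq_zero (fun s _ => by rw [hSSz s, zero_mul]), zero_add] at h1
        have h2 : |((seq l (r + q0 * t) : ℚ) : ℝ)| = ‖LL (r + q0 * t)‖ := by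
          rw [← h1, ← Complex.ofReal_ratCast, Complex.norm_real, Real.norm_eq_abs]
        have h3 := hLLb (r + q0 * t)
        have h4 := hN (r + q0 * t) (by omega)
        rw [zero_add, one_mul] at h4
        rw [h2] at ht
        nlinarith
    have hsimple : ∀ i < k, ∀ j < k, 0 < j → c i j = 0 := by
      intro i hi j hj hj0
      by_contra h
      have : i ∈ Bad := Finset.mem_filter.2 ⟨Finset.mem_range.2 hi, j, hj, hj0, h⟩
      rw [hBe] at this
      exact absurd this (Finset.notMem_empty i)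
    have hM00 : M = 0 := by
      have h1 := Finset.max'_mem MS0 hMS0ne
      rw [← hMd] at h1
      rcases Finset.mem_insert.1 h1 with h | h
      · exact h
      · rw [hBe] at h
        simp at h
    refine ⟨{ lam := lam, c := c, ρ := 0, J := 0, m := r, q := q0, P := fun _ => 0,
              a := fun _ _ => 0, b := fun _ _ => 0, ζ := 1, ξ := fun _ => 1, x := fun _ => 1,
              h := fun _ _ => 1, fl := fun _ => 0, κ := κ }, rfl, rfl, rfl, ?_, hk, Or.inl rfl⟩
    refine ⟨le_refl _, hq0, fun i _ => Or.inl rfl, hκk, ?_, ?_⟩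
    · intro s hs j hj
      show ∑ i ∈ ((Finset.range k).filter fun i => (0 : ℕ) = 0).filter (fun i => κ i = s),
        c i j * lam i ^ r = 0
      rcases Nat.eq_zero_or_pos j with hj0 | hj0
      · subst hj0
        rw [← hSSz s]
        simp only [hSS]
        symm
        refine Finset.sum_subset ?_ ?_
        · intro i hi
          obtain ⟨hi1, hi2⟩ := Finset.mem_filter.1 hi
          exact Finset.mem_filter.2 ⟨Finset.mem_filter.2 ⟨Finset.mem_range.2 (hActk i hi1), trivial⟩, hi2⟩
        · intro i hi hn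
          obtain ⟨hi1, hi2⟩ := Finset.mem_filter.1 hi
          have hik : i < k := Finset.mem_range.1 (Finset.mem_filter.1 hi1).1
          have : i ∉ Act := fun h => hn (Finset.mem_filter.2 ⟨h, hi2⟩)
          rw [hActn i hik (by rw [hM00]; exact norm_pos_iff.2 (hlam0 i hik)) this, zero_mul]
      · refine Finset.sum_eq_zero fun i hi => ?_
        have hik : i < k := Finset.mem_range.1 (Finset.mem_filter.1 (Finset.mem_filter.1 hi).1).1
        rw [hsimple i hik j hj hj0, zero_mul]
    · intro s hs j hj hj0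
      refine Finset.sum_eq_zero fun i hi => ?_
      have hik : i < k := Finset.mem_range.1 (Finset.mem_filter.1 (Finset.mem_filter.1 hi).1).1
      show c i j * lam i ^ r = 0
      rw [hsimple i hik j hj hj0, zero_mul]
  · -- the top level
    obtain ⟨s0, hs0T, hs0max⟩ := Finset.exists_max_image T (fun s => ‖lam s‖) hTne
    set ρ : ℝ := ‖lam s0‖ with hρ
    have hs0A : s0 ∈ Act := (Finset.mem_filter.1 hs0T).1
    have hρ0 : 0 < ρ := norm_pos_iff.2 (hlam0 s0 (hActk s0 hs0A))
    have hMρ : M < ρ := hActM s0 hs0A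
    set fl : ℕ → ℕ := fun i => if ρ < ‖lam i‖ then 0 else if ‖lam i‖ < ρ then 2
      else if i ∈ Act then 1 else 0 with hfl
    have hfl1 : ∀ i, fl i = 1 ↔ ‖lam i‖ = ρ ∧ i ∈ Act := by
      intro i
      simp only [hfl]
      rcases lt_trichotomy (‖lam i‖) ρ with h | h | h
      · rw [if_neg (not_lt.2 h.le), if_pos h]
        simp [h.ne]
      · rw [if_neg (not_lt.2 h.le), if_neg (not_lt.2 h.ge)]
        by_cases hi : i ∈ Act
        · simp [hi, h]
        · simp [hi]
      · rw [if_pos h]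
        simp [h.ne']
    have hfl0 : ∀ i, fl i = 0 ↔ ρ < ‖lam i‖ ∨ (‖lam i‖ = ρ ∧ i ∉ Act) := by
      intro i
      simp only [hfl]
      rcases lt_trichotomy (‖lam i‖) ρ with h | h | h
      · rw [if_neg (not_lt.2 h.le), if_pos h]
        simp [h.ne, not_lt.2 h.le]
      · rw [if_neg (not_lt.2 h.le), if_neg (not_lt.2 h.ge)]
        by_cases hi : i ∈ Act
        · simp [hi, h]
        · simp [hi, h]
      · rw [if_pos h]
        simp [h]
    have hfl2 : ∀ i, fl i = 2 ↔ ‖lam i‖ < ρ := by
      intro i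
      simp only [hfl]
      rcases lt_trichotomy (‖lam i‖) ρ with h | h | h
      · rw [if_neg (not_lt.2 h.le), if_pos h]
        simp [h]
      · rw [if_neg (not_lt.2 h.le), if_neg (not_lt.2 h.ge)]
        by_cases hi : i ∈ Act
        · simp [hi, h]
        · simp [hi, h]
      · rw [if_pos h]
        simp [not_lt.2 h.le]
    -- same modulus in a class
    have hmod : ∀ i ∈ Act, ‖lam (κ i)‖ = ‖lam i‖ := by
      intro i hi
      have h1 : ‖lam (κ i)‖ ^ q0 = ‖lam i‖ ^ q0 := by
        rw [← norm_pow, ← norm_pow]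
        exact congrArg _ (hκ1 i hi).2
      exact (pow_left_inj₀ (norm_nonneg _) (norm_nonneg _) (by omega)).1 h1
    -- the cancellation above the top level
    have hbig : ∀ t s, ∑ i ∈ (Act.filter (fun i => ρ < ‖lam i‖)).filter (fun i => κ i = s),
        c i 0 * lam i ^ (r + q0 * t) = 0 := by
      intro t s
      by_cases hs : s ∈ Act ∧ ρ < ‖lam s‖
      · have h1 : (Act.filter (fun i => ρ < ‖lam i‖)).filter (fun i => κ i = s) =
            Act.filter (fun i => κ i = s) := by
          ext i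
          simp only [Finset.mem_filter]
          constructor
          · rintro ⟨⟨h1, _⟩, h2⟩
            exact ⟨h1, h2⟩
          · rintro ⟨h1, h2⟩
            refine ⟨⟨h1, ?_⟩, h2⟩
            rw [← hmod i h1, h2]
            exact hs.2
        rw [h1]
        have h2 := hSSt s t
        simp only [hSS] at h2
        rw [h2]
        have h3 : SS s r = 0 := by
          by_contra h
          have h4 : s ∈ T := Finset.mem_filter.2 ⟨hs.1, h⟩
          have h5 := hs0max s h4
          exact absurd hs.2 (not_lt.2 h5)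
        simp only [hSS] at h3
        rw [h3, zero_mul]
      · refine Finset.sum_eq_zero fun i hi => ?_
        exfalso
        obtain ⟨hi1, hi2⟩ := Finset.mem_filter.1 hi
        obtain ⟨hi3, hi4⟩ := Finset.mem_filter.1 hi1
        apply hs
        refine ⟨hi2 ▸ (hκ1 i hi3).1, ?_⟩
        rw [← hi2, hmod i hi3]
        exact hi4
    have hbig2 : ∀ t, ∑ i ∈ Act.filter (fun i => ρ < ‖lam i‖),
        c i 0 * lam i ^ (r + q0 * t) = 0 := by
      intro t
      rw [← Finset.sum_fiberwise_of_maps_to (t := Act) (g := κ)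
        (fun i hi => (hκ1 i (Finset.mem_filter.1 hi).1).1)]
      exact Finset.sum_eq_zero fun s _ => hbig t s
    -- there is a good exponent
    have hexp : ∃ t, (∑ i ∈ Act.filter (fun i => ‖lam i‖ = ρ),
        c i 0 * (lam i / (ρ : ℂ)) ^ (r + q0 * t)).re < 0 := by
      by_contra hc
      push Not at hc
      have htop : ∀ t, 0 ≤ (∑ i ∈ Act.filter (fun i => ‖lam i‖ = ρ),
          c i 0 * lam i ^ (r + q0 * t)).re := by
        intro t
        have h1 := hc t
        have h2 : ∑ i ∈ Act.filter (fun i => ‖lam i‖ = ρ), c i 0 * lam i ^ (r + q0 * t) =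
            ((ρ ^ (r + q0 * t) : ℝ) : ℂ) * ∑ i ∈ Act.filter (fun i => ‖lam i‖ = ρ),
              c i 0 * (lam i / (ρ : ℂ)) ^ (r + q0 * t) := by
          rw [Finset.mul_sum]
          refine Finset.sum_congr rfl fun i _ => ?_
          have h3 : (ρ : ℂ) ≠ 0 := by exact_mod_cast hρ0.ne'
          rw [div_pow]
          push_cast
          field_simp
        rw [h2, Complex.re_ofReal_mul]
        positivity
      -- the growth theorem
      set W : Finset ℕ := Act.filter (fun i => ‖lam i‖ < ρ) with hW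
      set MS : Finset ℝ := insert (M ^ q0) (W.image fun i => ‖lam i‖ ^ q0) with hMS
      have hMSne : MS.Nonempty := ⟨M ^ q0, Finset.mem_insert_self _ _⟩
      set μ : ℝ := MS.max' hMSne with hμ
      have hμM : M ^ q0 ≤ μ := Finset.le_max' _ _ (Finset.mem_insert_self _ _)
      have hμ0 : 0 ≤ μ := (pow_nonneg hM0 q0).trans hμM
      have hμρ : μ < ρ ^ q0 := by
        have h1 := Finset.max'_mem MS hMSne
        rw [← hμ] at h1
        rcases Finset.mem_insert.1 h1 with h | h
        · rw [h]; exact pow_lt_pow_left₀ hMρ hM0 (by omega)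
        · obtain ⟨i, hi, hie⟩ := Finset.mem_image.1 h
          rw [← hie]
          exact pow_lt_pow_left₀ (Finset.mem_filter.1 hi).2 (norm_nonneg _) (by omega)
      have hWμ : ∀ i ∈ W, ‖lam i‖ ^ q0 ≤ μ := fun i hi =>
        Finset.le_max' MS (‖lam i‖ ^ q0) (Finset.mem_insert_of_mem
          (Finset.mem_image_of_mem (fun i => ‖lam i‖ ^ q0) hi))
      set R : ℝ := (μ + ρ ^ q0) / 2 with hR
      have hRμ : μ < R := by rw [hR]; linarith
      have hRρ : R < ρ ^ q0 := by rw [hR]; linarith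
      have hR0 : 0 < R := lt_of_le_of_lt hμ0 hRμ
      obtain ⟨N1, hN1⟩ := hG T (fun s => lam s ^ q0) (fun s => SS s r) (by
        intro s hs
        obtain ⟨hs1, hs2⟩ := Finset.mem_filter.1 hs
        have hal : ∀ i ∈ Act, IsAlgebraic ℚ (lam i) := by
          intro i hi
          have h1 := hActroot i hi
          refine ⟨chi l, ?_, ?_⟩
          · have hm : (chi l).Monic := by
              unfold chi
              refine Polynomial.monic_X_pow_sub ?_
              refine (Polynomial.degree_sum_le _ _).trans_lt ?_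
              rw [Finset.sup_lt_iff (by exact_mod_cast WithBot.bot_lt_coe _)]
              intro j hj
              refine (Polynomial.degree_C_mul_X_pow_le _ _).trans_lt ?_
              have : l.length - 1 - j < l.length := by omega
              exact_mod_cast this
            exact hm.ne_zero
          · unfold chi
            rw [map_sub, map_pow, aeval_X, map_sum]
            simp only [map_mul, map_pow, aeval_X, aeval_C]
            rw [sub_eq_zero]
            unfold Pool.Agent.H612.LR.IsRoot at h1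
            rw [h1]
            rfl
        refine ⟨(hal s hs1).pow q0, ?_, pow_ne_zero _ (hlam0 s (hActk s hs1)), hs2⟩
        have : ∀ A : Finset ℕ, (∀ i ∈ A, i ∈ Act) →
            IsAlgebraic ℚ (∑ i ∈ A, c i 0 * lam i ^ r) := by
          intro A
          induction A using Finset.induction_on with
          | empty => intro _; simpa using (isAlgebraic_zero : IsAlgebraic ℚ (0 : ℂ))
          | insert a A ha ih =>
            intro hA
            rw [Finset.sum_insert ha]
            have haA := hA a (Finset.mem_insert_self a A)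
            exact ((halg a (hActk a haA)).mul ((hal a haA).pow r)).add
              (ih fun i hi => hA i (Finset.mem_insert_of_mem hi))
        exact this _ fun i hi => (Finset.mem_filter.1 hi).1) (by
        intro s hs s' hs' hne t ht heq
        obtain ⟨hs1, hs2⟩ := Finset.mem_filter.1 hs
        obtain ⟨hs1', hs2'⟩ := Finset.mem_filter.1 hs'
        have hκs : ∀ s, SS s r ≠ 0 → ∃ i ∈ Act, κ i = s := by
          intro s hss
          by_contra hcon
          push Not at hcon
          apply hss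
          simp only [hSS]
          refine Finset.sum_eq_zero fun i hi => ?_
          obtain ⟨hi1, hi2⟩ := Finset.mem_filter.1 hi
          exact absurd hi2 (hcon i hi1)
        obtain ⟨i, hi, hie⟩ := hκs s hs2
        obtain ⟨i', hi', hie'⟩ := hκs s' hs2'
        have h1 : lam s ^ (q0 * t) = lam s' ^ (q0 * t) := by
          rw [pow_mul, pow_mul]; exact heq
        have h2 := htor (lam s) (lam s') (hActroot s hs1) (hActroot s' hs1')
          (hlam0 s (hActk s hs1)) (hlam0 s' (hActk s' hs1')) (q0 * t)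
          (Nat.mul_pos hq0 ht) h1
        have h3 : lam i ^ q0 = lam i' ^ q0 := by
          have e1 := (hκ1 i hi).2
          have e2 := (hκ1 i' hi').2
          rw [hie] at e1
          rw [hie'] at e2
          rw [← e1, ← e2, h2]
        apply hne
        rw [← hie, ← hie']
        exact hκ2 i hi i' hi' h3) R hR0.le ⟨s0, hs0T, by
          show R < ‖lam s0 ^ q0‖
          rw [norm_pow]
          exact hRρ⟩
      -- the lower part
      set A : ℝ := ∑ i ∈ W, ‖c i 0‖ * ‖lam i‖ ^ r with hA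
      have hA0 : 0 ≤ A := Finset.sum_nonneg fun _ _ => by positivity
      have hlow1 : ∀ t, ‖∑ i ∈ W, c i 0 * lam i ^ (r + q0 * t)‖ ≤ A * μ ^ t := by
        intro t
        refine (norm_sum_le _ _).trans ?_
        rw [hA, Finset.sum_mul]
        refine Finset.sum_le_sum fun i hi => ?_
        rw [norm_mul, norm_pow, pow_add, pow_mul, ← mul_assoc]
        refine mul_le_mul_of_nonneg_left ?_ (by positivity)
        exact pow_le_pow_left₀ (by positivity) (hWμ i hi) t
      have hLL1 : ∀ t, ‖LL (r + q0 * t)‖ ≤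
          A0 * M ^ r * ((r + q0 * t + 1 : ℕ) : ℝ) ^ k * μ ^ t := by
        intro t
        refine (hLLb _).trans ?_
        rw [pow_add M, pow_mul M]
        have h1 : (M ^ q0) ^ t ≤ μ ^ t := pow_le_pow_left₀ (pow_nonneg hM0 _) hμM t
        have h2 : 0 ≤ A0 * M ^ r * ((r + q0 * t + 1 : ℕ) : ℝ) ^ k := by positivity
        calc A0 * ((r + q0 * t + 1 : ℕ) : ℝ) ^ k * (M ^ r * (M ^ q0) ^ t)
            = A0 * M ^ r * ((r + q0 * t + 1 : ℕ) : ℝ) ^ k * (M ^ q0) ^ t := by ring
          _ ≤ _ := mul_le_mul_of_nonneg_left h1 h2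
      have hlow : ∀ t, ‖∑ i ∈ W, c i 0 * lam i ^ (r + q0 * t) + LL (r + q0 * t)‖ ≤
          (A + A0 * M ^ r) * ((r + q0 * t + 1 : ℕ) : ℝ) ^ k * μ ^ t := by
        intro t
        refine (norm_add_le _ _).trans ?_
        have h1 : A * μ ^ t ≤ A * ((r + q0 * t + 1 : ℕ) : ℝ) ^ k * μ ^ t := by
          have h2 : (1 : ℝ) ≤ ((r + q0 * t + 1 : ℕ) : ℝ) ^ k := by
            apply one_le_pow₀
            exact_mod_cast Nat.succ_le_succ (Nat.zero_le _)
          have h3 : A * 1 ≤ A * ((r + q0 * t + 1 : ℕ) : ℝ) ^ k := mul_le_mul_of_nonneg_left h2 hA0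
          rw [mul_one] at h3
          exact mul_le_mul_of_nonneg_right h3 (pow_nonneg hμ0 t)
        have h4 := hlow1 t
        have h5 := hLL1 t
        calc _ ≤ A * ((r + q0 * t + 1 : ℕ) : ℝ) ^ k * μ ^ t +
              A0 * M ^ r * ((r + q0 * t + 1 : ℕ) : ℝ) ^ k * μ ^ t := by linarith
          _ = _ := by ring
      obtain ⟨N2, hN2⟩ := poly_exp k r q0 (2 * (A + A0 * M ^ r)) μ R hμ0 hRμ
      obtain ⟨t, ht, hneg⟩ := hr (N1 + N2 + k)
      have h1 : 2 * ((A + A0 * M ^ r) * ((r + q0 * t + 1 : ℕ) : ℝ) ^ k * μ ^ t) < R ^ t := by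
        have h2 := hN2 t (by omega)
        calc _ = 2 * (A + A0 * M ^ r) * ((r + q0 * t + 1 : ℕ) : ℝ) ^ k * μ ^ t := by ring
          _ < _ := h2
      have hkt : k ≤ r + q0 * t := by
        have : t ≤ q0 * t := Nat.le_mul_of_pos_left t hq0
        omega
      have h3 := hN1 t (by omega)
      have h4 : ((seq l (r + q0 * t) : ℚ) : ℂ) = ∑ s ∈ T, SS s r * (lam s ^ q0) ^ t +
          LL (r + q0 * t) := by
        rw [hval2 t hkt, hT, Finset.sum_filter]
        congr 1
        refine Finset.sum_congr rfl fun s _ => ?_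
        split_ifs with h
        · rfl
        · rw [not_not] at h
          rw [h, zero_mul]
      have h4' : ∑ s ∈ T, SS s r * (lam s ^ q0) ^ t = ((seq l (r + q0 * t) : ℚ) : ℂ) -
          LL (r + q0 * t) := by rw [h4]; ring
      rw [h4'] at h3
      have h3' := h3.trans_le (norm_sub_le _ _)
      -- decomposition
      have h5 : ∑ i ∈ Act, c i 0 * lam i ^ (r + q0 * t) =
          ∑ i ∈ Act.filter (fun i => ρ < ‖lam i‖), c i 0 * lam i ^ (r + q0 * t) +
          (∑ i ∈ Act.filter (fun i => ‖lam i‖ = ρ), c i 0 * lam i ^ (r + q0 * t) +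
          ∑ i ∈ W, c i 0 * lam i ^ (r + q0 * t)) := by
        rw [hW, Finset.sum_filter, Finset.sum_filter, Finset.sum_filter, ← Finset.sum_add_distrib,
          ← Finset.sum_add_distrib]
        refine Finset.sum_congr rfl fun i _ => ?_
        rcases lt_trichotomy (‖lam i‖) ρ with h | h | h
        · rw [if_neg (not_lt.2 h.le), if_neg h.ne, if_pos h]; ring
        · rw [if_neg (not_lt.2 h.le), if_pos h, if_neg (not_lt.2 h.ge)]; ring
        · rw [if_pos h, if_neg h.ne', if_neg (not_lt.2 h.le)]; ring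
      rw [hbig2 t, zero_add] at h5
      have h5' : ((seq l (r + q0 * t) : ℚ) : ℂ) =
          ∑ i ∈ Act.filter (fun i => ‖lam i‖ = ρ), c i 0 * lam i ^ (r + q0 * t) +
          (∑ i ∈ W, c i 0 * lam i ^ (r + q0 * t) + LL (r + q0 * t)) := by
        rw [hval _ hkt, h5]
        ring
      clear h5
      have h5 := h5'
      have h6 := congrArg Complex.re h5
      rw [Complex.add_re] at h6
      have h7 : ((seq l (r + q0 * t) : ℚ) : ℂ).re = ((seq l (r + q0 * t) : ℚ) : ℝ) := by
        rw [← Complex.ofReal_ratCast, Complex.ofReal_re]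
      have h8 : ‖((seq l (r + q0 * t) : ℚ) : ℂ)‖ = |((seq l (r + q0 * t) : ℚ) : ℝ)| := by
        rw [← Complex.ofReal_ratCast, Complex.norm_real, Real.norm_eq_abs]
      have h9 : ((seq l (r + q0 * t) : ℚ) : ℝ) ≤ 0 := by exact_mod_cast hneg
      rw [h8, abs_of_nonpos h9] at h3'
      rw [h7] at h6
      have h10 := htop t
      have h11 : -(∑ i ∈ W, c i 0 * lam i ^ (r + q0 * t) + LL (r + q0 * t)).re ≤
          ‖∑ i ∈ W, c i 0 * lam i ^ (r + q0 * t) + LL (r + q0 * t)‖ :=
        (neg_le_abs _).trans (Complex.abs_re_le_norm _)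
      have h12 := hlow t
      have h13 := hLL1 t
      have h14 : A0 * M ^ r * ((r + q0 * t + 1 : ℕ) : ℝ) ^ k * μ ^ t ≤
          (A + A0 * M ^ r) * ((r + q0 * t + 1 : ℕ) : ℝ) ^ k * μ ^ t := by
        have : 0 ≤ A * ((r + q0 * t + 1 : ℕ) : ℝ) ^ k * μ ^ t :=
          mul_nonneg (mul_nonneg hA0 (by positivity)) (pow_nonneg hμ0 t)
        nlinarith
      linarith
    obtain ⟨t, ht⟩ := hexp
    refine ⟨{ lam := lam, c := c, ρ := ρ, J := 0, m := r + q0 * t, q := q0, P := fun _ => 0,
              a := fun _ _ => 0, b := fun _ _ => 0, ζ := 1, ξ := fun _ => 1, x := fun _ => 1,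
              h := fun _ _ => 1, fl := fl, κ := κ }, rfl, rfl, rfl, ?_, hk, Or.inr ?_⟩
    · refine ⟨hρ0.le, hq0, ?_, hκk, ?_, ?_⟩
      · intro i hi
        show fl i = 0 ∨ (fl i = 1 ∧ ‖lam i‖ = ρ ∧ IsRoot l (lam i)) ∨ (fl i = 2 ∧ ‖lam i‖ < ρ)
        rcases lt_trichotomy (‖lam i‖) ρ with h | h | h
        · exact Or.inr (Or.inr ⟨(hfl2 i).2 h, h⟩)
        · by_cases hiA : i ∈ Act
          · exact Or.inr (Or.inl ⟨(hfl1 i).2 ⟨h, hiA⟩, h, hActroot i hiA⟩)
          · exact Or.inl ((hfl0 i).2 (Or.inr ⟨h, hiA⟩))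
        · exact Or.inl ((hfl0 i).2 (Or.inl h))
      · intro s hs j hj
        show ∑ i ∈ ((Finset.range k).filter fun i => fl i = 0).filter (fun i => κ i = s),
          c i j * lam i ^ (r + q0 * t) = 0
        rcases Nat.eq_zero_or_pos j with hj0 | hj0
        · subst hj0
          rw [← hbig t s]
          symm
          refine Finset.sum_subset ?_ ?_
          · intro i hi
            obtain ⟨hi1, hi2⟩ := Finset.mem_filter.1 hi
            obtain ⟨hi3, hi4⟩ := Finset.mem_filter.1 hi1
            exact Finset.mem_filter.2 ⟨Finset.mem_filter.2 ⟨Finset.mem_range.2 (hActk i hi3),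
              (hfl0 i).2 (Or.inl hi4)⟩, hi2⟩
          · intro i hi hn
            obtain ⟨hi1, hi2⟩ := Finset.mem_filter.1 hi
            obtain ⟨hi3, hi4⟩ := Finset.mem_filter.1 hi1
            have hik : i < k := Finset.mem_range.1 hi3
            have : i ∉ Act := by
              intro h
              rcases (hfl0 i).1 hi4 with h5 | h5
              · exact hn (Finset.mem_filter.2 ⟨Finset.mem_filter.2 ⟨h, h5⟩, hi2⟩)
              · exact h5.2 h
            have hMi : M < ‖lam i‖ := by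
              rcases (hfl0 i).1 hi4 with h5 | h5
              · exact hMρ.trans h5
              · rw [h5.1]; exact hMρ
            rw [hActn i hik hMi this, zero_mul]
        · refine Finset.sum_eq_zero fun i hi => ?_
          obtain ⟨hik', hi4⟩ := Finset.mem_filter.1 (Finset.mem_filter.1 hi).1
          have hik : i < k := Finset.mem_range.1 hik'
          have hMi : M < ‖lam i‖ := by
            rcases (hfl0 i).1 hi4 with h5 | h5
            · exact hMρ.trans h5
            · rw [h5.1]; exact hMρ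
          rw [hbig0 i hik hMi j hj hj0, zero_mul]
      · intro s hs j hj hj0
        refine Finset.sum_eq_zero fun i hi => ?_
        obtain ⟨hik', hi4⟩ := Finset.mem_filter.1 (Finset.mem_filter.1 hi).1
        have hik : i < k := Finset.mem_range.1 hik'
        have hMi : M < ‖lam i‖ := by rw [((hfl1 i).1 hi4).1]; exact hMρ
        show c i j * lam i ^ (r + q0 * t) = 0
        rw [hbig0 i hik hMi j hj hj0, zero_mul]
    · show (∑ i ∈ (Finset.range k).filter (fun i => fl i = 1),
        c i 0 * (lam i / (ρ : ℂ)) ^ (r + q0 * t)).re < 0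
      have h1 : (Finset.range k).filter (fun i => fl i = 1) =
          Act.filter (fun i => ‖lam i‖ = ρ) := by
        ext i
        simp only [Finset.mem_filter]
        constructor
        · rintro ⟨_, h2⟩
          exact ⟨((hfl1 i).1 h2).2, ((hfl1 i).1 h2).1⟩
        · rintro ⟨h2, h3⟩
          exact ⟨Finset.mem_range.2 (hActk i h2), (hfl1 i).2 ⟨h3, h2⟩⟩
      rw [h1]
      exact ht

end Pool.Agent.TH286.GT.CLD
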