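import Pool.Agent.TH286.GT.CLD
import Pool.Agent.H612.LR.Main

/-!
# Ultimate Positivity in `∀ℝ` for recurrences whose multiple roots are small, from the growth
theorem
-/

set_option autoImplicit false

namespace Pool.Agent.TH286.GT.Main

open Pool.Agent.NPC Pool.Agent.NPC.ER Pool.Agent.NPC.H612 Pool.Agent.H612.PG Pool.Agent.H612.LR
open Pool.Agent.TH286.GT.CLD

/-- Along every arithmetic progression the sequence grows exponentially faster than the powers of
every multiple characteristic root: for every multiple root `z` and all `a`, `b ≥ 1` there is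
`r > |z|` such that `|u_n|` is not `O(r^n)` for `n = a + b t`. (For simple recurrences there is no
condition.) -/
def SmallMultipleRoots (l : Rec) : Prop :=
  ∀ z ∈ croots l, 2 ≤ (croots l).count z → ∀ a b : ℕ, 1 ≤ b →
    ∃ r : ℝ, ‖z‖ < r ∧ ∀ C : ℝ, ∃ t : ℕ, C * r ^ (a + b * t) < |((seq l (a + b * t) : ℚ) : ℝ)|

theorem small_of_simple (l : Rec) (h : Simple l) : SmallMultipleRoots l := by
  intro z _ h2
  have := Multiset.nodup_iff_count_le_one.1 h z
  omega

/-- The typed reduction. -/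
theorem main_up (hG : GrowthTheorem) : ∃ g : Rec → Fm, Poly g ∧ ∀ l : Rec, l ≠ [] →
    (ETR (g l) → ¬ UltPositive l) ∧
    ((NonTight l ∨ SmallMultipleRoots l) → ¬ UltPositive l → ETR (g l)) := by
  obtain ⟨A0, hA0⟩ := t_SND t_CORE t_LIN mas kro t_ASY t_VAN t_RPU
  obtain ⟨C, hC⟩ := t_TOR t_TORK
  obtain ⟨A1, hA1⟩ := t_CMP (t_DEC t_DIR) A0 C
  refine ⟨fun l => lrFm l (A1 * Pool.Agent.H612.LR.sz l ^ A1) (A0 * Pool.Agent.H612.LR.sz l ^ A0), t_PLY A0 A1, fun l hl => ?_⟩
  have hk : 1 ≤ l.length := List.length_pos_iff.2 hl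
  have hiff := etr_iff t_HLD t_SUR t_VC1 t_VC2 l (A1 * Pool.Agent.H612.LR.sz l ^ A1) (A0 * Pool.Agent.H612.LR.sz l ^ A0) hk
  obtain ⟨lam, c, hrep, hmul, halg⟩ := t_RPE l hk
  obtain ⟨q0, hq1, hq2, hq3⟩ := hC l hk
  have hroot : ∀ i < l.length, (∃ j < l.length, c i j ≠ 0) → IsRoot l (lam i) := by
    rintro i hi ⟨j, hj, hne⟩
    rw [t_ROOT l _ hk]
    by_contra hcon
    exact hne (hmul i hi j hj (by rw [Multiset.count_eq_zero.2 hcon]; exact Nat.zero_le _))
  have fin : ∀ d : CD, d.lam = lam → d.c = c → d.q ≤ 2 ^ (C * Pool.Agent.H612.LR.sz l ^ C) → d.Pre l →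
      ETR (lrFm l (A1 * Pool.Agent.H612.LR.sz l ^ A1) (A0 * Pool.Agent.H612.LR.sz l ^ A0)) := by
    intro d e1 e2 e3 e4
    exact hiff.2 (hA1 l d hk (by rw [e1, e2]; exact hrep) e4 e3)
  refine ⟨fun h => hA0 l _ hk (hiff.1 h), fun hcl hnup => ?_⟩
  rcases hcl with h | h
  · obtain ⟨d, e1, e2, e3, e4⟩ := t_CLA t_MEAN l lam c hk hrep hroot h hnup
    exact fin d e1 e2 (by rw [e3]; exact Nat.one_le_two_pow) e4
  · have hsm : SmallMult l lam c := by
      rintro i hi ⟨j, hj, hj0, hne⟩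
      have hcount : ¬ (croots l).count (lam i) ≤ j := fun hle => hne (hmul i hi j hj hle)
      have hmem : lam i ∈ croots l := by
        by_contra hcon
        rw [Multiset.count_eq_zero.2 hcon] at hcount
        exact hcount (Nat.zero_le _)
      exact h (lam i) hmem (by omega)
    obtain ⟨d, e1, e2, e3, e4⟩ := t_CLD hG l lam c q0 hk hrep hroot hsm
      (fun i hi => halg i hi 0 (by omega)) hq1 hq3 hnup
    exact fin d e1 e2 (by rw [e3]; exact hq2) e4

end Pool.Agent.TH286.GT.Main
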