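import Mathlib
import Pool.Agent.TH286.GT.Stms
import Pool.Agent.H393R2.Vanish

/-!
GT-A3: vanishing on products of hyperplanes (helper312 for helper286), adapted from
`Pool/Agent/TH461/SST/Vanish.lean`.
-/

set_option autoImplicit false

open Finset Filter Topology

namespace Pool.Agent.TH286.GT.VanishO

open Pool.Agent.TH286.GT
open Pool.Agent.TH461.SST (Big Ix wedge cpd Bal HeightPairStmt CBStmt SFStmt GapStmt CompStmt)
open Pool.Agent.H393R2 (bterm Sk Dset mem_Dset map_Sk)

/-! ### The sum of the absolute values of the coefficients -/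

section l1c

variable {σ : Type*}

/-- the sum of the absolute values of the coefficients -/
noncomputable def l1c (f : MvPolynomial σ ℂ) : ℝ := ∑ κ ∈ f.support, ‖f.coeff κ‖

lemma l1c_nonneg (f : MvPolynomial σ ℂ) : 0 ≤ l1c f :=
  Finset.sum_nonneg (fun _ _ => norm_nonneg _)

lemma norm_coeff_le_l1c (f : MvPolynomial σ ℂ) (κ : σ →₀ ℕ) : ‖f.coeff κ‖ ≤ l1c f := by
  by_cases h : κ ∈ f.support
  · exact Finset.single_le_sum (f := fun κ => ‖f.coeff κ‖) (fun _ _ => norm_nonneg _) h
  · rw [MvPolynomial.notMem_support_iff] at h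
    rw [h, norm_zero]
    exact l1c_nonneg f

lemma l1c_eq_sum (f : MvPolynomial σ ℂ) (s : Finset (σ →₀ ℕ)) (hs : f.support ⊆ s) :
    l1c f = ∑ κ ∈ s, ‖f.coeff κ‖ := by
  apply Finset.sum_subset hs
  intro κ _ h
  rw [MvPolynomial.notMem_support_iff] at h
  rw [h, norm_zero]

lemma l1c_zero : l1c (0 : MvPolynomial σ ℂ) = 0 := by simp [l1c]

lemma l1c_add_le (f g : MvPolynomial σ ℂ) : l1c (f + g) ≤ l1c f + l1c g := by
  classical
  rw [l1c_eq_sum (f + g) (f.support ∪ g.support) MvPolynomial.support_add,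
    l1c_eq_sum f (f.support ∪ g.support) Finset.subset_union_left,
    l1c_eq_sum g (f.support ∪ g.support) Finset.subset_union_right, ← Finset.sum_add_distrib]
  apply Finset.sum_le_sum
  intro κ _
  rw [MvPolynomial.coeff_add]
  exact norm_add_le _ _

lemma l1c_sum_le {ι : Type*} (s : Finset ι) (f : ι → MvPolynomial σ ℂ) :
    l1c (∑ i ∈ s, f i) ≤ ∑ i ∈ s, l1c (f i) := by
  classical
  induction s using Finset.induction_on with
  | empty => simp [l1c_zero]
  | insert a s ha ih =>
    rw [Finset.sum_insert ha, Finset.sum_insert ha]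
    exact (l1c_add_le _ _).trans (by linarith)

lemma l1c_monomial (a : σ →₀ ℕ) (c : ℂ) : l1c (MvPolynomial.monomial a c) = ‖c‖ := by
  classical
  by_cases hc : c = 0
  · subst hc; simp [l1c_zero]
  · rw [l1c, MvPolynomial.support_monomial, if_neg hc]
    simp

lemma l1c_mul_le (f g : MvPolynomial σ ℂ) : l1c (f * g) ≤ l1c f * l1c g := by
  classical
  have h : f * g = ∑ a ∈ f.support, ∑ b ∈ g.support,
      MvPolynomial.monomial (a + b) (f.coeff a * g.coeff b) := by
    conv_lhs => rw [MvPolynomial.as_sum f, MvPolynomial.as_sum g]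
    rw [Finset.sum_mul_sum]
    apply Finset.sum_congr rfl
    intro a _
    apply Finset.sum_congr rfl
    intro b _
    rw [MvPolynomial.monomial_mul]
  rw [h]
  refine (l1c_sum_le _ _).trans ?_
  calc ∑ a ∈ f.support, l1c (∑ b ∈ g.support,
        MvPolynomial.monomial (a + b) (f.coeff a * g.coeff b))
      ≤ ∑ a ∈ f.support, ∑ b ∈ g.support, ‖f.coeff a‖ * ‖g.coeff b‖ := by
        apply Finset.sum_le_sum
        intro a _
        refine (l1c_sum_le _ _).trans ?_
        apply Finset.sum_le_sum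
        intro b _
        rw [l1c_monomial, norm_mul]
    _ = l1c f * l1c g := by
        rw [l1c, l1c, Finset.sum_mul_sum]

lemma l1c_C (c : ℂ) : l1c (MvPolynomial.C c : MvPolynomial σ ℂ) = ‖c‖ := by
  rw [MvPolynomial.C_apply]; exact l1c_monomial _ _

lemma l1c_one : l1c (1 : MvPolynomial σ ℂ) = 1 := by
  rw [← MvPolynomial.C_1, l1c_C, norm_one]

lemma l1c_X (i : σ) : l1c (MvPolynomial.X i : MvPolynomial σ ℂ) = 1 := by
  rw [MvPolynomial.X]; rw [l1c_monomial]; simp

lemma l1c_prod_le {ι : Type*} (s : Finset ι) (f : ι → MvPolynomial σ ℂ) :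
    l1c (∏ i ∈ s, f i) ≤ ∏ i ∈ s, l1c (f i) := by
  classical
  induction s using Finset.induction_on with
  | empty => simp [l1c_one]
  | insert a s ha ih =>
    rw [Finset.prod_insert ha, Finset.prod_insert ha]
    exact (l1c_mul_le _ _).trans (mul_le_mul_of_nonneg_left ih (l1c_nonneg _))

lemma l1c_pow_le (f : MvPolynomial σ ℂ) (k : ℕ) : l1c (f ^ k) ≤ l1c f ^ k := by
  induction k with
  | zero => simp [l1c_one]
  | succ k ih =>
    rw [pow_succ, pow_succ]
    exact (l1c_mul_le _ _).trans (mul_le_mul_of_nonneg_right ih (l1c_nonneg _))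

lemma l1c_natCast (k : ℕ) : l1c ((k : ℕ) : MvPolynomial σ ℂ) = k := by
  have : ((k : ℕ) : MvPolynomial σ ℂ) = MvPolynomial.C (k : ℂ) := by simp
  rw [this, l1c_C]; simp

end l1c

/-! ### The linear forms -/

/-- the linear forms in the variables `u` -/
noncomputable def WP (R : Type) [CommRing R] {m n n' : ℕ} (w : Fin m → Fin n' → Fin n → ℤ)
    (h : Fin m) (l : Fin n) : MvPolynomial (Fin m × Fin n') R :=
  ∑ i, MvPolynomial.X (h, i) * MvPolynomial.C ((w h i l : ℤ) : R)

lemma form_eq {O : Type} [CommRing O] (R : Type) [CommRing R] (ρ : O →+* R) {m n n' : ℕ}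
    (w : Fin m → Fin n' → Fin n → ℤ)
    (M : Matrix (Fin n) (Fin n) O) (h : Fin m) (l : Fin n) :
    ∑ j, ((MvPolynomial.C : R →+* MvPolynomial (Fin m × Fin n') R).comp ρ) (M l j) *
        WP R w h j =
      ∑ i, MvPolynomial.X (h, i) * MvPolynomial.C (ρ (∑ j, M l j * ((w h i j : ℤ) : O))) := by
  unfold WP
  simp_rw [Finset.mul_sum]
  rw [Finset.sum_comm]
  apply Finset.sum_congr rfl
  intro i _
  rw [map_sum, map_sum, Finset.mul_sum]
  apply Finset.sum_congr rfl
  intro j _
  have e : ρ ((w h i j : ℤ) : O) = ((w h i j : ℤ) : R) := map_intCast ρ _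
  rw [map_mul ρ, e, MvPolynomial.C_mul, RingHom.comp_apply]
  ring

/-- the lattice condition -/
lemma lat_form {O : Type} [CommRing O] {n : ℕ} {M : Matrix (Fin n) (Fin n) O} {β : Fin n → O}
    {B : Matrix (Fin n) (Fin n) ℤ} (hL : Lat M β B) (z : Fin n → ℤ) (l : Fin n) :
    ∑ j, M l j * ((B.mulVec z j : ℤ) : O) = β l * ∑ j, M l j * ((z j : ℤ) : O) := by
  have h1 := hL.2
  have h2 : ∀ i, ∑ j, M l j * ((B j i : ℤ) : O) = β l * M l i := by
    intro i
    have h3 := congrFun (congrFun h1 l) i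
    rw [Matrix.mul_apply, Matrix.diagonal_mul] at h3
    rw [← h3]
    apply Finset.sum_congr rfl
    intro j _
    rfl
  calc ∑ j, M l j * ((B.mulVec z j : ℤ) : O)
      = ∑ j, ∑ i, M l j * ((B j i : ℤ) : O) * ((z i : ℤ) : O) := by
        apply Finset.sum_congr rfl
        intro j _
        rw [Matrix.mulVec, dotProduct, Int.cast_sum, Finset.mul_sum]
        apply Finset.sum_congr rfl
        intro i _
        rw [Int.cast_mul]
        ring
    _ = ∑ i, (∑ j, M l j * ((B j i : ℤ) : O)) * ((z i : ℤ) : O) := by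
        rw [Finset.sum_comm]
        apply Finset.sum_congr rfl
        intro i _
        rw [Finset.sum_mul]
    _ = β l * ∑ j, M l j * ((z j : ℤ) : O) := by
        rw [Finset.mul_sum]
        apply Finset.sum_congr rfl
        intro i _
        rw [h2 i]
        ring

/-- divisibility of the expansion -/
lemma dvd_expansion {O : Type} [CommRing O] {m n s : ℕ} {S : Type} [CommRing S] (ψ : O →+* S)
    (r k : Fin m → ℕ) (j1 : Fin n)
    (d : (Fin m → Fin n → ℕ) → O) (M : Matrix (Fin n) (Fin n) O) (lam : Fin s → Fin n → O)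
    (kk : Fin m → Fin s → ℕ) (E : Fin s → ℕ)
    (hE : LowExpO r k d kk E) (L : Fin m → Fin n → S)
    (hL : ∀ h l, ψ (bet lam (kk h) l) ∣ L h l) :
    ψ (∏ v, (∏ l, lam v l) ^ E v) ∣ ∑ J ∈ Dset m n r, ψ (d J) * ∏ h,
        ∑ κ ∈ Finset.piAntidiag (Finset.univ : Finset (Fin n)) (k h),
          ∏ l, ((((J h l).choose (κ l) : ℕ) : S) * ψ (M l j1) ^ (κ l) *
            (L h l) ^ (J h l - κ l)) := by
  classical
  apply Finset.dvd_sum
  intro J hJ
  by_cases hd : d J = 0
  · rw [hd, map_zero, zero_mul]; exact dvd_zero _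
  apply Dvd.dvd.mul_left
  rw [Finset.prod_univ_sum]
  apply Finset.dvd_sum
  intro κ hκ
  rw [Fintype.mem_piFinset] at hκ
  have hκ' : ∀ h, ∑ l, κ h l = k h := fun h => by
    have := hκ h
    rw [Finset.mem_piAntidiag] at this
    exact this.1
  by_cases hle : ∀ h l, κ h l ≤ J h l
  · have h1 := hE J hJ hd κ hκ' hle
    have h2 : (∏ v, (∏ l, lam v l) ^ E v) ∣
        ∏ h : Fin m, ∏ l : Fin n, (bet lam (kk h) l) ^ (J h l - κ h l) := by
      have e1 : ∏ h : Fin m, ∏ l : Fin n, (bet lam (kk h) l) ^ (J h l - κ h l) =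
          ∏ v, ∏ l, (lam v l) ^ (∑ h, kk h v * (J h l - κ h l)) := by
        calc ∏ h : Fin m, ∏ l : Fin n, (bet lam (kk h) l) ^ (J h l - κ h l)
            = ∏ h : Fin m, ∏ l : Fin n, ∏ v, (lam v l) ^ (kk h v * (J h l - κ h l)) := by
              apply Finset.prod_congr rfl
              intro h _
              apply Finset.prod_congr rfl
              intro l _
              unfold bet
              rw [← Finset.prod_pow]
              apply Finset.prod_congr rfl
              intro v _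
              rw [pow_mul]
          _ = ∏ h : Fin m, ∏ v, ∏ l : Fin n, (lam v l) ^ (kk h v * (J h l - κ h l)) := by
              apply Finset.prod_congr rfl
              intro h _
              rw [Finset.prod_comm]
          _ = ∏ v, ∏ h : Fin m, ∏ l : Fin n, (lam v l) ^ (kk h v * (J h l - κ h l)) := by
              rw [Finset.prod_comm]
          _ = ∏ v, ∏ l, (lam v l) ^ (∑ h, kk h v * (J h l - κ h l)) := by
              apply Finset.prod_congr rfl
              intro v _
              rw [Finset.prod_comm]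
              apply Finset.prod_congr rfl
              intro l _
              rw [Finset.prod_pow_eq_pow_sum]
      rw [e1]
      apply Finset.prod_dvd_prod_of_dvd
      intro v _
      rw [← Finset.prod_pow]
      apply Finset.prod_dvd_prod_of_dvd
      intro l _
      exact pow_dvd_pow _ (h1 v l)
    refine (map_dvd ψ h2).trans ?_
    rw [map_prod]
    apply Finset.prod_dvd_prod_of_dvd
    intro h _
    rw [map_prod]
    apply Finset.prod_dvd_prod_of_dvd
    intro l _
    apply Dvd.dvd.mul_left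
    rw [map_pow]
    exact pow_dvd_pow_of_dvd (hL h l) _
  · push Not at hle
    obtain ⟨h, l, hl⟩ := hle
    have : ∏ h, ∏ l, ((((J h l).choose (κ h l) : ℕ) : S) * ψ (M l j1) ^ (κ h l) *
            (L h l) ^ (J h l - κ h l)) = 0 := by
      apply Finset.prod_eq_zero (Finset.mem_univ h)
      apply Finset.prod_eq_zero (Finset.mem_univ l)
      rw [Nat.choose_eq_zero_of_lt hl, Nat.cast_zero, zero_mul, zero_mul]
    rw [this]
    exact dvd_zero _

/-- the norm of the expansion -/
lemma l1c_expansion {O : Type} [CommRing O] (φ : O →+* ℂ) {m n : ℕ} {σ : Type}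
    (r k : Fin m → ℕ) (j1 : Fin n)
    (d : (Fin m → Fin n → ℕ) → O) (D : (Fin m → Fin n → ℕ) → ℤ)
    (hD : ∀ J ∈ Dset m n r, ‖φ (d J)‖ ≤ |(D J : ℝ)|)
    (M : Matrix (Fin n) (Fin n) O) (X : ℝ)
    (hM : ∀ l, ‖φ (M l j1)‖ ≤ X) (A : Fin m → Fin n → ℝ)
    (L : Fin m → Fin n → MvPolynomial σ ℂ) (hL : ∀ h l, l1c (L h l) ≤ X * A h l) :
    l1c (∑ J ∈ Dset m n r, ((MvPolynomial.C : ℂ →+* MvPolynomial σ ℂ).comp φ) (d J) * ∏ h,
        ∑ κ ∈ Finset.piAntidiag (Finset.univ : Finset (Fin n)) (k h),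
          ∏ l, ((((J h l).choose (κ l) : ℕ) : MvPolynomial σ ℂ) *
            ((MvPolynomial.C : ℂ →+* MvPolynomial σ ℂ).comp φ) (M l j1) ^ (κ l) *
              (L h l) ^ (J h l - κ l))) ≤
      ∑ J ∈ Dset m n r, |(D J : ℝ)| * ∏ h,
        ∑ κ ∈ Finset.piAntidiag (Finset.univ : Finset (Fin n)) (k h),
          ∏ l, (((J h l).choose (κ l) : ℝ) * X ^ (κ l) * (X * A h l) ^ (J h l - κ l)) := by
  refine (l1c_sum_le _ _).trans ?_
  apply Finset.sum_le_sum
  intro J hJ
  refine (l1c_mul_le _ _).trans ?_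
  rw [RingHom.comp_apply, l1c_C]
  refine mul_le_mul (hD J hJ) ?_ (l1c_nonneg _) (abs_nonneg _)
  refine (l1c_prod_le _ _).trans ?_
  apply Finset.prod_le_prod
  · intro h _; exact l1c_nonneg _
  intro h _
  refine (l1c_sum_le _ _).trans ?_
  apply Finset.sum_le_sum
  intro κ _
  refine (l1c_prod_le _ _).trans ?_
  apply Finset.prod_le_prod
  · intro l _; exact l1c_nonneg _
  intro l _
  refine (l1c_mul_le _ _).trans ?_
  refine mul_le_mul ?_ ?_ (l1c_nonneg _) ?_
  · refine (l1c_mul_le _ _).trans ?_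
    rw [l1c_natCast]
    apply mul_le_mul_of_nonneg_left _ (by positivity)
    refine (l1c_pow_le _ _).trans ?_
    rw [RingHom.comp_apply, l1c_C]
    exact pow_le_pow_left₀ (norm_nonneg _) (hM l) _
  · exact (l1c_pow_le _ _).trans (pow_le_pow_left₀ (l1c_nonneg _) (hL h l) _)
  · have : 0 ≤ X := (norm_nonneg _).trans (hM l)
    positivity

/-- the linear forms over `R` come from the linear forms over `ℤ` -/
lemma coeff_Sk (R : Type) [CommRing R] {m n n' : ℕ} (r : Fin m → ℕ) (j1 : Fin n)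
    (k : Fin m → ℕ) (c : (Fin m → Fin n → ℕ) → ℤ) (w : Fin m → Fin n' → Fin n → ℤ)
    (β : (Fin m × Fin n') →₀ ℕ) :
    (Sk r j1 k c (WP R w)).coeff β = (((Sk r j1 k c (WP ℤ w)).coeff β : ℤ) : R) := by
  have : Sk r j1 k c (WP R w) = MvPolynomial.map (Int.castRingHom R)
      (Sk r j1 k c (WP ℤ w)) := by
    rw [map_Sk]
    congr 1
    funext h l
    unfold WP
    rw [map_sum]
    apply Finset.sum_congr rfl
    intro i _
    rw [map_mul, MvPolynomial.map_X, MvPolynomial.map_C]
    simp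
  rw [this, MvPolynomial.coeff_map]
  simp

theorem vanishO (O : Type) [CommRing O] [IsDomain O] [Module.Free ℤ O] [Module.Finite ℤ O] (φ : O →+* ℂ)
    (hexp : ExpandOStmt O) : VanishOStmt O φ := by
  classical
  intro m n s n' r j1 k c M0 hM0 M hM lam d0 hd0 d hd kk B hB z E hE b hb hbn X hX hdet hMX D0
    hD0 A hA hsmall
  obtain ⟨w, hw⟩ : ∃ w : Fin m → Fin n' → Fin n → ℤ,
      w = fun h i => (B h).mulVec (z h i) := ⟨_, rfl⟩
  have hwe : ∀ h i l, (B h).mulVec (z h i) l = w h i l := fun h i l => by rw [hw]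
  -- the norm
  have hbas := Module.Free.chooseBasis ℤ O
  have hfr : Module.finrank ℤ O = Fintype.card (Module.Free.ChooseBasisIndex ℤ O) :=
    Module.finrank_eq_card_chooseBasisIndex ℤ O
  have hfr0 : Module.finrank ℤ O ≠ 0 := by
    rw [hfr]
    have : Nonempty (Module.Free.ChooseBasisIndex ℤ O) := hbas.index_nonempty
    exact Fintype.card_ne_zero
  have hnz : ∀ x : ℤ, Algebra.norm ℤ ((x : ℤ) : O) = x ^ Module.finrank ℤ O := by
    intro x
    have h1 := Algebra.norm_algebraMap_of_basis hbas x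
    rw [hfr, ← h1]
    congr 1
  have hn0 : Algebra.norm ℤ M.det ≠ 0 := (Algebra.norm_ne_zero_iff_of_basis hbas).2 hM
  have hF : Sk r j1 k c (WP ℤ w) = 0 := by
    ext β
    rw [MvPolynomial.coeff_zero]
    by_contra hne
    obtain ⟨t, ht⟩ : ∃ t : ℤ, t = (Sk r j1 k c (WP ℤ w)).coeff β := ⟨_, rfl⟩
    rw [← ht] at hne
    -- divisibility
    have h1 : (∏ v, (∏ l, lam v l) ^ E v) ∣ M.det ^ (∑ h, r h) * ((t : ℤ) : O) := by
      have e1 := hexp (MvPolynomial (Fin m × Fin n') O)
        ((MvPolynomial.C : O →+* MvPolynomial (Fin m × Fin n') O).comp (RingHom.id O))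
        m n r j1 k c d M hd (WP O w)
      have hL : ∀ h l,
          ((MvPolynomial.C : O →+* MvPolynomial (Fin m × Fin n') O).comp (RingHom.id O))
            (bet lam (kk h) l) ∣
          ∑ i, ((MvPolynomial.C : O →+* MvPolynomial (Fin m × Fin n') O).comp (RingHom.id O))
            (M l i) * WP O w h i := by
        intro h l
        rw [form_eq]
        apply Finset.dvd_sum
        intro i _
        apply Dvd.dvd.mul_left
        rw [RingHom.comp_apply]
        apply map_dvd
        rw [RingHom.id_apply, RingHom.id_apply]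
        refine ⟨∑ j, M l j * ((z h i j : ℤ) : O), ?_⟩
        rw [← lat_form (hB h) (z h i) l]
        apply Finset.sum_congr rfl
        intro j _
        rw [hwe]
      have e2 := dvd_expansion
        ((MvPolynomial.C : O →+* MvPolynomial (Fin m × Fin n') O).comp (RingHom.id O))
        r k j1 d M lam kk E hE _ hL
      rw [← e1, RingHom.comp_apply, RingHom.id_apply, MvPolynomial.C_dvd_iff_dvd_coeff] at e2
      have e3 := e2 β
      rw [RingHom.comp_apply, RingHom.id_apply, ← map_pow, MvPolynomial.coeff_C_mul,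
        coeff_Sk, ← ht] at e3
      exact e3
    have h2 : Algebra.norm ℤ (∏ v, (∏ l, lam v l) ^ E v) ∣
        (Algebra.norm ℤ M.det) ^ (∑ h, r h) * t ^ Module.finrank ℤ O := by
      have e1 := map_dvd (Algebra.norm ℤ) h1
      rw [map_mul, map_pow, hnz] at e1
      exact e1
    have h3 : (Algebra.norm ℤ M.det) ^ (∑ h, r h) * t ^ Module.finrank ℤ O ≠ 0 :=
      mul_ne_zero (pow_ne_zero _ hn0) (pow_ne_zero _ hne)
    obtain ⟨ND, hND⟩ : ∃ x : ℤ, x = Algebra.norm ℤ M.det := ⟨_, rfl⟩
    rw [← hND] at h2 h3 hn0 hdet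
    have hND1 : (1 : ℝ) ≤ |(ND : ℝ)| := by
      rw [← Int.cast_abs]
      exact_mod_cast Int.one_le_abs hn0
    have h4 : ∏ v, (b v : ℝ) ^ (E v) ≤ |(ND : ℝ)| ^ (∑ h, r h) * |(t : ℝ)| := by
      have e1 : |Algebra.norm ℤ (∏ v, (∏ l, lam v l) ^ E v)| ≤
          |ND ^ (∑ h, r h) * t ^ Module.finrank ℤ O| :=
        Int.le_of_dvd (abs_pos.2 h3) ((abs_dvd_abs _ _).2 h2)
      have e2 : (|((Algebra.norm ℤ (∏ v, (∏ l, lam v l) ^ E v) : ℤ) : ℝ)|) ≤
          |(ND : ℝ)| ^ (∑ h, r h) * |(t : ℝ)| ^ Module.finrank ℤ O := by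
        have := (Int.cast_le (R := ℝ)).2 e1
        rw [Int.cast_abs, Int.cast_abs] at this
        push_cast at this
        rw [abs_mul, abs_pow, abs_pow] at this
        exact this
      have e3 : |((Algebra.norm ℤ (∏ v, (∏ l, lam v l) ^ E v) : ℤ) : ℝ)| =
          (∏ v, b v ^ E v) ^ Module.finrank ℤ O := by
        rw [map_prod, Int.cast_prod, Finset.abs_prod, ← Finset.prod_pow]
        apply Finset.prod_congr rfl
        intro v _
        rw [map_pow, Int.cast_pow, abs_pow, ← hbn v, ← pow_mul, ← pow_mul, mul_comm]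
      rw [e3] at e2
      have e4 : |(ND : ℝ)| ^ (∑ h, r h) * |(t : ℝ)| ^ Module.finrank ℤ O ≤
          (|(ND : ℝ)| ^ (∑ h, r h) * |(t : ℝ)|) ^ Module.finrank ℤ O := by
        rw [mul_pow]
        apply mul_le_mul_of_nonneg_right _ (by positivity)
        exact le_self_pow₀ (one_le_pow₀ hND1) hfr0
      exact le_of_pow_le_pow_left₀ hfr0 (by positivity) (e2.trans e4)
    -- archimedean bound
    have h5 : ‖φ M0.det‖ ^ (∑ h, r h) * |(t : ℝ)| ≤ ∑ J ∈ Dset m n r, |(D0 J : ℝ)| * ∏ h,
        ∑ κ ∈ Finset.piAntidiag (Finset.univ : Finset (Fin n)) (k h),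
          ∏ l, (((J h l).choose (κ l) : ℝ) * X ^ (κ l) * (X * A h l) ^ (J h l - κ l)) := by
      have e1 := hexp (MvPolynomial (Fin m × Fin n') ℂ)
        ((MvPolynomial.C : ℂ →+* MvPolynomial (Fin m × Fin n') ℂ).comp φ)
        m n r j1 k c d0 M0 hd0 (WP ℂ w)
      have hL : ∀ h l, l1c (∑ i,
          ((MvPolynomial.C : ℂ →+* MvPolynomial (Fin m × Fin n') ℂ).comp φ) (M0 l i) *
            WP ℂ w h i) ≤ X * A h l := by
        intro h l
        rw [form_eq]
        refine (l1c_sum_le _ _).trans (le_trans ?_ (hA h l))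
        apply Finset.sum_le_sum
        intro i _
        refine (l1c_mul_le _ _).trans ?_
        rw [l1c_X, l1c_C, one_mul]
        simp only [hwe]
        exact le_rfl
      have e2 := l1c_expansion φ r k j1 d0 D0 hD0 M0 X hMX A _ hL
      rw [← e1] at e2
      refine le_trans ?_ e2
      refine le_trans ?_ (norm_coeff_le_l1c _ β)
      rw [RingHom.comp_apply, ← map_pow, MvPolynomial.coeff_C_mul, coeff_Sk, ← ht, norm_mul,
        norm_pow, Complex.norm_intCast]
    have h6 : ∏ v, (b v : ℝ) ^ (E v) ≤ Big r k X D0 A := by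
      refine h4.trans ?_
      unfold Big
      calc |(ND : ℝ)| ^ (∑ h, r h) * |(t : ℝ)|
          ≤ (X * ‖φ M0.det‖) ^ (∑ h, r h) * |(t : ℝ)| := by
            apply mul_le_mul_of_nonneg_right _ (abs_nonneg _)
            exact pow_le_pow_left₀ (abs_nonneg _) hdet _
        _ = X ^ (∑ h, r h) * (‖φ M0.det‖ ^ (∑ h, r h) * |(t : ℝ)|) := by
            rw [mul_pow]; ring
        _ ≤ _ := mul_le_mul_of_nonneg_left h5 (by positivity)
    linarith
  intro u
  have h1 := congrArg (MvPolynomial.eval (fun x : Fin m × Fin n' => u x.1 x.2))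
    (congrArg (MvPolynomial.map (Int.castRingHom ℝ)) hF)
  rw [map_Sk, map_Sk, map_zero, map_zero] at h1
  rw [← h1]
  congr 1
  funext h l
  unfold WP
  rw [map_sum, map_sum]
  apply Finset.sum_congr rfl
  intro i _
  rw [hwe]
  simp

end Pool.Agent.TH286.GT.VanishO
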